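import Mathlib

namespace FPA

/-- 2-, 3- and 4-tensors on `ℝ⁶`, given by components in the standard basis. -/
abbrev T2 := Fin 6 → Fin 6 → ℝ
abbrev T3 := Fin 6 → Fin 6 → Fin 6 → ℝ
abbrev T4 := Fin 6 → Fin 6 → Fin 6 → Fin 6 → ℝ

/-- alternating 3-tensors -/
def Alt3 (u : T3) : Prop :=
  (∀ a b c, u a b c = - u b a c) ∧ (∀ a b c, u a b c = - u a c b)

/-- algebraic curvature tensors, in the curvature-operator convention (`K a b a b` is a sectional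
curvature). -/
structure CurvT (K : T4) : Prop where
  anti1 : ∀ a b c d, K a b c d = - K b a c d
  anti2 : ∀ a b c d, K a b c d = - K a b d c
  bianchi : ∀ a b c d, K a b c d + K b c a d + K c a b d = 0

/-- inner product of 2-vectors, for which `e_a ∧ e_b` (`a<b`) are orthonormal -/
noncomputable def ip2 (ξ η : T2) : ℝ := (1/2) * ∑ a, ∑ b, ξ a b * η a b

/-- the quadratic form of the curvature operator -/
noncomputable def Kq (K : T4) (ξ η : T2) : ℝ :=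
  (1/4) * ∑ a, ∑ b, ∑ c, ∑ d, K a b c d * ξ a b * η c d

/-- `4`-positivity: the sum of the values of the quadratic form on any four orthonormal
2-vectors is positive -/
def FourPos (K : T4) : Prop :=
  ∀ ξ : Fin 4 → T2, (∀ k a b, ξ k a b = - ξ k b a) →
    (∀ k l, ip2 (ξ k) (ξ l) = if k = l then 1 else 0) → 0 < ∑ k, Kq K (ξ k) (ξ k)

/-- the Weitzenboeck quadratic form on 3-tensors -/
noncomputable def Tform (K : T4) (u : T3) : ℝ :=
  (1/2) * (∑ i, ∑ j, ∑ f, K i j i f * ∑ k, ∑ l, u f k l * u j k l)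
    + ∑ i, ∑ j, ∑ k, ∑ f, K i j k f * ∑ l, u i f l * u j k l

/-- the action of the generator `e_a ∧ e_b` of `so(6)` on 3-tensors -/
def S (a b : Fin 6) (u : T3) : T3 := fun i j k =>
  (if i = a then u b j k else 0) - (if i = b then u a j k else 0)
  + (if j = a then u i b k else 0) - (if j = b then u i a k else 0)
  + (if k = a then u i j b else 0) - (if k = b then u i j a else 0)

/-- inner product of 3-tensors (`e_i ∧ e_j ∧ e_k` orthonormal) -/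
noncomputable def ip3 (u v : T3) : ℝ := (1/6) * ∑ i, ∑ j, ∑ k, u i j k * v i j k

/-- rotations of tensors -/
def rot2 (O : Matrix (Fin 6) (Fin 6) ℝ) (ξ : T2) : T2 :=
  fun a b => ∑ i, ∑ j, O a i * O b j * ξ i j
def rot3 (O : Matrix (Fin 6) (Fin 6) ℝ) (u : T3) : T3 :=
  fun a b c => ∑ i, ∑ j, ∑ k, O a i * O b j * O c k * u i j k
def rot4 (O : Matrix (Fin 6) (Fin 6) ℝ) (K : T4) : T4 :=
  fun a b c d => ∑ i, ∑ j, ∑ k, ∑ l, O a i * O b j * O c k * O d l * K i j k l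

/-- what we need of the Hodge star on 3-forms of `ℝ⁶` -/
structure StarLike (st : T3 → T3) : Prop where
  add : ∀ u v, st (u + v) = st u + st v
  smul : ∀ (r : ℝ) u, st (r • u) = r • st u
  alt : ∀ u, Alt3 u → Alt3 (st u)
  sq : ∀ u, Alt3 u → st (st u) = - u
  skew : ∀ u v, Alt3 u → Alt3 v → ip3 (st u) v = - ip3 u (st v)
  comm : ∀ a b u, Alt3 u → st (S a b u) = S a b (st u)
  v0 : ∀ u, Alt3 u → st u 0 1 2 = u 3 4 5
  v1 : ∀ u, Alt3 u → st u 0 4 5 = u 1 2 3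
  v2 : ∀ u, Alt3 u → st u 3 1 5 = - u 0 2 4
  v3 : ∀ u, Alt3 u → st u 3 4 2 = u 0 1 5

/-- 3-forms `A e₀e₁e₂ + B e₀f₁f₂ + C f₀e₁f₂ + D f₀f₁e₂` (`e_j` = basis vector `j`, `f_j` = basis
vector `3+j`): the alternating tensors all of whose other components vanish -/
structure IsSlice (v : T3) : Prop where
  alt : Alt3 v
  z013 : v 0 1 3 = 0
  z014 : v 0 1 4 = 0
  z015 : v 0 1 5 = 0
  z023 : v 0 2 3 = 0
  z024 : v 0 2 4 = 0
  z025 : v 0 2 5 = 0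
  z034 : v 0 3 4 = 0
  z035 : v 0 3 5 = 0
  z123 : v 1 2 3 = 0
  z124 : v 1 2 4 = 0
  z125 : v 1 2 5 = 0
  z134 : v 1 3 4 = 0
  z145 : v 1 4 5 = 0
  z235 : v 2 3 5 = 0
  z245 : v 2 4 5 = 0
  z345 : v 3 4 5 = 0

/-- the 2-vector `e_a ∧ e_b` -/
def wd (a b : Fin 6) : T2 := fun i j =>
  (if i = a ∧ j = b then 1 else 0) - (if i = b ∧ j = a then 1 else 0)

/-- 12 orthonormal root 2-vectors -/
noncomputable def rt : Fin 12 → T2 :=
  ![(Real.sqrt 2)⁻¹ • (wd 0 1 + wd 3 4), (Real.sqrt 2)⁻¹ • (wd 0 1 - wd 3 4),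
    (Real.sqrt 2)⁻¹ • (wd 0 4 + wd 1 3), (Real.sqrt 2)⁻¹ • (wd 0 4 - wd 1 3),
    (Real.sqrt 2)⁻¹ • (wd 0 2 + wd 3 5), (Real.sqrt 2)⁻¹ • (wd 0 2 - wd 3 5),
    (Real.sqrt 2)⁻¹ • (wd 0 5 + wd 2 3), (Real.sqrt 2)⁻¹ • (wd 0 5 - wd 2 3),
    (Real.sqrt 2)⁻¹ • (wd 1 2 + wd 4 5), (Real.sqrt 2)⁻¹ • (wd 1 2 - wd 4 5),
    (Real.sqrt 2)⁻¹ • (wd 1 5 + wd 2 4), (Real.sqrt 2)⁻¹ • (wd 1 5 - wd 2 4)]

/-- the 2-vector `∑ t_j e_j ∧ f_j` -/
noncomputable def hv (t : Fin 3 → ℝ) : T2 := t 0 • wd 0 3 + t 1 • wd 1 4 + t 2 • wd 2 5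

/-- 15 orthonormal 2-vectors, given an orthonormal triple `n` in `ℝ³` -/
noncomputable def xi (n : Fin 3 → Fin 3 → ℝ) : Fin 12 ⊕ Fin 3 → T2 :=
  Sum.elim rt (fun i => hv (n i))

end FPA
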