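import Pool.Agent.Helper427.FPA.Defs



namespace FPA



theorem curv_symm (K : T4) (hK : CurvT K) (a b c d : Fin 6) : K a b c d = K c d a b := by
  linarith [hK.bianchi a b c d, hK.bianchi b c d a, hK.bianchi c d a b, hK.bianchi d a b c, hK.anti1 a b c d, hK.anti2 a b c d, hK.anti1 a b d c, hK.anti2 a b d c, hK.anti1 a c b d, hK.anti2 a c b d, hK.anti1 a c d b, hK.anti2 a c d b, hK.anti1 a d b c, hK.anti2 a d b c, hK.anti1 a d c b, hK.anti2 a d c b, hK.anti1 b a c d, hK.anti2 b a c d, hK.anti1 b a d c, hK.anti2 b a d c, hK.anti1 b c a d, hK.anti2 b c a d, hK.anti1 b c d a, hK.anti2 b c d a, hK.anti1 b d a c, hK.anti2 b d a c, hK.anti1 b d c a, hK.anti2 b d c a, hK.anti1 c a b d, hK.anti2 c a b d, hK.anti1 c a d b, hK.anti2 c a d b, hK.anti1 c b a d, hK.anti2 c b a d, hK.anti1 c b d a, hK.anti2 c b d a, hK.anti1 c d a b, hK.anti2 c d a b, hK.anti1 c d b a, hK.anti2 c d b a, hK.anti1 d a b c, hK.anti2 d a b c, hK.anti1 d a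 c b, hK.anti2 d a c b, hK.anti1 d b a c, hK.anti2 d b a c, hK.anti1 d b c a, hK.anti2 d b c a, hK.anti1 d c a b, hK.anti2 d c a b, hK.anti1 d c b a, hK.anti2 d c b a]

end FPA
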