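import Pool.Agent.Helper427.FPA.Defs
import Pool.Agent.Helper427.FPA.P_curv_symm



namespace FPA



theorem sum_wd_aux (f : Fin 6 → Fin 6 → ℝ) (a b : Fin 6) :
    ∑ i, ∑ j, f i j * wd a b i j = f a b - f b a := by
  simp [wd, ite_and, mul_sub, Finset.sum_sub_distrib]

theorem Kq_wd_aux (K : T4) (hK : CurvT K) (a b c d : Fin 6) :
    Kq K (wd a b) (wd c d) = K a b c d := by
  unfold Kq
  have h1 : ∀ i j : Fin 6, ∑ k, ∑ l, K i j k l * wd a b i j * wd c d k l =
      (K i j c d - K i j d c) * wd a b i j := by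
    intro i j
    have := sum_wd_aux (fun k l => K i j k l * wd a b i j) c d
    rw [this]; ring
  have h2 : ∑ i, ∑ j, ∑ k, ∑ l, K i j k l * wd a b i j * wd c d k l =
      ∑ i, ∑ j, (K i j c d - K i j d c) * wd a b i j := by
    refine Finset.sum_congr rfl fun i _ => Finset.sum_congr rfl fun j _ => h1 i j
  rw [h2, sum_wd_aux (fun i j => K i j c d - K i j d c) a b]
  have e1 := hK.anti1 a b c d
  have e2 := hK.anti1 a b d c
  have e3 := hK.anti2 a b c d
  linarith

theorem Kq_add_left_aux (K : T4) (x y z : T2) : Kq K (x + y) z = Kq K x z + Kq K y z := by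
  unfold Kq
  simp only [Pi.add_apply, mul_add, add_mul, Finset.sum_add_distrib]

theorem Kq_add_right_aux (K : T4) (x y z : T2) : Kq K z (x + y) = Kq K z x + Kq K z y := by
  unfold Kq
  simp only [Pi.add_apply, mul_add, Finset.sum_add_distrib]

theorem Kq_smul_left_aux (K : T4) (r : ℝ) (x z : T2) : Kq K (r • x) z = r * Kq K x z := by
  unfold Kq
  rw [mul_left_comm]
  congr 1
  simp only [Finset.mul_sum, Pi.smul_apply, smul_eq_mul]
  refine Finset.sum_congr rfl fun i _ => Finset.sum_congr rfl fun j _ =>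
    Finset.sum_congr rfl fun k _ => Finset.sum_congr rfl fun l _ => ?_
  ring

theorem Kq_smul_right_aux (K : T4) (r : ℝ) (x z : T2) : Kq K z (r • x) = r * Kq K z x := by
  unfold Kq
  rw [mul_left_comm]
  congr 1
  simp only [Finset.mul_sum, Pi.smul_apply, smul_eq_mul]
  refine Finset.sum_congr rfl fun i _ => Finset.sum_congr rfl fun j _ =>
    Finset.sum_congr rfl fun k _ => Finset.sum_congr rfl fun l _ => ?_
  ring

theorem Kq_cartan (K : T4) (hK : CurvT K) (t : Fin 3 → ℝ) :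
    Kq K (hv t) (hv t) = t 0 ^ 2 * K 0 3 0 3 + t 1 ^ 2 * K 1 4 1 4 + t 2 ^ 2 * K 2 5 2 5
      + 2 * (t 0 * t 1 * K 0 3 1 4 + t 0 * t 2 * K 0 3 2 5 + t 1 * t 2 * K 1 4 2 5) := by
  unfold hv
  simp only [Kq_add_left_aux, Kq_add_right_aux, Kq_smul_left_aux, Kq_smul_right_aux,
    Kq_wd_aux K hK]
  rw [curv_symm K hK 1 4 0 3, curv_symm K hK 2 5 0 3, curv_symm K hK 2 5 1 4]
  ring

end FPA
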