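import Pool.Agent.Helper427.FPA.Defs
import Pool.Agent.Helper427.FPA.P_curv_symm



namespace FPA



theorem wd_sum (T : T2) (r s : Fin 6) : ∑ c, ∑ d, T c d * wd r s c d = T r s - T s r := by
  have h : ∀ r s : Fin 6, ∑ c, ∑ d, T c d * (if c = r ∧ d = s then (1 : ℝ) else 0) = T r s := by
    intro r s
    rw [Finset.sum_eq_single r (fun c _ hc => by simp [hc]) (by simp),
      Finset.sum_eq_single s (fun d _ hd => by simp [hd]) (by simp)]
    simp
  unfold wd
  simp only [mul_sub, Finset.sum_sub_distrib]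
  rw [h r s, h s r]

theorem Kq_wd (K : T4) (hK : CurvT K) (p q r s : Fin 6) : Kq K (wd p q) (wd r s) = K p q r s := by
  unfold Kq
  have h1 : ∀ a b, ∑ c, ∑ d, K a b c d * wd p q a b * wd r s c d =
      (K a b r s - K a b s r) * wd p q a b := by
    intro a b
    rw [wd_sum (fun c d => K a b c d * wd p q a b)]
    ring
  simp only [h1]
  rw [wd_sum (fun a b => K a b r s - K a b s r)]
  have e1 := hK.anti2 p q s r
  have e2 := hK.anti1 q p r s
  have e3 := hK.anti1 q p s r
  rw [e2, e3, e1]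
  ring

theorem Kq_add_left (K : T4) (ξ ξ' η : T2) : Kq K (ξ + ξ') η = Kq K ξ η + Kq K ξ' η := by
  unfold Kq
  simp only [Pi.add_apply, mul_add, add_mul, Finset.sum_add_distrib]

theorem Kq_add_right (K : T4) (ξ η η' : T2) : Kq K ξ (η + η') = Kq K ξ η + Kq K ξ η' := by
  unfold Kq
  simp only [Pi.add_apply, mul_add, Finset.sum_add_distrib]

theorem Kq_smul_left (K : T4) (x : ℝ) (ξ η : T2) : Kq K (x • ξ) η = x * Kq K ξ η := by
  unfold Kq
  simp only [Pi.smul_apply, smul_eq_mul, Finset.mul_sum]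
  refine Finset.sum_congr rfl fun a _ => Finset.sum_congr rfl fun b _ =>
    Finset.sum_congr rfl fun c _ => Finset.sum_congr rfl fun d _ => ?_
  ring

theorem Kq_smul_right (K : T4) (x : ℝ) (ξ η : T2) : Kq K ξ (x • η) = x * Kq K ξ η := by
  unfold Kq
  simp only [Pi.smul_apply, smul_eq_mul, Finset.mul_sum]
  refine Finset.sum_congr rfl fun a _ => Finset.sum_congr rfl fun b _ =>
    Finset.sum_congr rfl fun c _ => Finset.sum_congr rfl fun d _ => ?_
  ring

theorem Kq_root (K : T4) (hK : CurvT K) :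
    (∀ a b c d, Kq K ((Real.sqrt 2)⁻¹ • (wd a b + wd c d)) ((Real.sqrt 2)⁻¹ • (wd a b + wd c d))
      = (K a b a b + K c d c d) / 2 + K a b c d) ∧
    (∀ a b c d, Kq K ((Real.sqrt 2)⁻¹ • (wd a b - wd c d)) ((Real.sqrt 2)⁻¹ • (wd a b - wd c d))
      = (K a b a b + K c d c d) / 2 - K a b c d) := by
  have hs : (Real.sqrt 2)⁻¹ * (Real.sqrt 2)⁻¹ = 1 / 2 := by
    rw [← mul_inv, Real.mul_self_sqrt (by norm_num)]
    norm_num
  constructor
  · intro a b c d
    rw [Kq_smul_left, Kq_smul_right, ← mul_assoc, hs, Kq_add_left, Kq_add_right, Kq_add_right,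
      Kq_wd K hK, Kq_wd K hK, Kq_wd K hK, Kq_wd K hK, ← curv_symm K hK a b c d]
    ring
  · intro a b c d
    have h : wd a b - wd c d = wd a b + (-1 : ℝ) • wd c d := by
      rw [neg_one_smul, sub_eq_add_neg]
    rw [h, Kq_smul_left, Kq_smul_right, ← mul_assoc, hs, Kq_add_left, Kq_add_right, Kq_add_right,
      Kq_smul_left, Kq_smul_left, Kq_smul_right, Kq_smul_right,
      Kq_wd K hK, Kq_wd K hK, Kq_wd K hK, Kq_wd K hK, ← curv_symm K hK a b c d]
    ring

end FPA
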