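import Pool.Agent.Helper427.FPA.Defs
import Pool.Agent.Helper427.FPA.P_curv_symm



namespace FPA



theorem contr_15222 (M : Fin 6 → Fin 6 → ℝ) (hM : ∀ a b, M a b = - M b a) (i : Fin 6)
    (f : Fin 6 → ℝ) :
    ∑ a, ∑ b, M a b * ((if i = a then f b else 0) - (if i = b then f a else 0)) =
      2 * ∑ b, M i b * f b := by
  have h1 : ∀ a b, M a b * ((if i = a then f b else 0) - (if i = b then f a else 0)) =
      (if i = a then M a b * f b else 0) - (if i = b then M a b * f a else 0) := by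
    intro a b
    split_ifs <;> ring
  simp only [h1, Finset.sum_sub_distrib]
  have h2 : ∑ a, ∑ b, (if i = a then M a b * f b else 0) = ∑ b, M i b * f b := by
    rw [Finset.sum_comm]
    apply Finset.sum_congr rfl
    intro b _
    simp
  have h3 : ∑ a, ∑ b, (if i = b then M a b * f a else 0) = - ∑ b, M i b * f b := by
    rw [← Finset.sum_neg_distrib]
    apply Finset.sum_congr rfl
    intro a _
    simp only [Finset.sum_ite_eq, Finset.mem_univ, if_true]
    rw [hM a i]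
    ring
  rw [h2, h3]
  ring

theorem contrS_15222 (M : Fin 6 → Fin 6 → ℝ) (hM : ∀ a b, M a b = - M b a) (u : T3)
    (i j k : Fin 6) : ∑ a, ∑ b, M a b * S a b u i j k =
      2 * ∑ b, (M i b * u b j k + M j b * u i b k + M k b * u i j b) := by
  have h1 : ∀ a b, M a b * S a b u i j k =
      M a b * ((if i = a then u b j k else 0) - (if i = b then u a j k else 0)) +
      M a b * ((if j = a then u i b k else 0) - (if j = b then u i a k else 0)) +
      M a b * ((if k = a then u i j b else 0) - (if k = b then u i j a else 0)) := by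
    intro a b
    unfold S
    ring
  simp only [h1, Finset.sum_add_distrib]
  rw [contr_15222 M hM i (fun b => u b j k), contr_15222 M hM j (fun b => u i b k),
    contr_15222 M hM k (fun b => u i j b)]
  ring

theorem re7_15222 (F : Fin 6 → Fin 6 → Fin 6 → Fin 6 → Fin 6 → Fin 6 → Fin 6 → ℝ) :
    ∑ a, ∑ b, ∑ c, ∑ d, ∑ i, ∑ j, ∑ k, F a b c d i j k =
      ∑ i, ∑ j, ∑ k, ∑ c, ∑ d, ∑ a, ∑ b, F a b c d i j k := by
  have h1 : ∑ a, ∑ b, ∑ c, ∑ d, ∑ i, ∑ j, ∑ k, F a b c d i j k =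
      ∑ p : Fin 6 × Fin 6, ∑ q : Fin 6 × Fin 6, ∑ t : Fin 6 × Fin 6 × Fin 6,
        F p.1 p.2 q.1 q.2 t.1 t.2.1 t.2.2 := by
    simp only [Fintype.sum_prod_type]
  have h2 : ∑ i, ∑ j, ∑ k, ∑ c, ∑ d, ∑ a, ∑ b, F a b c d i j k =
      ∑ t : Fin 6 × Fin 6 × Fin 6, ∑ q : Fin 6 × Fin 6, ∑ p : Fin 6 × Fin 6,
        F p.1 p.2 q.1 q.2 t.1 t.2.1 t.2.2 := by
    simp only [Fintype.sum_prod_type]
  rw [h1, h2, Finset.sum_comm]
  have h3 : ∀ q : Fin 6 × Fin 6, ∑ p : Fin 6 × Fin 6, ∑ t : Fin 6 × Fin 6 × Fin 6,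
        F p.1 p.2 q.1 q.2 t.1 t.2.1 t.2.2 = ∑ t : Fin 6 × Fin 6 × Fin 6, ∑ p : Fin 6 × Fin 6,
        F p.1 p.2 q.1 q.2 t.1 t.2.1 t.2.2 := fun q => Finset.sum_comm
  simp only [h3]
  rw [Finset.sum_comm]

theorem re4a_15222 (F : Fin 6 → Fin 6 → Fin 6 → Fin 6 → ℝ) :
    ∑ b, ∑ d, ∑ j, ∑ k, F b d j k = ∑ j, ∑ k, ∑ b, ∑ d, F b d j k := by
  have h1 : ∑ b, ∑ d, ∑ j, ∑ k, F b d j k =
      ∑ p : Fin 6 × Fin 6, ∑ q : Fin 6 × Fin 6, F p.1 p.2 q.1 q.2 := by
    simp only [Fintype.sum_prod_type]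
  have h2 : ∑ j, ∑ k, ∑ b, ∑ d, F b d j k =
      ∑ q : Fin 6 × Fin 6, ∑ p : Fin 6 × Fin 6, F p.1 p.2 q.1 q.2 := by
    simp only [Fintype.sum_prod_type]
  rw [h1, h2, Finset.sum_comm]

theorem re4b_15222 (F : Fin 6 → Fin 6 → Fin 6 → Fin 6 → ℝ) :
    ∑ b, ∑ j, ∑ d, ∑ k, F b j d k = ∑ j, ∑ k, ∑ b, ∑ d, F b j d k := by
  rw [Finset.sum_comm]
  apply Finset.sum_congr rfl
  intro j _
  have h1 : ∀ b, ∑ d, ∑ k, F b j d k = ∑ k, ∑ d, F b j d k := fun b => Finset.sum_comm
  simp only [h1]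
  rw [Finset.sum_comm]

theorem s12_15222 (F : Fin 6 → Fin 6 → Fin 6 → ℝ) :
    ∑ i, ∑ j, ∑ k, F j i k = ∑ i, ∑ j, ∑ k, F i j k := Finset.sum_comm

theorem s23_15222 (F : Fin 6 → Fin 6 → Fin 6 → ℝ) :
    ∑ i, ∑ j, ∑ k, F i k j = ∑ i, ∑ j, ∑ k, F i j k :=
  Finset.sum_congr rfl fun _ _ => Finset.sum_comm

theorem cyc1_15222 (F : Fin 6 → Fin 6 → Fin 6 → ℝ) :
    ∑ i, ∑ j, ∑ k, F j k i = ∑ i, ∑ j, ∑ k, F i j k := by
  rw [s12_15222 (fun i j k => F i k j), s23_15222]

theorem cyc2_15222 (F : Fin 6 → Fin 6 → Fin 6 → ℝ) :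
    ∑ i, ∑ j, ∑ k, F k i j = ∑ i, ∑ j, ∑ k, F i j k := by
  rw [s23_15222 (fun i j k => F j i k), s12_15222]

theorem s13_15222 (F : Fin 6 → Fin 6 → Fin 6 → ℝ) :
    ∑ i, ∑ j, ∑ k, F k j i = ∑ i, ∑ j, ∑ k, F i j k := by
  rw [cyc1_15222 (fun i j k => F j i k), s12_15222]

/-- The Weitzenboeck form written with the so(6)-action. -/
theorem T_eq_S (K : T4) (hK : CurvT K) (u : T3) (hu : Alt3 u) :
    Tform K u = (1/4) * ∑ a, ∑ b, ∑ c, ∑ d, K a b c d * ip3 (S a b u) (S c d u) := by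
  have hcy : ∀ a b c, u a b c = u b c a := by
    intro a b c
    rw [hu.1 a b c, hu.2 b a c]
    ring
  have s1 := hu.1
  have s2 := hu.2
  -- right-hand side
  have hR : ∑ a, ∑ b, ∑ c, ∑ d, K a b c d * ip3 (S a b u) (S c d u) =
      (1/6) * ∑ i, ∑ j, ∑ k, ∑ c, ∑ d,
        (∑ a, ∑ b, K a b c d * S a b u i j k) * S c d u i j k := by
    unfold ip3
    simp only [Finset.mul_sum, Finset.sum_mul]
    rw [re7_15222]
    refine Finset.sum_congr rfl fun i _ => Finset.sum_congr rfl fun j _ =>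
      Finset.sum_congr rfl fun k _ => Finset.sum_congr rfl fun c _ =>
      Finset.sum_congr rfl fun d _ => Finset.sum_congr rfl fun a _ =>
      Finset.sum_congr rfl fun b _ => ?_
    ring
  have hin : ∀ i j k, ∑ c, ∑ d, (∑ a, ∑ b, K a b c d * S a b u i j k) * S c d u i j k =
      4 * ∑ b, ∑ d, (
        u b j k * (K i b i d * u d j k + K i b j d * u i d k + K i b k d * u i j d) +
        u i b k * (K j b i d * u d j k + K j b j d * u i d k + K j b k d * u i j d) +
        u i j b * (K k b i d * u d j k + K k b j d * u i d k + K k b k d * u i j d)) := by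
    intro i j k
    have h1 : ∀ c d, ∑ a, ∑ b, K a b c d * S a b u i j k =
        2 * ∑ b, (K i b c d * u b j k + K j b c d * u i b k + K k b c d * u i j b) :=
      fun c d => contrS_15222 (fun a b => K a b c d) (fun a b => hK.anti1 a b c d) u i j k
    have h2 : ∀ x b, ∑ c, ∑ d, K x b c d * S c d u i j k =
        2 * ∑ d, (K x b i d * u d j k + K x b j d * u i d k + K x b k d * u i j d) :=
      fun x b => contrS_15222 (fun c d => K x b c d) (fun c d => hK.anti2 x b c d) u i j k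
    simp only [h1]
    have h3 : ∑ c, ∑ d, (2 * ∑ b, (K i b c d * u b j k + K j b c d * u i b k +
        K k b c d * u i j b)) * S c d u i j k =
        2 * ∑ b, (u b j k * (∑ c, ∑ d, K i b c d * S c d u i j k) +
          u i b k * (∑ c, ∑ d, K j b c d * S c d u i j k) +
          u i j b * (∑ c, ∑ d, K k b c d * S c d u i j k)) := by
      simp only [Finset.mul_sum, Finset.sum_mul, ← Finset.sum_add_distrib]
      have h4 : ∀ F : Fin 6 → Fin 6 → Fin 6 → ℝ, ∑ c, ∑ d, ∑ b, F c d b =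
          ∑ b, ∑ c, ∑ d, F c d b := by
        intro F
        have e1 : ∀ c, ∑ d, ∑ b, F c d b = ∑ b, ∑ d, F c d b := fun c => Finset.sum_comm
        simp only [e1]
        rw [Finset.sum_comm]
      rw [h4]
      refine Finset.sum_congr rfl fun b _ => Finset.sum_congr rfl fun c _ =>
        Finset.sum_congr rfl fun d _ => ?_
      ring
    rw [h3]
    simp only [h2]
    simp only [Finset.mul_sum, ← Finset.sum_add_distrib]
    refine Finset.sum_congr rfl fun b _ => Finset.sum_congr rfl fun d _ => ?_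
    ring
  rw [hR]
  simp only [hin]
  -- the two basic sums
  obtain ⟨p, hp⟩ : ∃ p : Fin 6 → Fin 6 → Fin 6 → ℝ, p = fun i j k =>
    ∑ b, ∑ d, K i b i d * u b j k * u d j k := ⟨_, rfl⟩
  obtain ⟨r, hr⟩ : ∃ r : Fin 6 → Fin 6 → Fin 6 → ℝ, r = fun i j k =>
    ∑ b, ∑ d, K i b j d * u b j k * u i d k := ⟨_, rfl⟩
  have hnine : ∀ i j k, 4 * ∑ b, ∑ d, (
        u b j k * (K i b i d * u d j k + K i b j d * u i d k + K i b k d * u i j d) +
        u i b k * (K j b i d * u d j k + K j b j d * u i d k + K j b k d * u i j d) +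
        u i j b * (K k b i d * u d j k + K k b j d * u i d k + K k b k d * u i j d)) =
      4 * (p i j k + p j i k + p k i j) +
      4 * (r i j k + r i k j + r j i k + r j k i + r k i j + r k j i) := by
    intro i j k
    rw [← mul_add]
    congr 1
    rw [hp, hr]
    simp only [← Finset.sum_add_distrib]
    refine Finset.sum_congr rfl fun b _ => Finset.sum_congr rfl fun d _ => ?_
    have a1 : u b i k = - u i b k := s1 b i k
    have a2 : u d i k = - u i d k := s1 d i k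
    have a3 : u b i j = u i j b := hcy b i j
    have a4 : u d i j = u i j d := hcy d i j
    have a5 : u b k j = - u b j k := s2 b k j
    have a6 : u i d j = - u i j d := s2 i d j
    have a7 : u j d k = - u d j k := s1 j d k
    have a8 : u b k i = u i b k := (hcy i b k).symm
    have a9 : u j d i = u i j d := (hcy i j d).symm
    have a10 : u k d j = u d j k := hcy k d j
    have a11 : u b j i = - u i j b := by rw [s2 b j i, a3]
    have a12 : u k d i = - u i d k := by rw [hcy k d i, s1 d i k]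
    rw [a1, a2, a3, a4, a5, a6, a7, a8, a9, a10, a11, a12]
    ring
  simp only [hnine]
  simp only [Finset.sum_add_distrib, ← Finset.mul_sum]
  rw [s12_15222 p, cyc2_15222 p, s23_15222 r, s12_15222 r, cyc1_15222 r, cyc2_15222 r,
    s13_15222 r]
  have hP : ∑ i, ∑ j, ∑ f, K i j i f * ∑ k, ∑ l, u f k l * u j k l =
      ∑ i, ∑ j, ∑ k, p i j k := by
    refine Finset.sum_congr rfl fun i _ => ?_
    rw [hp]
    simp only [Finset.mul_sum]
    rw [re4a_15222]
    refine Finset.sum_congr rfl fun j _ => Finset.sum_congr rfl fun k _ =>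
      Finset.sum_congr rfl fun b _ => Finset.sum_congr rfl fun d _ => ?_
    ring
  have hQ : ∑ i, ∑ j, ∑ k, ∑ f, K i j k f * ∑ l, u i f l * u j k l =
      ∑ i, ∑ j, ∑ k, r i j k := by
    refine Finset.sum_congr rfl fun i _ => ?_
    rw [hr]
    simp only [Finset.mul_sum]
    rw [re4b_15222]
    refine Finset.sum_congr rfl fun j _ => Finset.sum_congr rfl fun k _ =>
      Finset.sum_congr rfl fun b _ => Finset.sum_congr rfl fun d _ => ?_
    ring
  unfold Tform
  rw [hP, hQ]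
  ring

end FPA
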