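import Pool.Agent.Helper427.FPA.Defs
import Pool.Agent.Helper427.FPA.P_T_eq_S



namespace FPA



theorem T_phase_S_lin (a b : Fin 6) (c s : ℝ) (u w : T3) :
    S a b (c • u + s • w) = c • S a b u + s • S a b w := by
  funext i j k
  simp only [S, Pi.add_apply, Pi.smul_apply, smul_eq_mul]
  split_ifs <;> ring

theorem T_phase_S_alt (a b : Fin 6) (u : T3) (hu : Alt3 u) : Alt3 (S a b u) := by
  obtain ⟨h1, h2⟩ := hu
  constructor
  · intro i j k
    simp only [S]
    rw [h1 b i k, h1 a i k, h1 j b k, h1 j a k, h1 j i b, h1 j i a]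
    split_ifs <;> ring
  · intro i j k
    simp only [S]
    rw [h2 b k j, h2 a k j, h2 i k b, h2 i k a, h2 i b j, h2 i a j]
    split_ifs <;> ring

theorem T_phase_ip3 (c s : ℝ) (x y x' y' : T3) :
    ip3 (c • x + s • y) (c • x' + s • y') =
      c ^ 2 * ip3 x x' + c * s * (ip3 x y' + ip3 y x') + s ^ 2 * ip3 y y' := by
  have h : ∀ i j k, (c • x + s • y) i j k * (c • x' + s • y') i j k =
      c ^ 2 * (x i j k * x' i j k) + c * s * (x i j k * y' i j k) + c * s * (y i j k * x' i j k)
        + s ^ 2 * (y i j k * y' i j k) := by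
    intro i j k
    simp only [Pi.add_apply, Pi.smul_apply, smul_eq_mul]
    ring
  unfold ip3
  simp only [h, Finset.sum_add_distrib, ← Finset.mul_sum]
  ring

theorem T_phase_alt (c s : ℝ) (u w : T3) (hu : Alt3 u) (hw : Alt3 w) : Alt3 (c • u + s • w) := by
  constructor
  · intro i j k
    simp only [Pi.add_apply, Pi.smul_apply, smul_eq_mul]
    rw [hu.1 i j k, hw.1 i j k]
    ring
  · intro i j k
    simp only [Pi.add_apply, Pi.smul_apply, smul_eq_mul]
    rw [hu.2 i j k, hw.2 i j k]
    ring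

theorem T_phase_neg (x y : T3) : ip3 x (-y) = - ip3 x y := by
  unfold ip3
  simp only [Pi.neg_apply, mul_neg, Finset.sum_neg_distrib]

theorem T_phase (st : T3 → T3) (hst : StarLike st) (K : T4) (hK : CurvT K) (u : T3) (hu : Alt3 u)
    (c s : ℝ) (hcs : c ^ 2 + s ^ 2 = 1) : Tform K (c • u + s • st u) = Tform K u := by
  rw [T_eq_S K hK _ (T_phase_alt c s u (st u) hu (hst.alt u hu)), T_eq_S K hK u hu]
  have key : ∀ a b c' d, ip3 (S a b (c • u + s • st u)) (S c' d (c • u + s • st u)) =
      ip3 (S a b u) (S c' d u) := by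
    intro a b c' d
    have hx := T_phase_S_alt a b u hu
    have hx' := T_phase_S_alt c' d u hu
    rw [T_phase_S_lin, T_phase_S_lin, ← hst.comm a b u hu, ← hst.comm c' d u hu, T_phase_ip3]
    have e1 : ip3 (st (S a b u)) (st (S c' d u)) = ip3 (S a b u) (S c' d u) := by
      rw [hst.skew _ _ hx (hst.alt _ hx'), hst.sq _ hx', T_phase_neg, neg_neg]
    have e2 : ip3 (S a b u) (st (S c' d u)) + ip3 (st (S a b u)) (S c' d u) = 0 := by
      rw [hst.skew _ _ hx hx']
      ring
    rw [e1, e2]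
    linear_combination (ip3 (S a b u) (S c' d u)) * hcs
  simp only [key]

end FPA
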