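import Pool.Agent.Helper427.FPA.Defs



namespace FPA



/-- rotation of one index -/
def R1 (O : Matrix (Fin 6) (Fin 6) ℝ) (x : Fin 6 → ℝ) (i : Fin 6) : ℝ := ∑ a, O i a * x a

theorem R1_tr (O : Matrix (Fin 6) (Fin 6) ℝ) (hO : O * O.transpose = 1) (M : Fin 6 → Fin 6 → ℝ) :
    ∑ i, R1 O (fun a => R1 O (fun c => M a c) i) i = ∑ a, M a a := by
  have h1 : O.transpose * O = 1 := mul_eq_one_comm.1 hO
  have h2 : ∀ a c, ∑ i, O i a * O i c = if a = c then 1 else 0 := by
    intro a c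
    have := congrFun (congrFun h1 a) c
    simp only [Matrix.mul_apply, Matrix.transpose_apply, Matrix.one_apply] at this
    exact this
  unfold R1
  calc ∑ i, ∑ a, O i a * ∑ c, O i c * M a c
      = ∑ i, ∑ a, ∑ c, (O i a * O i c) * M a c := by
        simp only [Finset.mul_sum, mul_assoc]
    _ = ∑ a, ∑ i, ∑ c, (O i a * O i c) * M a c := Finset.sum_comm
    _ = ∑ a, ∑ c, ∑ i, (O i a * O i c) * M a c := by
        apply Finset.sum_congr rfl; intro a _; exact Finset.sum_comm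
    _ = ∑ a, ∑ c, (if a = c then 1 else 0) * M a c := by
        apply Finset.sum_congr rfl; intro a _
        apply Finset.sum_congr rfl; intro c _
        rw [← Finset.sum_mul, h2]
    _ = ∑ a, M a a := by simp

theorem R1_mulr (O : Matrix (Fin 6) (Fin 6) ℝ) (x : Fin 6 → ℝ) (c : ℝ) (i : Fin 6) :
    R1 O (fun a => x a * c) i = R1 O x i * c := by
  unfold R1
  rw [Finset.sum_mul]
  simp only [mul_assoc]

theorem R1_mull (O : Matrix (Fin 6) (Fin 6) ℝ) (x : Fin 6 → ℝ) (c : ℝ) (i : Fin 6) :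
    R1 O (fun a => c * x a) i = c * R1 O x i := by
  unfold R1
  rw [Finset.mul_sum]
  simp only [mul_left_comm]

theorem R1_sum (O : Matrix (Fin 6) (Fin 6) ℝ) (t : Fin 6 → Fin 6 → ℝ) (i : Fin 6) :
    R1 O (fun a => ∑ k, t k a) i = ∑ k, R1 O (t k) i := by
  unfold R1
  simp only [Finset.mul_sum]
  exact Finset.sum_comm

theorem R1_comm (O : Matrix (Fin 6) (Fin 6) ℝ) (t : Fin 6 → Fin 6 → ℝ) (i j : Fin 6) :
    R1 O (fun a => R1 O (fun b => t a b) j) i = R1 O (fun b => R1 O (fun a => t a b) i) j := by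
  unfold R1
  simp only [Finset.mul_sum]
  rw [Finset.sum_comm]
  simp only [mul_left_comm]

theorem R1_c (O : Matrix (Fin 6) (Fin 6) ℝ) (hO : O * O.transpose = 1) (x y : Fin 6 → ℝ) :
    ∑ i, R1 O x i * R1 O y i = ∑ a, x a * y a := by
  rw [← R1_tr O hO (fun a c => x a * y c)]
  apply Finset.sum_congr rfl; intro i _
  simp only [R1_mull, R1_mulr]

/-- rotation of two indices -/
def R2 (O : Matrix (Fin 6) (Fin 6) ℝ) (X : Fin 6 → Fin 6 → ℝ) (i j : Fin 6) : ℝ :=
  R1 O (fun a => R1 O (fun b => X a b) j) i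

theorem R2_c (O : Matrix (Fin 6) (Fin 6) ℝ) (hO : O * O.transpose = 1) (X Y : Fin 6 → Fin 6 → ℝ) :
    ∑ i, ∑ j, R2 O X i j * R2 O Y i j = ∑ a, ∑ b, X a b * Y a b := by
  unfold R2
  calc ∑ i, ∑ j, R1 O (fun a => R1 O (fun b => X a b) j) i * R1 O (fun a => R1 O (fun b => Y a b) j) i
      = ∑ j, ∑ i, R1 O (fun a => R1 O (fun b => X a b) j) i * R1 O (fun a => R1 O (fun b => Y a b) j) i :=
        Finset.sum_comm
    _ = ∑ j, ∑ a, R1 O (fun b => X a b) j * R1 O (fun b => Y a b) j := by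
        apply Finset.sum_congr rfl; intro j _
        exact R1_c O hO _ _
    _ = ∑ a, ∑ j, R1 O (fun b => X a b) j * R1 O (fun b => Y a b) j := Finset.sum_comm
    _ = ∑ a, ∑ b, X a b * Y a b := by
        apply Finset.sum_congr rfl; intro a _
        exact R1_c O hO _ _

theorem R2_sum (O : Matrix (Fin 6) (Fin 6) ℝ) (t : Fin 6 → Fin 6 → Fin 6 → ℝ) (i j : Fin 6) :
    R2 O (fun a b => ∑ k, t k a b) i j = ∑ k, R2 O (t k) i j := by
  unfold R2
  simp only [R1_sum]

theorem R1_R2 (O : Matrix (Fin 6) (Fin 6) ℝ) (t : Fin 6 → Fin 6 → Fin 6 → ℝ) (i j k : Fin 6) :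
    R1 O (fun a => R2 O (fun b c => t a b c) j k) i = R2 O (fun b c => R1 O (fun a => t a b c) i) j k := by
  unfold R2
  rw [R1_comm O (fun a b => R1 O (fun c => t a b c) k)]
  congr 1
  funext b
  rw [R1_comm O (fun a c => t a b c)]

theorem R2_R2 (O : Matrix (Fin 6) (Fin 6) ℝ) (t : Fin 6 → Fin 6 → Fin 6 → Fin 6 → ℝ) (i j k l : Fin 6) :
    R2 O (fun a b => R2 O (fun c d => t a b c d) k l) i j =
      R2 O (fun c d => R2 O (fun a b => t a b c d) i j) k l := by
  show R1 O (fun a => R1 O (fun b => R2 O (fun c d => t a b c d) k l) j) i =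
    R2 O (fun c d => R1 O (fun a => R1 O (fun b => t a b c d) j) i) k l
  simp only [R1_R2]

theorem rot3_R (O : Matrix (Fin 6) (Fin 6) ℝ) (u : T3) (a b c : Fin 6) :
    rot3 O u a b c = R1 O (fun i => R2 O (fun j k => u i j k) b c) a := by
  unfold rot3 R2 R1
  simp only [Finset.mul_sum, mul_assoc]

theorem rot4_R (O : Matrix (Fin 6) (Fin 6) ℝ) (K : T4) (a b c d : Fin 6) :
    rot4 O K a b c d = R2 O (fun i j => R2 O (fun k l => K i j k l) c d) a b := by
  unfold rot4 R2 R1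
  simp only [Finset.mul_sum, mul_assoc]

theorem ord4 (g : Fin 6 → Fin 6 → Fin 6 → Fin 6 → ℝ) :
    ∑ i, ∑ f, ∑ b, ∑ d, g i f b d = ∑ b, ∑ d, ∑ i, ∑ f, g i f b d := by
  have h1 : ∑ i, ∑ f, ∑ b, ∑ d, g i f b d =
      ∑ x : Fin 6 × Fin 6 × Fin 6 × Fin 6, g x.1 x.2.1 x.2.2.1 x.2.2.2 := by
    simp only [Fintype.sum_prod_type]
  have h2 : ∑ b, ∑ d, ∑ i, ∑ f, g i f b d =
      ∑ x : Fin 6 × Fin 6 × Fin 6 × Fin 6, g x.2.2.1 x.2.2.2 x.1 x.2.1 := by
    simp only [Fintype.sum_prod_type]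
  rw [h1, h2]
  exact Fintype.sum_equiv ⟨fun x => (x.2.2.1, x.2.2.2, x.1, x.2.1),
    fun x => (x.2.2.1, x.2.2.2, x.1, x.2.1), fun _ => rfl, fun _ => rfl⟩ _ _ (fun _ => rfl)

theorem ord5 (g : Fin 6 → Fin 6 → Fin 6 → Fin 6 → Fin 6 → ℝ) :
    ∑ i, ∑ j, ∑ k, ∑ f, ∑ c, g i j k f c = ∑ c, ∑ i, ∑ f, ∑ j, ∑ k, g i j k f c := by
  have h1 : ∑ i, ∑ j, ∑ k, ∑ f, ∑ c, g i j k f c =
      ∑ x : Fin 6 × Fin 6 × Fin 6 × Fin 6 × Fin 6, g x.1 x.2.1 x.2.2.1 x.2.2.2.1 x.2.2.2.2 := by
    simp only [Fintype.sum_prod_type]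
  have h2 : ∑ c, ∑ i, ∑ f, ∑ j, ∑ k, g i j k f c =
      ∑ x : Fin 6 × Fin 6 × Fin 6 × Fin 6 × Fin 6, g x.2.1 x.2.2.2.1 x.2.2.2.2 x.2.2.1 x.1 := by
    simp only [Fintype.sum_prod_type]
  rw [h1, h2]
  exact Fintype.sum_equiv ⟨fun x => (x.2.2.2.2, x.1, x.2.2.2.1, x.2.1, x.2.2.1),
    fun x => (x.2.1, x.2.2.2.1, x.2.2.2.2, x.2.2.1, x.1), fun _ => rfl, fun _ => rfl⟩ _ _
    (fun _ => rfl)

theorem T1_rot (O : Matrix (Fin 6) (Fin 6) ℝ) (hO : O * O.transpose = 1) (K : T4) (u : T3) :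
    ∑ i, ∑ j, ∑ f, rot4 O K i j i f * ∑ k, ∑ l, rot3 O u f k l * rot3 O u j k l =
    ∑ i, ∑ j, ∑ f, K i j i f * ∑ k, ∑ l, u f k l * u j k l := by
  have hG : ∀ f j, ∑ k, ∑ l, rot3 O u f k l * rot3 O u j k l =
      ∑ k, ∑ l, R1 O (fun a => u a k l) j * R1 O (fun a => u a k l) f := by
    intro f j
    simp only [rot3_R, R1_R2]
    rw [R2_c O hO]
    simp only [mul_comm]
  have hK : ∀ j f, ∑ i, rot4 O K i j i f = R2 O (fun b d => ∑ a, K a b a d) j f := by
    intro j f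
    have h1 : ∀ i, rot4 O K i j i f =
        R2 O (fun b d => R1 O (fun a => R1 O (fun c => K a b c d) i) i) j f := by
      intro i
      rw [rot4_R]
      show R1 O (fun a => R1 O (fun b => R1 O (fun c => R1 O (fun d => K a b c d) f) i) j) i = _
      simp only [← R1_R2]
      congr 1
      funext a
      show R1 O (fun b => R1 O (fun c => R1 O (fun d => K a b c d) f) i) j =
        R1 O (fun c => R1 O (fun b => R1 O (fun d => K a b c d) f) j) i
      rw [R1_comm O (fun b c => R1 O (fun d => K a b c d) f)]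
    simp only [h1]
    rw [← R2_sum]
    congr 1
    funext b d
    exact R1_tr O hO (fun a c => K a b c d)
  have e1 : ∑ i, ∑ j, ∑ f, rot4 O K i j i f * ∑ k, ∑ l, rot3 O u f k l * rot3 O u j k l =
      ∑ j, ∑ f, R2 O (fun b d => ∑ a, K a b a d) j f *
        ∑ k, ∑ l, R1 O (fun a => u a k l) j * R1 O (fun a => u a k l) f := by
    simp only [hG]
    rw [Finset.sum_comm]
    apply Finset.sum_congr rfl; intro j _
    rw [Finset.sum_comm]
    apply Finset.sum_congr rfl; intro f _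
    rw [← hK, Finset.sum_mul]
  have e2 : ∑ i, ∑ j, ∑ f, K i j i f * ∑ k, ∑ l, u f k l * u j k l =
      ∑ j, ∑ f, (∑ a, K a j a f) * ∑ k, ∑ l, u j k l * u f k l := by
    rw [Finset.sum_comm]
    apply Finset.sum_congr rfl; intro j _
    rw [Finset.sum_comm]
    apply Finset.sum_congr rfl; intro f _
    rw [Finset.sum_mul]
    simp only [mul_comm]
  rw [e1, e2]
  simp only [Finset.mul_sum]
  rw [ord4 (fun j f k l => R2 O (fun b d => ∑ a, K a b a d) j f *
    (R1 O (fun a => u a k l) j * R1 O (fun a => u a k l) f)),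
    ord4 (fun j f k l => (∑ a, K a j a f) * (u j k l * u f k l))]
  apply Finset.sum_congr rfl; intro k _
  apply Finset.sum_congr rfl; intro l _
  have h3 : ∀ j f, R1 O (fun a => u a k l) j * R1 O (fun a => u a k l) f =
      R2 O (fun a b => u a k l * u b k l) j f := by
    intro j f
    unfold R2
    simp only [R1_mull, R1_mulr]
  simp only [h3]
  exact R2_c O hO _ _

theorem T2_rot (O : Matrix (Fin 6) (Fin 6) ℝ) (hO : O * O.transpose = 1) (K : T4) (u : T3) :
    ∑ i, ∑ j, ∑ k, ∑ f, rot4 O K i j k f * ∑ l, rot3 O u i f l * rot3 O u j k l =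
    ∑ i, ∑ j, ∑ k, ∑ f, K i j k f * ∑ l, u i f l * u j k l := by
  have hu : ∀ i f l, rot3 O u i f l = R1 O (fun c => R2 O (fun a b => u a b c) i f) l := by
    intro i f l
    rw [rot3_R, R1_R2 O (fun c a b => u a b c)]
    unfold R2
    rfl
  have h1 : ∀ i j k f, ∑ l, rot3 O u i f l * rot3 O u j k l =
      ∑ c, R2 O (fun a b => u a b c) i f * R2 O (fun a b => u a b c) j k := by
    intro i j k f
    simp only [hu]
    exact R1_c O hO _ _
  have hK : ∀ i j k f, rot4 O K i j k f =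
      R2 O (fun b c => R2 O (fun a d => K a b c d) i f) j k := by
    intro i j k f
    rw [rot4_R]
    show R1 O (fun a => R1 O (fun b => R1 O (fun c => R1 O (fun d => K a b c d) f) k) j) i =
      R2 O (fun b c => R1 O (fun a => R1 O (fun d => K a b c d) f) i) j k
    rw [← R1_R2]
    rfl
  simp only [h1, Finset.mul_sum]
  rw [ord5 (fun i j k f c => rot4 O K i j k f *
      (R2 O (fun a b => u a b c) i f * R2 O (fun a b => u a b c) j k)),
    ord5 (fun i j k f c => K i j k f * (u i f c * u j k c))]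
  apply Finset.sum_congr rfl; intro c _
  have h4 : ∀ i f, ∑ j, ∑ k, rot4 O K i j k f *
      (R2 O (fun a b => u a b c) i f * R2 O (fun a b => u a b c) j k) =
      ∑ b, ∑ d, R2 O (fun a e => K a b d e) i f * R2 O (fun a b => u a b c) i f * u b d c := by
    intro i f
    have h5 := R2_c O hO (fun b d => R2 O (fun a e => K a b d e) i f) (fun a b => u a b c)
    simp only [← hK] at h5
    calc ∑ j, ∑ k, rot4 O K i j k f *
        (R2 O (fun a b => u a b c) i f * R2 O (fun a b => u a b c) j k)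
        = R2 O (fun a b => u a b c) i f *
          ∑ j, ∑ k, rot4 O K i j k f * R2 O (fun a b => u a b c) j k := by
          simp only [Finset.mul_sum, mul_left_comm]
      _ = R2 O (fun a b => u a b c) i f *
          ∑ b, ∑ d, R2 O (fun a e => K a b d e) i f * u b d c := by rw [h5]
      _ = _ := by
          simp only [Finset.mul_sum]
          apply Finset.sum_congr rfl; intro b _
          apply Finset.sum_congr rfl; intro d _
          ring
  simp only [h4]
  rw [ord4 (fun i f b d => R2 O (fun a e => K a b d e) i f * R2 O (fun a b => u a b c) i f * u b d c),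
    ord4 (fun i f b d => K i b d f * (u i f c * u b d c))]
  apply Finset.sum_congr rfl; intro b _
  apply Finset.sum_congr rfl; intro d _
  have h6 := R2_c O hO (fun a e => K a b d e) (fun a b => u a b c)
  have h7 : ∀ (X : Fin 6 → Fin 6 → ℝ) (r : ℝ), ∑ i, ∑ j, X i j * r = (∑ i, ∑ j, X i j) * r := by
    intro X r
    simp only [Finset.sum_mul]
  rw [h7, h6, ← h7]
  simp only [mul_assoc]

theorem T_rot (O : Matrix (Fin 6) (Fin 6) ℝ) (hO : O * O.transpose = 1) (K : T4) (u : T3) :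
    Tform (rot4 O K) (rot3 O u) = Tform K u := by
  unfold Tform
  rw [T1_rot O hO, T2_rot O hO]

end FPA
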