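import Pool.Agent.Helper427.FPA.Defs



namespace FPA



theorem cr_sum3 (f : Fin 6 → Fin 6 → Fin 6 → ℝ) :
    ∑ i, ∑ j, ∑ k, f j k i = ∑ j, ∑ k, ∑ i, f j k i := by
  refine (Finset.sum_comm).trans ?_
  exact Finset.sum_congr rfl fun j _ => Finset.sum_comm

theorem curv_rot (O : Matrix (Fin 6) (Fin 6) ℝ) (K : T4) (hK : CurvT K) : CurvT (rot4 O K) := by
  refine ⟨?_, ?_, ?_⟩
  · intro a b c d
    change (∑ i, ∑ j, ∑ k, ∑ l, O a i * O b j * O c k * O d l * K i j k l) =
      - ∑ i, ∑ j, ∑ k, ∑ l, O b i * O a j * O c k * O d l * K i j k l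
    refine (Finset.sum_comm).trans ?_
    simp only [← Finset.sum_neg_distrib]
    refine Finset.sum_congr rfl fun i _ => Finset.sum_congr rfl fun j _ =>
      Finset.sum_congr rfl fun k _ => Finset.sum_congr rfl fun l _ => ?_
    rw [hK.anti1 j i k l]
    ring
  · intro a b c d
    change (∑ i, ∑ j, ∑ k, ∑ l, O a i * O b j * O c k * O d l * K i j k l) =
      - ∑ i, ∑ j, ∑ k, ∑ l, O a i * O b j * O d k * O c l * K i j k l
    simp only [← Finset.sum_neg_distrib]
    refine Finset.sum_congr rfl fun i _ => Finset.sum_congr rfl fun j _ => ?_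
    refine (Finset.sum_comm).trans ?_
    refine Finset.sum_congr rfl fun k _ => Finset.sum_congr rfl fun l _ => ?_
    rw [hK.anti2 i j l k]
    ring
  · intro a b c d
    have h1 : rot4 O K b c a d =
        ∑ i, ∑ j, ∑ k, ∑ l, O b j * O c k * O a i * O d l * K j k i l := by
      change (∑ j, ∑ k, ∑ i, ∑ l, O b j * O c k * O a i * O d l * K j k i l) = _
      exact (cr_sum3 (fun j k i => ∑ l, O b j * O c k * O a i * O d l * K j k i l)).symm
    have h2 : rot4 O K c a b d =
        ∑ i, ∑ j, ∑ k, ∑ l, O c k * O a i * O b j * O d l * K k i j l := by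
      change (∑ k, ∑ i, ∑ j, ∑ l, O c k * O a i * O b j * O d l * K k i j l) = _
      exact cr_sum3 (fun i j k => ∑ l, O c k * O a i * O b j * O d l * K k i j l)
    have h0 : rot4 O K a b c d =
        ∑ i, ∑ j, ∑ k, ∑ l, O a i * O b j * O c k * O d l * K i j k l := rfl
    rw [h0, h1, h2, ← Finset.sum_add_distrib, ← Finset.sum_add_distrib]
    refine Finset.sum_eq_zero fun i _ => ?_
    rw [← Finset.sum_add_distrib, ← Finset.sum_add_distrib]
    refine Finset.sum_eq_zero fun j _ => ?_
    rw [← Finset.sum_add_distrib, ← Finset.sum_add_distrib]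
    refine Finset.sum_eq_zero fun k _ => ?_
    rw [← Finset.sum_add_distrib, ← Finset.sum_add_distrib]
    refine Finset.sum_eq_zero fun l _ => ?_
    have hb := hK.bianchi i j k l
    calc O a i * O b j * O c k * O d l * K i j k l + O b j * O c k * O a i * O d l * K j k i l +
          O c k * O a i * O b j * O d l * K k i j l
        = O a i * O b j * O c k * O d l * (K i j k l + K j k i l + K k i j l) := by ring
      _ = 0 := by rw [hb, mul_zero]

end FPA
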