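import Pool.Agent.Helper427.FPA.Defs



namespace FPA



theorem swap44 (f : Fin 6 → Fin 6 → Fin 6 → Fin 6 → Fin 6 → Fin 6 → Fin 6 → Fin 6 → ℝ) :
    ∑ a, ∑ b, ∑ c, ∑ d, ∑ i, ∑ j, ∑ k, ∑ l, f a b c d i j k l
      = ∑ i, ∑ j, ∑ k, ∑ l, ∑ a, ∑ b, ∑ c, ∑ d, f a b c d i j k l := by
  have h := Finset.sum_comm (s := (Finset.univ : Finset (Fin 6 × Fin 6 × Fin 6 × Fin 6)))
    (t := (Finset.univ : Finset (Fin 6 × Fin 6 × Fin 6 × Fin 6)))
    (f := fun p q => f p.1 p.2.1 p.2.2.1 p.2.2.2 q.1 q.2.1 q.2.2.1 q.2.2.2)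
  simpa only [Fintype.sum_prod_type] using h

theorem Kq_rot (O : Matrix (Fin 6) (Fin 6) ℝ) (K : T4) (ξ η : T2) :
    Kq (rot4 O K) ξ η = Kq K (rot2 O.transpose ξ) (rot2 O.transpose η) := by
  unfold Kq rot4 rot2
  congr 1
  simp only [Matrix.transpose_apply]
  have h1 : ∀ a b c d, (∑ i, ∑ j, ∑ k, ∑ l, O a i * O b j * O c k * O d l * K i j k l)
      * ξ a b * η c d = ∑ i, ∑ j, ∑ k, ∑ l,
        K i j k l * (O a i * O b j * ξ a b) * (O c k * O d l * η c d) := by
    intro a b c d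
    simp only [Finset.sum_mul]
    refine Finset.sum_congr rfl fun i _ => Finset.sum_congr rfl fun j _ =>
      Finset.sum_congr rfl fun k _ => Finset.sum_congr rfl fun l _ => ?_
    ring
  have h2 : ∀ i j k l, K i j k l * (∑ a, ∑ b, O a i * O b j * ξ a b)
      * (∑ c, ∑ d, O c k * O d l * η c d) = ∑ a, ∑ b, ∑ c, ∑ d,
        K i j k l * (O a i * O b j * ξ a b) * (O c k * O d l * η c d) := by
    intro i j k l
    have e1 : K i j k l * (∑ a, ∑ b, O a i * O b j * ξ a b)
        = ∑ a, ∑ b, K i j k l * (O a i * O b j * ξ a b) := by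
      simp only [Finset.mul_sum]
    rw [e1, Finset.sum_mul]
    refine Finset.sum_congr rfl fun a _ => ?_
    rw [Finset.sum_mul]
    refine Finset.sum_congr rfl fun b _ => ?_
    rw [Finset.mul_sum]
    refine Finset.sum_congr rfl fun c _ => ?_
    rw [Finset.mul_sum]
  simp only [h1, h2]
  exact swap44 (fun a b c d i j k l =>
    K i j k l * (O a i * O b j * ξ a b) * (O c k * O d l * η c d))

theorem rot2_mat (P : Matrix (Fin 6) (Fin 6) ℝ) (ξ : T2) :
    (Matrix.of (rot2 P ξ) : Matrix (Fin 6) (Fin 6) ℝ) = P * Matrix.of ξ * P.transpose := by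
  ext a b
  simp only [Matrix.of_apply, rot2, Matrix.mul_apply, Matrix.transpose_apply, Finset.sum_mul]
  rw [Finset.sum_comm]
  refine Finset.sum_congr rfl fun j _ => Finset.sum_congr rfl fun i _ => ?_
  ring

theorem ip2_trace (ξ η : T2) :
    ip2 ξ η = (1/2) * Matrix.trace ((Matrix.of ξ : Matrix (Fin 6) (Fin 6) ℝ)
      * (Matrix.of η : Matrix (Fin 6) (Fin 6) ℝ).transpose) := by
  simp only [ip2, Matrix.trace, Matrix.diag_apply, Matrix.mul_apply, Matrix.transpose_apply,
    Matrix.of_apply]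

theorem ip2_rot (O : Matrix (Fin 6) (Fin 6) ℝ) (hO : O * O.transpose = 1) (ξ η : T2) :
    ip2 (rot2 O.transpose ξ) (rot2 O.transpose η) = ip2 ξ η := by
  rw [ip2_trace, ip2_trace, rot2_mat, rot2_mat]
  congr 1
  simp only [Matrix.transpose_mul, Matrix.transpose_transpose]
  have e : O.transpose * Matrix.of ξ * O * (O.transpose * ((Matrix.of η).transpose * O))
      = O.transpose * (Matrix.of ξ * (O * O.transpose) * (Matrix.of η).transpose * O) := by
    simp only [Matrix.mul_assoc]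
  rw [e, hO, Matrix.mul_one, Matrix.trace_mul_comm, Matrix.mul_assoc, hO, Matrix.mul_one]

theorem fourpos_rot (O : Matrix (Fin 6) (Fin 6) ℝ) (hO : O * O.transpose = 1) (K : T4)
    (hK : FourPos K) : FourPos (rot4 O K) := by
  intro ξ hanti hon
  have h := hK (fun k => rot2 O.transpose (ξ k)) ?_ ?_
  · simpa only [Kq_rot] using h
  · intro k a b
    simp only [rot2]
    rw [← Finset.sum_neg_distrib, Finset.sum_comm]
    refine Finset.sum_congr rfl fun i _ => ?_
    rw [← Finset.sum_neg_distrib]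
    refine Finset.sum_congr rfl fun j _ => ?_
    rw [hanti k j i]
    ring
  · intro k l
    rw [ip2_rot O hO]
    exact hon k l

end FPA
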