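import Pool.Agent.Helper427.FPA.Defs



namespace FPA



theorem orth_entry (O : Matrix (Fin 6) (Fin 6) ℝ) (hO : O * O.transpose = 1) (a b : Fin 6) :
    |O a b| ≤ 1 := by
  have h1 : ∑ j, O a j * O a j = 1 := by
    have := congrFun (congrFun hO a) a
    rw [Matrix.mul_apply, Matrix.one_apply_eq] at this
    exact this
  have h2 : O a b * O a b ≤ 1 := by
    rw [← h1]
    exact Finset.single_le_sum (f := fun j => O a j * O a j) (fun j _ => mul_self_nonneg _)
      (Finset.mem_univ b)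
  rw [← abs_one, ← sq_le_sq]; nlinarith

theorem isCompact_orth : IsCompact {O : Matrix (Fin 6) (Fin 6) ℝ | O * O.transpose = 1} := by
  have hbox : IsCompact (Set.pi Set.univ (fun _ : Fin 6 =>
      Set.pi Set.univ (fun _ : Fin 6 => Set.Icc (-1 : ℝ) 1)) : Set (Fin 6 → Fin 6 → ℝ)) :=
    isCompact_univ_pi fun _ => isCompact_univ_pi fun _ => isCompact_Icc
  have hclosed : IsClosed {O : Matrix (Fin 6) (Fin 6) ℝ | O * O.transpose = 1} := by
    apply isClosed_eq
    · exact continuous_id.matrix_mul continuous_id.matrix_transpose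
    · exact continuous_const
  exact IsCompact.of_isClosed_subset (s := (Set.pi Set.univ (fun _ : Fin 6 =>
      Set.pi Set.univ (fun _ : Fin 6 => Set.Icc (-1 : ℝ) 1)) : Set (Fin 6 → Fin 6 → ℝ))) hbox
      hclosed (fun O hO a _ b _ => abs_le.1 (orth_entry O hO a b))

theorem cont_rot3 (u : T3) : Continuous fun O : Matrix (Fin 6) (Fin 6) ℝ => rot3 O u := by
  have h : ∀ a b : Fin 6, Continuous fun O : Matrix (Fin 6) (Fin 6) ℝ => O a b := fun a b =>
    continuous_id.matrix_elem a b
  refine continuous_pi fun a => continuous_pi fun b => continuous_pi fun c => ?_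
  refine continuous_finsetSum _ fun i _ => continuous_finsetSum _ fun j _ =>
    continuous_finsetSum _ fun k _ => ?_
  exact (((h a i).mul (h b j)).mul (h c k)).mul continuous_const

theorem cont_st (st : T3 → T3) (hst : StarLike st) : Continuous st := by
  let L : T3 →ₗ[ℝ] T3 := { toFun := st, map_add' := hst.add, map_smul' := hst.smul }
  exact L.continuous_of_finiteDimensional

/-- Compactness of the orthogonal group times the circle; `w` is a linear functional. -/
theorem maximizer (st : T3 → T3) (hst : StarLike st) (u : T3) :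
    ∃ (O : Matrix (Fin 6) (Fin 6) ℝ) (θ : ℝ), O * O.transpose = 1 ∧
      ∀ (O' : Matrix (Fin 6) (Fin 6) ℝ) (θ' : ℝ), O' * O'.transpose = 1 →
        let v := Real.cos θ • rot3 O u + Real.sin θ • st (rot3 O u)
        let v' := Real.cos θ' • rot3 O' u + Real.sin θ' • st (rot3 O' u)
        10 * v' 0 1 2 + 3 * v' 0 4 5 + 2 * v' 3 1 5 + v' 3 4 2
          ≤ 10 * v 0 1 2 + 3 * v 0 4 5 + 2 * v 3 1 5 + v 3 4 2 := by
  set Fv : Matrix (Fin 6) (Fin 6) ℝ × ℝ → T3 := fun q =>
    Real.cos q.2 • rot3 q.1 u + Real.sin q.2 • st (rot3 q.1 u) with hFv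
  have hFc : Continuous Fv := by
    have h1 : Continuous fun q : Matrix (Fin 6) (Fin 6) ℝ × ℝ => rot3 q.1 u :=
      (cont_rot3 u).comp continuous_fst
    have h2 : Continuous fun q : Matrix (Fin 6) (Fin 6) ℝ × ℝ => st (rot3 q.1 u) :=
      (cont_st st hst).comp h1
    exact ((Real.continuous_cos.comp continuous_snd).smul h1).add
      ((Real.continuous_sin.comp continuous_snd).smul h2)
  have hc : ∀ a b c : Fin 6, Continuous fun q => Fv q a b c := fun a b c =>
    (continuous_apply c).comp ((continuous_apply b).comp ((continuous_apply a).comp hFc))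
  set W : Matrix (Fin 6) (Fin 6) ℝ × ℝ → ℝ := fun q =>
    10 * Fv q 0 1 2 + 3 * Fv q 0 4 5 + 2 * Fv q 3 1 5 + Fv q 3 4 2 with hW
  have hWc : Continuous W :=
    (((continuous_const.mul (hc 0 1 2)).add (continuous_const.mul (hc 0 4 5))).add
      (continuous_const.mul (hc 3 1 5))).add (hc 3 4 2)
  have hK : IsCompact ({O : Matrix (Fin 6) (Fin 6) ℝ | O * O.transpose = 1} ×ˢ
      Set.Icc (-Real.pi) Real.pi) := isCompact_orth.prod isCompact_Icc
  have hne : ({O : Matrix (Fin 6) (Fin 6) ℝ | O * O.transpose = 1} ×ˢ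
      Set.Icc (-Real.pi) Real.pi).Nonempty := by
    refine ⟨(1, 0), ?_, ?_⟩
    · show (1 : Matrix (Fin 6) (Fin 6) ℝ) * (1 : Matrix (Fin 6) (Fin 6) ℝ).transpose = 1
      rw [Matrix.transpose_one, Matrix.one_mul]
    · exact ⟨by linarith [Real.pi_pos], Real.pi_pos.le⟩
  obtain ⟨⟨O, θ⟩, ⟨hO, hθ⟩, hmax⟩ := hK.exists_isMaxOn hne hWc.continuousOn
  refine ⟨O, θ, hO, fun O' θ' hO' => ?_⟩
  have hmem : ((O', (θ' : Real.Angle).toReal) : Matrix (Fin 6) (Fin 6) ℝ × ℝ) ∈
      ({O : Matrix (Fin 6) (Fin 6) ℝ | O * O.transpose = 1} ×ˢ Set.Icc (-Real.pi) Real.pi) := by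
    refine ⟨hO', ?_⟩
    have := Real.Angle.toReal_mem_Ioc (θ' : Real.Angle)
    exact ⟨this.1.le, this.2⟩
  have h := hmax hmem
  have h' : W (O', (θ' : Real.Angle).toReal) ≤ W (O, θ) := h
  simp only [hW, hFv, Real.Angle.cos_toReal, Real.Angle.sin_toReal, Real.Angle.cos_coe,
    Real.Angle.sin_coe] at h'
  exact h'

end FPA
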