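import Pool.Agent.Helper427.FPA.Defs



namespace FPA



theorem rot3_alt (O : Matrix (Fin 6) (Fin 6) ℝ) (u : T3) (hu : Alt3 u) : Alt3 (rot3 O u) := by
  constructor
  · intro a b c
    unfold rot3
    rw [Finset.sum_comm]
    simp only [← Finset.sum_neg_distrib]
    refine Finset.sum_congr rfl fun i _ => Finset.sum_congr rfl fun j _ =>
      Finset.sum_congr rfl fun k _ => ?_
    rw [hu.1 j i k]
    ring
  · intro a b c
    unfold rot3
    simp only [← Finset.sum_neg_distrib]
    refine Finset.sum_congr rfl fun i _ => ?_
    rw [Finset.sum_comm]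
    refine Finset.sum_congr rfl fun j _ =>
      Finset.sum_congr rfl fun k _ => ?_
    rw [hu.2 i k j]
    ring

end FPA
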