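import Pool.Agent.Helper427.FPA.Defs



namespace FPA



theorem rot3_mul (O P : Matrix (Fin 6) (Fin 6) ℝ) (u : T3) :
    rot3 (O * P) u = rot3 O (rot3 P u) := by
  have L : ∀ (f : Fin 6 → Fin 6 → Fin 6 → ℝ),
      ∑ i, ∑ j, ∑ k, f i j k = ∑ p : Fin 6 × Fin 6 × Fin 6, f p.1 p.2.1 p.2.2 := by
    intro f
    rw [Fintype.sum_prod_type]
    refine Finset.sum_congr rfl (fun i _ => ?_)
    rw [Fintype.sum_prod_type]
  have M : ∀ (A B C : Fin 6 → ℝ), (∑ i, A i) * (∑ j, B j) * (∑ k, C k)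
      = ∑ i, ∑ j, ∑ k, A i * B j * C k := by
    intro A B C
    rw [Finset.sum_mul_sum, Finset.sum_mul]
    refine Finset.sum_congr rfl (fun i _ => ?_)
    rw [Finset.sum_mul_sum]
  funext a b c
  unfold rot3
  simp only [Matrix.mul_apply, M]
  rw [L, L]
  simp only [L]
  simp only [Finset.sum_mul, Finset.mul_sum]
  rw [Finset.sum_comm]
  refine Finset.sum_congr rfl (fun p _ => Finset.sum_congr rfl (fun q _ => ?_))
  ring

end FPA
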