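import Pool.Agent.Helper427.FPA.Defs



namespace FPA



theorem rd_sumδ (i : Fin 6) (f : Fin 6 → ℝ) :
    ∑ l, (1 : Matrix (Fin 6) (Fin 6) ℝ) i l * f l = f i := by
  simp [Matrix.one_apply]

/-- the generator -/
noncomputable def rdJ (a b : Fin 6) : Matrix (Fin 6) (Fin 6) ℝ :=
  Matrix.single a b 1 - Matrix.single b a 1

noncomputable def rdE (a b : Fin 6) : Matrix (Fin 6) (Fin 6) ℝ :=
  Matrix.single a a 1 + Matrix.single b b 1

theorem rd_sumJ (a b i : Fin 6) (f : Fin 6 → ℝ) :
    ∑ l, rdJ a b i l * f l = (if i = a then f b else 0) - (if i = b then f a else 0) := by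
  have h1 : ∀ l, rdJ a b i l * f l =
      (if b = l then (if i = a then f l else 0) else 0) -
        (if a = l then (if i = b then f l else 0) else 0) := by
    intro l
    unfold rdJ
    rw [Matrix.sub_apply, Matrix.single_apply, Matrix.single_apply]
    by_cases h1 : i = a <;> by_cases h2 : i = b <;> by_cases h3 : b = l <;>
      by_cases h4 : a = l <;> simp [h1, h2, h3, h4, eq_comm] <;> aesop
  rw [Finset.sum_congr rfl (fun l _ => h1 l), Finset.sum_sub_distrib, Finset.sum_ite_eq,
    Finset.sum_ite_eq]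
  simp

noncomputable def rdP (a b : Fin 6) (t : ℝ) : Matrix (Fin 6) (Fin 6) ℝ :=
  1 + (Real.cos t - 1) • rdE a b + Real.sin t • rdJ a b

theorem rd_orth (a b : Fin 6) (hab : a ≠ b) (t : ℝ) : rdP a b t * (rdP a b t).transpose = 1 := by
  have hT : (rdP a b t).transpose =
      1 + (Real.cos t - 1) • rdE a b - Real.sin t • rdJ a b := by
    unfold rdP rdE rdJ
    simp only [Matrix.transpose_add, Matrix.transpose_smul, Matrix.transpose_sub,
      Matrix.transpose_one, Matrix.transpose_single]
    module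
  have hEE : rdE a b * rdE a b = rdE a b := by
    unfold rdE
    rw [mul_add, add_mul, add_mul, Matrix.single_mul_single_same, Matrix.single_mul_single_same,
      Matrix.single_mul_single_of_ne _ _ _ _ hab.symm,
      Matrix.single_mul_single_of_ne _ _ _ _ hab]
    simp
  have hEJ : rdE a b * rdJ a b = rdJ a b := by
    unfold rdE rdJ
    rw [mul_sub, add_mul, add_mul, Matrix.single_mul_single_same, Matrix.single_mul_single_same,
      Matrix.single_mul_single_of_ne _ _ _ _ hab.symm,
      Matrix.single_mul_single_of_ne _ _ _ _ hab]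
    simp
  have hJE : rdJ a b * rdE a b = rdJ a b := by
    unfold rdE rdJ
    rw [mul_add, sub_mul, sub_mul, Matrix.single_mul_single_same, Matrix.single_mul_single_same,
      Matrix.single_mul_single_of_ne _ _ _ _ hab.symm,
      Matrix.single_mul_single_of_ne _ _ _ _ hab]
    simp [sub_eq_neg_add]
  have hJJ : rdJ a b * rdJ a b = - rdE a b := by
    unfold rdE rdJ
    rw [mul_sub, sub_mul, sub_mul, Matrix.single_mul_single_same, Matrix.single_mul_single_same,
      Matrix.single_mul_single_of_ne _ _ _ _ hab.symm,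
      Matrix.single_mul_single_of_ne _ _ _ _ hab]
    simp
    abel
  rw [hT]
  unfold rdP
  have hcs := Real.sin_sq_add_cos_sq t
  generalize rdE a b = E at *
  generalize rdJ a b = J at *
  have h1 : (1 + (Real.cos t - 1) • E + Real.sin t • J) *
      (1 + (Real.cos t - 1) • E - Real.sin t • J) =
      1 + (Real.cos t - 1) • E + (Real.cos t - 1) • E
        + (Real.cos t - 1) • (Real.cos t - 1) • (E * E)
        - Real.sin t • J + Real.sin t • J
        - (Real.cos t - 1) • Real.sin t • (E * J)
        + (Real.cos t - 1) • Real.sin t • (J * E)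
        - Real.sin t • Real.sin t • (J * J) := by
    simp only [mul_add, add_mul, mul_sub, sub_mul, smul_mul_assoc, mul_smul_comm, mul_one, one_mul,
      smul_add, smul_sub, smul_smul]
    module
  rw [h1, hEE, hEJ, hJE, hJJ]
  have h2 : (1 : Matrix (Fin 6) (Fin 6) ℝ) + (Real.cos t - 1) • E + (Real.cos t - 1) • E
        + (Real.cos t - 1) • (Real.cos t - 1) • E
        - Real.sin t • J + Real.sin t • J
        - (Real.cos t - 1) • Real.sin t • J
        + (Real.cos t - 1) • Real.sin t • J
        - Real.sin t • Real.sin t • (-E) =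
        1 + (Real.sin t ^ 2 + Real.cos t ^ 2 - 1) • E := by
    module
  rw [h2, hcs]
  simp

theorem rd_deriv (a b i j : Fin 6) : HasDerivAt (fun t => rdP a b t i j) (rdJ a b i j) 0 := by
  have h : (fun t => rdP a b t i j) = fun t => (1 : Matrix (Fin 6) (Fin 6) ℝ) i j +
      (Real.cos t - 1) * rdE a b i j + Real.sin t * rdJ a b i j := by
    funext t
    simp [rdP]
  rw [h]
  have h1 := (((Real.hasDerivAt_cos 0).sub_const 1).mul_const (rdE a b i j)).const_add
    ((1 : Matrix (Fin 6) (Fin 6) ℝ) i j)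
  have h2 := (Real.hasDerivAt_sin 0).mul_const (rdJ a b i j)
  have h3 := h1.add h2
  simp only [Real.sin_zero, Real.cos_zero, neg_zero, zero_mul, zero_add, one_mul] at h3
  exact h3

theorem rd_P0 (a b : Fin 6) : rdP a b 0 = 1 := by
  simp [rdP]

/-- Infinitesimal rotations: for every coordinate plane there is a one-parameter family of
orthogonal matrices through `1` whose derivative on 3-tensors is `S a b`. -/
theorem rot_deriv (a b : Fin 6) :
    ∃ P : ℝ → Matrix (Fin 6) (Fin 6) ℝ, P 0 = 1 ∧ (∀ t, P t * (P t).transpose = 1) ∧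
      ∀ (u : T3) (i j k : Fin 6), HasDerivAt (fun t => rot3 (P t) u i j k) (S a b u i j k) 0 := by
  by_cases hab : a = b
  · subst hab
    refine ⟨fun _ => 1, rfl, fun t => by simp, fun u i j k => ?_⟩
    have : S a a u i j k = 0 := by
      unfold S
      ring
    rw [this]
    exact hasDerivAt_const _ _
  · refine ⟨rdP a b, rd_P0 a b, rd_orth a b hab, fun u i j k => ?_⟩
    have h1 : ∀ l m n : Fin 6, HasDerivAt
        (fun t => rdP a b t i l * rdP a b t j m * rdP a b t k n * u l m n)
        (((rdJ a b i l * (1 : Matrix (Fin 6) (Fin 6) ℝ) j m +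
          (1 : Matrix (Fin 6) (Fin 6) ℝ) i l * rdJ a b j m) *
            (1 : Matrix (Fin 6) (Fin 6) ℝ) k n +
          (1 : Matrix (Fin 6) (Fin 6) ℝ) i l * (1 : Matrix (Fin 6) (Fin 6) ℝ) j m *
            rdJ a b k n) * u l m n) 0 := by
      intro l m n
      have h := (((rd_deriv a b i l).mul (rd_deriv a b j m)).mul (rd_deriv a b k n)).mul_const
        (u l m n)
      simp only [Pi.mul_apply, rd_P0] at h
      exact h
    have h2 : HasDerivAt (fun t => ∑ l, ∑ m, ∑ n,
        rdP a b t i l * rdP a b t j m * rdP a b t k n * u l m n)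
        (∑ l, ∑ m, ∑ n, ((rdJ a b i l * (1 : Matrix (Fin 6) (Fin 6) ℝ) j m +
          (1 : Matrix (Fin 6) (Fin 6) ℝ) i l * rdJ a b j m) *
            (1 : Matrix (Fin 6) (Fin 6) ℝ) k n +
          (1 : Matrix (Fin 6) (Fin 6) ℝ) i l * (1 : Matrix (Fin 6) (Fin 6) ℝ) j m *
            rdJ a b k n) * u l m n) 0 :=
      HasDerivAt.fun_sum fun l _ => HasDerivAt.fun_sum fun m _ => HasDerivAt.fun_sum fun n _ =>
        h1 l m n
    have h3 : (∑ l, ∑ m, ∑ n, ((rdJ a b i l * (1 : Matrix (Fin 6) (Fin 6) ℝ) j m +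
          (1 : Matrix (Fin 6) (Fin 6) ℝ) i l * rdJ a b j m) *
            (1 : Matrix (Fin 6) (Fin 6) ℝ) k n +
          (1 : Matrix (Fin 6) (Fin 6) ℝ) i l * (1 : Matrix (Fin 6) (Fin 6) ℝ) j m *
            rdJ a b k n) * u l m n) = S a b u i j k := by
      have h4 : ∀ l m n : Fin 6, ((rdJ a b i l * (1 : Matrix (Fin 6) (Fin 6) ℝ) j m +
          (1 : Matrix (Fin 6) (Fin 6) ℝ) i l * rdJ a b j m) *
            (1 : Matrix (Fin 6) (Fin 6) ℝ) k n +
          (1 : Matrix (Fin 6) (Fin 6) ℝ) i l * (1 : Matrix (Fin 6) (Fin 6) ℝ) j m *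
            rdJ a b k n) * u l m n =
          rdJ a b i l * ((1 : Matrix (Fin 6) (Fin 6) ℝ) j m *
            ((1 : Matrix (Fin 6) (Fin 6) ℝ) k n * u l m n)) +
          (1 : Matrix (Fin 6) (Fin 6) ℝ) i l * (rdJ a b j m *
            ((1 : Matrix (Fin 6) (Fin 6) ℝ) k n * u l m n)) +
          (1 : Matrix (Fin 6) (Fin 6) ℝ) i l * ((1 : Matrix (Fin 6) (Fin 6) ℝ) j m *
            (rdJ a b k n * u l m n)) := by
        intro l m n
        ring
      simp only [h4, Finset.sum_add_distrib, ← Finset.mul_sum, rd_sumδ, rd_sumJ]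
      unfold S
      ring
    rw [← h3]
    exact h2

end FPA
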