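import Pool.Agent.Helper427.FPA.Defs



namespace FPA



theorem soc_r002 (v : T3) (hv : Alt3 v) : v 0 0 2 = 0 := by linarith [hv.1 0 0 2]
theorem soc_r005 (v : T3) (hv : Alt3 v) : v 0 0 5 = 0 := by linarith [hv.1 0 0 5]
theorem soc_r010 (v : T3) (hv : Alt3 v) : v 0 1 0 = 0 := by linarith [hv.1 0 1 0, hv.2 1 0 0]
theorem soc_r011 (v : T3) (hv : Alt3 v) : v 0 1 1 = 0 := by linarith [hv.2 0 1 1]
theorem soc_r022 (v : T3) (hv : Alt3 v) : v 0 2 2 = 0 := by linarith [hv.2 0 2 2]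
theorem soc_r032 (v : T3) (hv : Alt3 v) : v 0 3 2 = -v 0 2 3 := by linarith [hv.2 0 3 2]
theorem soc_r040 (v : T3) (hv : Alt3 v) : v 0 4 0 = 0 := by linarith [hv.1 0 4 0, hv.2 4 0 0]
theorem soc_r041 (v : T3) (hv : Alt3 v) : v 0 4 1 = -v 0 1 4 := by linarith [hv.2 0 4 1]
theorem soc_r042 (v : T3) (hv : Alt3 v) : v 0 4 2 = -v 0 2 4 := by linarith [hv.2 0 4 2]
theorem soc_r043 (v : T3) (hv : Alt3 v) : v 0 4 3 = -v 0 3 4 := by linarith [hv.2 0 4 3]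
theorem soc_r044 (v : T3) (hv : Alt3 v) : v 0 4 4 = 0 := by linarith [hv.2 0 4 4]
theorem soc_r052 (v : T3) (hv : Alt3 v) : v 0 5 2 = -v 0 2 5 := by linarith [hv.2 0 5 2]
theorem soc_r055 (v : T3) (hv : Alt3 v) : v 0 5 5 = 0 := by linarith [hv.2 0 5 5]
theorem soc_r112 (v : T3) (hv : Alt3 v) : v 1 1 2 = 0 := by linarith [hv.1 1 1 2]
theorem soc_r115 (v : T3) (hv : Alt3 v) : v 1 1 5 = 0 := by linarith [hv.1 1 1 5]
theorem soc_r142 (v : T3) (hv : Alt3 v) : v 1 4 2 = -v 1 2 4 := by linarith [hv.2 1 4 2]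
theorem soc_r212 (v : T3) (hv : Alt3 v) : v 2 1 2 = 0 := by linarith [hv.1 2 1 2, hv.2 1 2 2]
theorem soc_r215 (v : T3) (hv : Alt3 v) : v 2 1 5 = -v 1 2 5 := by linarith [hv.1 2 1 5]
theorem soc_r242 (v : T3) (hv : Alt3 v) : v 2 4 2 = 0 := by linarith [hv.1 2 4 2, hv.2 4 2 2]
theorem soc_r302 (v : T3) (hv : Alt3 v) : v 3 0 2 = v 0 2 3 := by linarith [hv.1 3 0 2, hv.2 0 3 2]
theorem soc_r305 (v : T3) (hv : Alt3 v) : v 3 0 5 = -v 0 3 5 := by linarith [hv.1 3 0 5]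
theorem soc_r310 (v : T3) (hv : Alt3 v) : v 3 1 0 = -v 0 1 3 := by linarith [hv.1 3 1 0, hv.2 1 3 0, hv.1 1 0 3]
theorem soc_r311 (v : T3) (hv : Alt3 v) : v 3 1 1 = 0 := by linarith [hv.2 3 1 1]
theorem soc_r312 (v : T3) (hv : Alt3 v) : v 3 1 2 = v 1 2 3 := by linarith [hv.1 3 1 2, hv.2 1 3 2]
theorem soc_r313 (v : T3) (hv : Alt3 v) : v 3 1 3 = 0 := by linarith [hv.1 3 1 3, hv.2 1 3 3]
theorem soc_r314 (v : T3) (hv : Alt3 v) : v 3 1 4 = -v 1 3 4 := by linarith [hv.1 3 1 4]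
theorem soc_r322 (v : T3) (hv : Alt3 v) : v 3 2 2 = 0 := by linarith [hv.2 3 2 2]
theorem soc_r325 (v : T3) (hv : Alt3 v) : v 3 2 5 = -v 2 3 5 := by linarith [hv.1 3 2 5]
theorem soc_r332 (v : T3) (hv : Alt3 v) : v 3 3 2 = 0 := by linarith [hv.1 3 3 2]
theorem soc_r335 (v : T3) (hv : Alt3 v) : v 3 3 5 = 0 := by linarith [hv.1 3 3 5]
theorem soc_r340 (v : T3) (hv : Alt3 v) : v 3 4 0 = v 0 3 4 := by linarith [hv.2 3 4 0, hv.1 3 0 4]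
theorem soc_r341 (v : T3) (hv : Alt3 v) : v 3 4 1 = v 1 3 4 := by linarith [hv.2 3 4 1, hv.1 3 1 4]
theorem soc_r343 (v : T3) (hv : Alt3 v) : v 3 4 3 = 0 := by linarith [hv.1 3 4 3, hv.2 4 3 3]
theorem soc_r344 (v : T3) (hv : Alt3 v) : v 3 4 4 = 0 := by linarith [hv.2 3 4 4]
theorem soc_r352 (v : T3) (hv : Alt3 v) : v 3 5 2 = v 2 3 5 := by linarith [hv.2 3 5 2, hv.1 3 2 5]
theorem soc_r355 (v : T3) (hv : Alt3 v) : v 3 5 5 = 0 := by linarith [hv.2 3 5 5]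
theorem soc_r412 (v : T3) (hv : Alt3 v) : v 4 1 2 = v 1 2 4 := by linarith [hv.1 4 1 2, hv.2 1 4 2]
theorem soc_r415 (v : T3) (hv : Alt3 v) : v 4 1 5 = -v 1 4 5 := by linarith [hv.1 4 1 5]
theorem soc_r442 (v : T3) (hv : Alt3 v) : v 4 4 2 = 0 := by linarith [hv.1 4 4 2]
theorem soc_r445 (v : T3) (hv : Alt3 v) : v 4 4 5 = 0 := by linarith [hv.1 4 4 5]
theorem soc_r512 (v : T3) (hv : Alt3 v) : v 5 1 2 = v 1 2 5 := by linarith [hv.1 5 1 2, hv.2 1 5 2]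
theorem soc_r515 (v : T3) (hv : Alt3 v) : v 5 1 5 = 0 := by linarith [hv.1 5 1 5, hv.2 1 5 5]
theorem soc_r542 (v : T3) (hv : Alt3 v) : v 5 4 2 = -v 2 4 5 := by linarith [hv.1 5 4 2, hv.2 4 5 2, hv.1 4 2 5]
theorem soc_r545 (v : T3) (hv : Alt3 v) : v 5 4 5 = 0 := by linarith [hv.1 5 4 5, hv.2 4 5 5]
theorem soc_e01 (v : T3) (hv : Alt3 v)
    (h : 10 * S 0 1 v 0 1 2 + 3 * S 0 1 v 0 4 5 + 2 * S 0 1 v 3 1 5 + S 0 1 v 3 4 2 = 0) :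
    (2) * v 0 3 5 + (3) * v 1 4 5 = 0 := by
  simp [S, soc_r112 v hv, soc_r002 v hv, soc_r305 v hv] at h
  linarith
theorem soc_e02 (v : T3) (hv : Alt3 v)
    (h : 10 * S 0 2 v 0 1 2 + 3 * S 0 2 v 0 4 5 + 2 * S 0 2 v 3 1 5 + S 0 2 v 3 4 2 = 0) :
    (-1) * v 0 3 4 + (3) * v 2 4 5 = 0 := by
  simp [S, soc_r212 v hv, soc_r010 v hv, soc_r340 v hv] at h
  linarith
theorem soc_e03 (v : T3) (hv : Alt3 v)
    (h : 10 * S 0 3 v 0 1 2 + 3 * S 0 3 v 0 4 5 + 2 * S 0 3 v 3 1 5 + S 0 3 v 3 4 2 = 0) :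
    (-2) * v 0 1 5 + (1) * v 0 2 4 + (10) * v 1 2 3 + (3) * v 3 4 5 = 0 := by
  simp [S, soc_r312 v hv, soc_r042 v hv] at h
  linarith
theorem soc_e04 (v : T3) (hv : Alt3 v)
    (h : 10 * S 0 4 v 0 1 2 + 3 * S 0 4 v 0 4 5 + 2 * S 0 4 v 3 1 5 + S 0 4 v 3 4 2 = 0) :
    (-1) * v 0 2 3 + (10) * v 1 2 4 = 0 := by
  simp [S, soc_r412 v hv, soc_r445 v hv, soc_r005 v hv, soc_r302 v hv] at h
  linarith
theorem soc_e05 (v : T3) (hv : Alt3 v)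
    (h : 10 * S 0 5 v 0 1 2 + 3 * S 0 5 v 0 4 5 + 2 * S 0 5 v 3 1 5 + S 0 5 v 3 4 2 = 0) :
    (2) * v 0 1 3 + (10) * v 1 2 5 = 0 := by
  simp [S, soc_r512 v hv, soc_r545 v hv, soc_r040 v hv, soc_r310 v hv] at h
  linarith
theorem soc_e12 (v : T3) (hv : Alt3 v)
    (h : 10 * S 1 2 v 0 1 2 + 3 * S 1 2 v 0 4 5 + 2 * S 1 2 v 3 1 5 + S 1 2 v 3 4 2 = 0) :
    (-1) * v 1 3 4 + (-2) * v 2 3 5 = 0 := by
  simp [S, soc_r022 v hv, soc_r011 v hv, soc_r325 v hv, soc_r341 v hv] at h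
  linarith
theorem soc_e13 (v : T3) (hv : Alt3 v)
    (h : 10 * S 1 3 v 0 1 2 + 3 * S 1 3 v 0 4 5 + 2 * S 1 3 v 3 1 5 + S 1 3 v 3 4 2 = 0) :
    (-10) * v 0 2 3 + (1) * v 1 2 4 = 0 := by
  simp [S, soc_r032 v hv, soc_r115 v hv, soc_r335 v hv, soc_r142 v hv] at h
  linarith
theorem soc_e14 (v : T3) (hv : Alt3 v)
    (h : 10 * S 1 4 v 0 1 2 + 3 * S 1 4 v 0 4 5 + 2 * S 1 4 v 3 1 5 + S 1 4 v 3 4 2 = 0) :
    (-3) * v 0 1 5 + (-10) * v 0 2 4 + (-1) * v 1 2 3 + (2) * v 3 4 5 = 0 := by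
  simp [S, soc_r042 v hv, soc_r312 v hv] at h
  linarith
theorem soc_e15 (v : T3) (hv : Alt3 v)
    (h : 10 * S 1 5 v 0 1 2 + 3 * S 1 5 v 0 4 5 + 2 * S 1 5 v 3 1 5 + S 1 5 v 3 4 2 = 0) :
    (3) * v 0 1 4 + (-10) * v 0 2 5 = 0 := by
  simp [S, soc_r052 v hv, soc_r041 v hv, soc_r355 v hv, soc_r311 v hv] at h
  linarith
theorem soc_e23 (v : T3) (hv : Alt3 v)
    (h : 10 * S 2 3 v 0 1 2 + 3 * S 2 3 v 0 4 5 + 2 * S 2 3 v 3 1 5 + S 2 3 v 3 4 2 = 0) :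
    (10) * v 0 1 3 + (2) * v 1 2 5 = 0 := by
  simp [S, soc_r215 v hv, soc_r242 v hv, soc_r343 v hv] at h
  linarith
theorem soc_e24 (v : T3) (hv : Alt3 v)
    (h : 10 * S 2 4 v 0 1 2 + 3 * S 2 4 v 0 4 5 + 2 * S 2 4 v 3 1 5 + S 2 4 v 3 4 2 = 0) :
    (10) * v 0 1 4 + (-3) * v 0 2 5 = 0 := by
  simp [S, soc_r322 v hv, soc_r344 v hv] at h
  linarith
theorem soc_e25 (v : T3) (hv : Alt3 v)
    (h : 10 * S 2 5 v 0 1 2 + 3 * S 2 5 v 0 4 5 + 2 * S 2 5 v 3 1 5 + S 2 5 v 3 4 2 = 0) :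
    (10) * v 0 1 5 + (3) * v 0 2 4 + (-2) * v 1 2 3 + (1) * v 3 4 5 = 0 := by
  simp [S, soc_r042 v hv, soc_r312 v hv] at h
  linarith
theorem soc_e34 (v : T3) (hv : Alt3 v)
    (h : 10 * S 3 4 v 0 1 2 + 3 * S 3 4 v 0 4 5 + 2 * S 3 4 v 3 1 5 + S 3 4 v 3 4 2 = 0) :
    (-3) * v 0 3 5 + (-2) * v 1 4 5 = 0 := by
  simp [S, soc_r415 v hv, soc_r442 v hv, soc_r332 v hv] at h
  linarith
theorem soc_e35 (v : T3) (hv : Alt3 v)
    (h : 10 * S 3 5 v 0 1 2 + 3 * S 3 5 v 0 4 5 + 2 * S 3 5 v 3 1 5 + S 3 5 v 3 4 2 = 0) :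
    (3) * v 0 3 4 + (-1) * v 2 4 5 = 0 := by
  simp [S, soc_r043 v hv, soc_r515 v hv, soc_r313 v hv, soc_r542 v hv] at h
  linarith
theorem soc_e45 (v : T3) (hv : Alt3 v)
    (h : 10 * S 4 5 v 0 1 2 + 3 * S 4 5 v 0 4 5 + 2 * S 4 5 v 3 1 5 + S 4 5 v 3 4 2 = 0) :
    (2) * v 1 3 4 + (1) * v 2 3 5 = 0 := by
  simp [S, soc_r055 v hv, soc_r044 v hv, soc_r314 v hv, soc_r352 v hv] at h
  linarith

theorem slice_of_crit (st : T3 → T3) (hst : StarLike st) (v : T3) (hv : Alt3 v)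
    (hrot : ∀ a b, 10 * S a b v 0 1 2 + 3 * S a b v 0 4 5 + 2 * S a b v 3 1 5 + S a b v 3 4 2 = 0)
    (hph : 10 * st v 0 1 2 + 3 * st v 0 4 5 + 2 * st v 3 1 5 + st v 3 4 2 = 0) :
    IsSlice v := by
  have e01 := soc_e01 v hv (hrot 0 1)
  have e02 := soc_e02 v hv (hrot 0 2)
  have e03 := soc_e03 v hv (hrot 0 3)
  have e04 := soc_e04 v hv (hrot 0 4)
  have e05 := soc_e05 v hv (hrot 0 5)
  have e12 := soc_e12 v hv (hrot 1 2)
  have e13 := soc_e13 v hv (hrot 1 3)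
  have e14 := soc_e14 v hv (hrot 1 4)
  have e15 := soc_e15 v hv (hrot 1 5)
  have e23 := soc_e23 v hv (hrot 2 3)
  have e24 := soc_e24 v hv (hrot 2 4)
  have e25 := soc_e25 v hv (hrot 2 5)
  have e34 := soc_e34 v hv (hrot 3 4)
  have e35 := soc_e35 v hv (hrot 3 5)
  have e45 := soc_e45 v hv (hrot 4 5)
  have eph : 10 * v 3 4 5 + 3 * v 1 2 3 + (-2) * v 0 2 4 + v 0 1 5 = 0 := by
    rw [hst.v0 v hv, hst.v1 v hv, hst.v2 v hv, hst.v3 v hv] at hph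
    linarith
  exact
    { alt := hv
      z013 := by linear_combination (-1/48) * e05 + (5/48) * e23
      z014 := by linear_combination (-3/91) * e15 + (10/91) * e24
      z015 := by linear_combination (17/420) * e03 + (41/840) * e14 + (53/420) * e25 + (-29/840) * eph
      z023 := by linear_combination (1/99) * e04 + (-10/99) * e13
      z024 := by linear_combination (-29/840) * e03 + (-53/420) * e14 + (-41/840) * e25 + (17/420) * eph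
      z025 := by linear_combination (-10/91) * e15 + (3/91) * e24
      z034 := by linear_combination (1/8) * e02 + (3/8) * e35
      z035 := by linear_combination (-2/5) * e01 + (-3/5) * e34
      z123 := by linear_combination (53/420) * e03 + (29/840) * e14 + (17/420) * e25 + (-41/840) * eph
      z124 := by linear_combination (10/99) * e04 + (-1/99) * e13
      z125 := by linear_combination (5/48) * e05 + (-1/48) * e23
      z134 := by linear_combination (1/3) * e12 + (2/3) * e45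
      z145 := by linear_combination (3/5) * e01 + (2/5) * e34
      z235 := by linear_combination (-2/3) * e12 + (-1/3) * e45
      z245 := by linear_combination (3/8) * e02 + (1/8) * e35
      z345 := by linear_combination (-41/840) * e03 + (-17/420) * e14 + (-29/840) * e25 + (53/420) * eph
    }

end FPA
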