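import Pool.Agent.Helper427.FPA.Defs
import Pool.Agent.Helper427.FPA.P_rot3_alt
import Pool.Agent.Helper427.FPA.P_rot_deriv
import Pool.Agent.Helper427.FPA.P_rot3_mul
import Pool.Agent.Helper427.FPA.P_maximizer
import Pool.Agent.Helper427.FPA.P_slice_of_crit



namespace FPA



/-- the linear functional -/
def nfW : T3 →ₗ[ℝ] ℝ where
  toFun v := 10 * v 0 1 2 + 3 * v 0 4 5 + 2 * v 3 1 5 + v 3 4 2
  map_add' x y := by
    simp only [Pi.add_apply]
    ring
  map_smul' r x := by
    simp only [Pi.smul_apply, smul_eq_mul, RingHom.id_apply]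
    ring

theorem nfW_apply (v : T3) :
    nfW v = 10 * v 0 1 2 + 3 * v 0 4 5 + 2 * v 3 1 5 + v 3 4 2 := rfl

/-- the star operator as a linear map -/
def nfSt (st : T3 → T3) (hst : StarLike st) : T3 →ₗ[ℝ] T3 where
  toFun := st
  map_add' := hst.add
  map_smul' r x := hst.smul r x

theorem nf_alt_comb (r s : ℝ) (x y : T3) (hx : Alt3 x) (hy : Alt3 y) : Alt3 (r • x + s • y) := by
  refine ⟨fun a b c => ?_, fun a b c => ?_⟩
  · simp only [Pi.add_apply, Pi.smul_apply, smul_eq_mul]
    rw [hx.1 a b c, hy.1 a b c]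
    ring
  · simp only [Pi.add_apply, Pi.smul_apply, smul_eq_mul]
    rw [hx.2 a b c, hy.2 a b c]
    ring

theorem nf_S_lin (a b : Fin 6) (r s : ℝ) (x y : T3) :
    S a b (r • x + s • y) = r • S a b x + s • S a b y := by
  funext i j k
  simp only [S, Pi.add_apply, Pi.smul_apply, smul_eq_mul]
  split_ifs <;> ring

theorem normal_form (st : T3 → T3) (hst : StarLike st) (u : T3) (hu : Alt3 u) :
    ∃ (O : Matrix (Fin 6) (Fin 6) ℝ) (θ : ℝ), O * O.transpose = 1 ∧
      IsSlice (Real.cos θ • rot3 O u + Real.sin θ • st (rot3 O u)) := by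
  obtain ⟨O, θ, hO, hmax⟩ := maximizer st hst u
  refine ⟨O, θ, hO, ?_⟩
  have hu1 : Alt3 (rot3 O u) := rot3_alt O u hu
  have hst1 := hst.alt _ hu1
  refine slice_of_crit st hst _ (nf_alt_comb _ _ _ _ hu1 hst1) ?_ ?_
  · intro a b
    obtain ⟨P, hP0, hP1, hP2⟩ := rot_deriv a b
    let Φ : T3 →ₗ[ℝ] ℝ := nfW ∘ₗ (Real.cos θ • LinearMap.id + Real.sin θ • nfSt st hst)
    have hΦ : ∀ x, Φ x = nfW (Real.cos θ • x + Real.sin θ • st x) := fun x => rfl
    have hd1 : HasDerivAt (fun t => rot3 (P t) (rot3 O u)) (S a b (rot3 O u)) 0 := by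
      rw [hasDerivAt_pi]
      intro i
      rw [hasDerivAt_pi]
      intro j
      rw [hasDerivAt_pi]
      intro k
      exact hP2 (rot3 O u) i j k
    have hd2 : HasDerivAt (fun t => Φ (rot3 (P t) (rot3 O u))) (Φ (S a b (rot3 O u))) 0 :=
      (LinearMap.toContinuousLinearMap Φ).hasFDerivAt.comp_hasDerivAt (0 : ℝ) hd1
    have hF : ∀ t, Φ (rot3 (P t) (rot3 O u)) = nfW (Real.cos θ • rot3 (P t * O) u +
        Real.sin θ • st (rot3 (P t * O) u)) := by
      intro t
      rw [hΦ, rot3_mul]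
    have hloc : IsLocalMax (fun t => Φ (rot3 (P t) (rot3 O u))) 0 := by
      refine Filter.Eventually.of_forall fun t => ?_
      show Φ (rot3 (P t) (rot3 O u)) ≤ Φ (rot3 (P 0) (rot3 O u))
      rw [hF, hF, hP0, one_mul]
      refine hmax (P t * O) θ ?_
      rw [Matrix.transpose_mul, Matrix.mul_assoc, ← Matrix.mul_assoc O, hO, Matrix.one_mul, hP1]
    have h0 := hloc.hasDerivAt_eq_zero hd2
    rw [hΦ] at h0
    have h1 : S a b (Real.cos θ • rot3 O u + Real.sin θ • st (rot3 O u)) =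
        Real.cos θ • S a b (rot3 O u) + Real.sin θ • st (S a b (rot3 O u)) := by
      rw [nf_S_lin, hst.comm a b _ hu1]
    rw [h1]
    exact h0
  · have h1 : st (Real.cos θ • rot3 O u + Real.sin θ • st (rot3 O u)) =
        Real.cos θ • st (rot3 O u) + Real.sin θ • (-(rot3 O u)) := by
      rw [hst.add, hst.smul, hst.smul, hst.sq _ hu1]
    rw [h1]
    have hd : HasDerivAt (fun s : ℝ => Real.cos s * nfW (rot3 O u) + Real.sin s * nfW (st (rot3 O u)))
        (-Real.sin θ * nfW (rot3 O u) + Real.cos θ * nfW (st (rot3 O u))) θ :=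
      ((Real.hasDerivAt_cos θ).mul_const _).add ((Real.hasDerivAt_sin θ).mul_const _)
    have hF : ∀ s : ℝ, Real.cos s * nfW (rot3 O u) + Real.sin s * nfW (st (rot3 O u)) =
        nfW (Real.cos s • rot3 O u + Real.sin s • st (rot3 O u)) := by
      intro s
      rw [map_add, map_smul, map_smul, smul_eq_mul, smul_eq_mul]
    have hloc : IsLocalMax (fun s : ℝ => Real.cos s * nfW (rot3 O u) +
        Real.sin s * nfW (st (rot3 O u))) θ := by
      refine Filter.Eventually.of_forall fun s => ?_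
      show Real.cos s * nfW (rot3 O u) + Real.sin s * nfW (st (rot3 O u)) ≤
        Real.cos θ * nfW (rot3 O u) + Real.sin θ * nfW (st (rot3 O u))
      rw [hF, hF]
      exact hmax O s hO
    have h0 := hloc.hasDerivAt_eq_zero hd
    have h2 : nfW (Real.cos θ • st (rot3 O u) + Real.sin θ • (-(rot3 O u))) = 0 := by
      rw [map_add, map_smul, map_smul, map_neg, smul_eq_mul, smul_eq_mul]
      linarith
    exact h2

end FPA
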