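import Pool.Agent.Helper427.FPA.Defs



namespace FPA



theorem rot_inj1 (O : Matrix (Fin 6) (Fin 6) ℝ) (hO : O * O.transpose = 1) (x : Fin 6 → ℝ)
    (h : ∀ a, ∑ i, O a i * x i = 0) : ∀ i, x i = 0 := by
  have h1 : O.transpose * O = 1 := mul_eq_one_comm.mp hO
  have h2 : O.mulVec x = 0 := by
    funext a
    exact h a
  have h3 : (O.transpose * O).mulVec x = 0 := by
    rw [← Matrix.mulVec_mulVec, h2, Matrix.mulVec_zero]
  rw [h1, Matrix.one_mulVec] at h3
  intro i
  rw [h3]
  rfl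

theorem rot3_inj (O : Matrix (Fin 6) (Fin 6) ℝ) (hO : O * O.transpose = 1) (u : T3)
    (h : rot3 O u = 0) : u = 0 := by
  funext i j k
  have h1 : ∀ a b c, ∑ i, O a i * (∑ j, O b j * (∑ k, O c k * u i j k)) = 0 := by
    intro a b c
    have h2 : rot3 O u a b c = 0 := by rw [h]; rfl
    unfold rot3 at h2
    rw [← h2]
    refine Finset.sum_congr rfl fun i _ => ?_
    rw [Finset.mul_sum]
    refine Finset.sum_congr rfl fun j _ => ?_
    rw [Finset.mul_sum, Finset.mul_sum]
    refine Finset.sum_congr rfl fun k _ => ?_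
    ring
  have h2 : ∀ i b c, ∑ j, O b j * (∑ k, O c k * u i j k) = 0 := fun i b c =>
    rot_inj1 O hO (fun i => ∑ j, O b j * (∑ k, O c k * u i j k)) (fun a => h1 a b c) i
  have h3 : ∀ i j c, ∑ k, O c k * u i j k = 0 := fun i j c =>
    rot_inj1 O hO (fun j => ∑ k, O c k * u i j k) (fun b => h2 i b c) j
  exact rot_inj1 O hO (fun k => u i j k) (fun c => h3 i j c) k

end FPA
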