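import Pool.Agent.Helper427.FPA.Defs
import Pool.Agent.Helper427.FPA.P_curv_symm



namespace FPA



set_option linter.unusedSimpArgs false in
theorem slice_L (v : T3) (hv : IsSlice v) (A B C D : ℝ)
    (hA : v 0 1 2 = A) (hB : v 0 4 5 = B) (hC : v 3 1 5 = C) (hD : v 3 4 2 = D) :
    (∀ X : Fin 6 → Fin 6 → ℝ, ∑ i, ∑ f, X i f * v i f 0 = A * (X 1 2 - X 2 1) + B * (X 4 5 - X 5 4)) ∧
    (∀ X : Fin 6 → Fin 6 → ℝ, ∑ i, ∑ f, X i f * v i f 1 = -A * (X 0 2 - X 2 0) + -C * (X 3 5 - X 5 3)) ∧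
    (∀ X : Fin 6 → Fin 6 → ℝ, ∑ i, ∑ f, X i f * v i f 2 = A * (X 0 1 - X 1 0) + D * (X 3 4 - X 4 3)) ∧
    (∀ X : Fin 6 → Fin 6 → ℝ, ∑ i, ∑ f, X i f * v i f 3 = C * (X 1 5 - X 5 1) + -D * (X 2 4 - X 4 2)) ∧
    (∀ X : Fin 6 → Fin 6 → ℝ, ∑ i, ∑ f, X i f * v i f 4 = -B * (X 0 5 - X 5 0) + D * (X 2 3 - X 3 2)) ∧
    (∀ X : Fin 6 → Fin 6 → ℝ, ∑ i, ∑ f, X i f * v i f 5 = B * (X 0 4 - X 4 0) + -C * (X 1 3 - X 3 1)) := by
  have v000 : v 0 0 0 = 0 := by
    have h1 := hv.alt.1 0 0 0
    linarith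
  have v001 : v 0 0 1 = 0 := by
    have h1 := hv.alt.1 0 0 1
    linarith
  have v002 : v 0 0 2 = 0 := by
    have h1 := hv.alt.1 0 0 2
    linarith
  have v003 : v 0 0 3 = 0 := by
    have h1 := hv.alt.1 0 0 3
    linarith
  have v004 : v 0 0 4 = 0 := by
    have h1 := hv.alt.1 0 0 4
    linarith
  have v005 : v 0 0 5 = 0 := by
    have h1 := hv.alt.1 0 0 5
    linarith
  have v010 : v 0 1 0 = 0 := by
    have h1 := hv.alt.1 0 1 0
    have h2 := hv.alt.2 1 0 0
    linarith
  have v011 : v 0 1 1 = 0 := by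
    have h1 := hv.alt.2 0 1 1
    linarith
  have v012 : v 0 1 2 = A := by
    linarith [hA]
  have v013 : v 0 1 3 = 0 := by
    linarith [hv.z013]
  have v014 : v 0 1 4 = 0 := by
    linarith [hv.z014]
  have v015 : v 0 1 5 = 0 := by
    linarith [hv.z015]
  have v020 : v 0 2 0 = 0 := by
    have h1 := hv.alt.1 0 2 0
    have h2 := hv.alt.2 2 0 0
    linarith
  have v021 : v 0 2 1 = -A := by
    have h1 := hv.alt.2 0 2 1
    linarith [hA]
  have v022 : v 0 2 2 = 0 := by
    have h1 := hv.alt.2 0 2 2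
    linarith
  have v023 : v 0 2 3 = 0 := by
    linarith [hv.z023]
  have v024 : v 0 2 4 = 0 := by
    linarith [hv.z024]
  have v025 : v 0 2 5 = 0 := by
    linarith [hv.z025]
  have v030 : v 0 3 0 = 0 := by
    have h1 := hv.alt.1 0 3 0
    have h2 := hv.alt.2 3 0 0
    linarith
  have v031 : v 0 3 1 = 0 := by
    have h1 := hv.alt.2 0 3 1
    linarith [hv.z013]
  have v032 : v 0 3 2 = 0 := by
    have h1 := hv.alt.2 0 3 2
    linarith [hv.z023]
  have v033 : v 0 3 3 = 0 := by
    have h1 := hv.alt.2 0 3 3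
    linarith
  have v034 : v 0 3 4 = 0 := by
    linarith [hv.z034]
  have v035 : v 0 3 5 = 0 := by
    linarith [hv.z035]
  have v040 : v 0 4 0 = 0 := by
    have h1 := hv.alt.1 0 4 0
    have h2 := hv.alt.2 4 0 0
    linarith
  have v041 : v 0 4 1 = 0 := by
    have h1 := hv.alt.2 0 4 1
    linarith [hv.z014]
  have v042 : v 0 4 2 = 0 := by
    have h1 := hv.alt.2 0 4 2
    linarith [hv.z024]
  have v043 : v 0 4 3 = 0 := by
    have h1 := hv.alt.2 0 4 3
    linarith [hv.z034]
  have v044 : v 0 4 4 = 0 := by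
    have h1 := hv.alt.2 0 4 4
    linarith
  have v045 : v 0 4 5 = B := by
    linarith [hB]
  have v050 : v 0 5 0 = 0 := by
    have h1 := hv.alt.1 0 5 0
    have h2 := hv.alt.2 5 0 0
    linarith
  have v051 : v 0 5 1 = 0 := by
    have h1 := hv.alt.2 0 5 1
    linarith [hv.z015]
  have v052 : v 0 5 2 = 0 := by
    have h1 := hv.alt.2 0 5 2
    linarith [hv.z025]
  have v053 : v 0 5 3 = 0 := by
    have h1 := hv.alt.2 0 5 3
    linarith [hv.z035]
  have v054 : v 0 5 4 = -B := by
    have h1 := hv.alt.2 0 5 4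
    linarith [hB]
  have v055 : v 0 5 5 = 0 := by
    have h1 := hv.alt.2 0 5 5
    linarith
  have v100 : v 1 0 0 = 0 := by
    have h1 := hv.alt.2 1 0 0
    linarith
  have v101 : v 1 0 1 = 0 := by
    have h1 := hv.alt.1 1 0 1
    have h2 := hv.alt.2 0 1 1
    linarith
  have v102 : v 1 0 2 = -A := by
    have h1 := hv.alt.1 1 0 2
    linarith [hA]
  have v103 : v 1 0 3 = 0 := by
    have h1 := hv.alt.1 1 0 3
    linarith [hv.z013]
  have v104 : v 1 0 4 = 0 := by
    have h1 := hv.alt.1 1 0 4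
    linarith [hv.z014]
  have v105 : v 1 0 5 = 0 := by
    have h1 := hv.alt.1 1 0 5
    linarith [hv.z015]
  have v110 : v 1 1 0 = 0 := by
    have h1 := hv.alt.1 1 1 0
    linarith
  have v111 : v 1 1 1 = 0 := by
    have h1 := hv.alt.1 1 1 1
    linarith
  have v112 : v 1 1 2 = 0 := by
    have h1 := hv.alt.1 1 1 2
    linarith
  have v113 : v 1 1 3 = 0 := by
    have h1 := hv.alt.1 1 1 3
    linarith
  have v114 : v 1 1 4 = 0 := by
    have h1 := hv.alt.1 1 1 4
    linarith
  have v115 : v 1 1 5 = 0 := by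
    have h1 := hv.alt.1 1 1 5
    linarith
  have v120 : v 1 2 0 = A := by
    have h1 := hv.alt.2 1 2 0
    have h2 := hv.alt.1 1 0 2
    linarith [hA]
  have v121 : v 1 2 1 = 0 := by
    have h1 := hv.alt.1 1 2 1
    have h2 := hv.alt.2 2 1 1
    linarith
  have v122 : v 1 2 2 = 0 := by
    have h1 := hv.alt.2 1 2 2
    linarith
  have v123 : v 1 2 3 = 0 := by
    linarith [hv.z123]
  have v124 : v 1 2 4 = 0 := by
    linarith [hv.z124]
  have v125 : v 1 2 5 = 0 := by
    linarith [hv.z125]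
  have v130 : v 1 3 0 = 0 := by
    have h1 := hv.alt.2 1 3 0
    have h2 := hv.alt.1 1 0 3
    linarith [hv.z013]
  have v131 : v 1 3 1 = 0 := by
    have h1 := hv.alt.1 1 3 1
    have h2 := hv.alt.2 3 1 1
    linarith
  have v132 : v 1 3 2 = 0 := by
    have h1 := hv.alt.2 1 3 2
    linarith [hv.z123]
  have v133 : v 1 3 3 = 0 := by
    have h1 := hv.alt.2 1 3 3
    linarith
  have v134 : v 1 3 4 = 0 := by
    linarith [hv.z134]
  have v135 : v 1 3 5 = -C := by
    have h1 := hv.alt.1 1 3 5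
    linarith [hC]
  have v140 : v 1 4 0 = 0 := by
    have h1 := hv.alt.2 1 4 0
    have h2 := hv.alt.1 1 0 4
    linarith [hv.z014]
  have v141 : v 1 4 1 = 0 := by
    have h1 := hv.alt.1 1 4 1
    have h2 := hv.alt.2 4 1 1
    linarith
  have v142 : v 1 4 2 = 0 := by
    have h1 := hv.alt.2 1 4 2
    linarith [hv.z124]
  have v143 : v 1 4 3 = 0 := by
    have h1 := hv.alt.2 1 4 3
    linarith [hv.z134]
  have v144 : v 1 4 4 = 0 := by
    have h1 := hv.alt.2 1 4 4
    linarith
  have v145 : v 1 4 5 = 0 := by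
    linarith [hv.z145]
  have v150 : v 1 5 0 = 0 := by
    have h1 := hv.alt.2 1 5 0
    have h2 := hv.alt.1 1 0 5
    linarith [hv.z015]
  have v151 : v 1 5 1 = 0 := by
    have h1 := hv.alt.1 1 5 1
    have h2 := hv.alt.2 5 1 1
    linarith
  have v152 : v 1 5 2 = 0 := by
    have h1 := hv.alt.2 1 5 2
    linarith [hv.z125]
  have v153 : v 1 5 3 = C := by
    have h1 := hv.alt.2 1 5 3
    have h2 := hv.alt.1 1 3 5
    linarith [hC]
  have v154 : v 1 5 4 = 0 := by
    have h1 := hv.alt.2 1 5 4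
    linarith [hv.z145]
  have v155 : v 1 5 5 = 0 := by
    have h1 := hv.alt.2 1 5 5
    linarith
  have v200 : v 2 0 0 = 0 := by
    have h1 := hv.alt.2 2 0 0
    linarith
  have v201 : v 2 0 1 = A := by
    have h1 := hv.alt.1 2 0 1
    have h2 := hv.alt.2 0 2 1
    linarith [hA]
  have v202 : v 2 0 2 = 0 := by
    have h1 := hv.alt.1 2 0 2
    have h2 := hv.alt.2 0 2 2
    linarith
  have v203 : v 2 0 3 = 0 := by
    have h1 := hv.alt.1 2 0 3
    linarith [hv.z023]
  have v204 : v 2 0 4 = 0 := by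
    have h1 := hv.alt.1 2 0 4
    linarith [hv.z024]
  have v205 : v 2 0 5 = 0 := by
    have h1 := hv.alt.1 2 0 5
    linarith [hv.z025]
  have v210 : v 2 1 0 = -A := by
    have h1 := hv.alt.1 2 1 0
    have h2 := hv.alt.2 1 2 0
    have h3 := hv.alt.1 1 0 2
    linarith [hA]
  have v211 : v 2 1 1 = 0 := by
    have h1 := hv.alt.2 2 1 1
    linarith
  have v212 : v 2 1 2 = 0 := by
    have h1 := hv.alt.1 2 1 2
    have h2 := hv.alt.2 1 2 2
    linarith
  have v213 : v 2 1 3 = 0 := by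
    have h1 := hv.alt.1 2 1 3
    linarith [hv.z123]
  have v214 : v 2 1 4 = 0 := by
    have h1 := hv.alt.1 2 1 4
    linarith [hv.z124]
  have v215 : v 2 1 5 = 0 := by
    have h1 := hv.alt.1 2 1 5
    linarith [hv.z125]
  have v220 : v 2 2 0 = 0 := by
    have h1 := hv.alt.1 2 2 0
    linarith
  have v221 : v 2 2 1 = 0 := by
    have h1 := hv.alt.1 2 2 1
    linarith
  have v222 : v 2 2 2 = 0 := by
    have h1 := hv.alt.1 2 2 2
    linarith
  have v223 : v 2 2 3 = 0 := by
    have h1 := hv.alt.1 2 2 3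
    linarith
  have v224 : v 2 2 4 = 0 := by
    have h1 := hv.alt.1 2 2 4
    linarith
  have v225 : v 2 2 5 = 0 := by
    have h1 := hv.alt.1 2 2 5
    linarith
  have v230 : v 2 3 0 = 0 := by
    have h1 := hv.alt.2 2 3 0
    have h2 := hv.alt.1 2 0 3
    linarith [hv.z023]
  have v231 : v 2 3 1 = 0 := by
    have h1 := hv.alt.2 2 3 1
    have h2 := hv.alt.1 2 1 3
    linarith [hv.z123]
  have v232 : v 2 3 2 = 0 := by
    have h1 := hv.alt.1 2 3 2
    have h2 := hv.alt.2 3 2 2
    linarith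
  have v233 : v 2 3 3 = 0 := by
    have h1 := hv.alt.2 2 3 3
    linarith
  have v234 : v 2 3 4 = D := by
    have h1 := hv.alt.1 2 3 4
    have h2 := hv.alt.2 3 2 4
    linarith [hD]
  have v235 : v 2 3 5 = 0 := by
    linarith [hv.z235]
  have v240 : v 2 4 0 = 0 := by
    have h1 := hv.alt.2 2 4 0
    have h2 := hv.alt.1 2 0 4
    linarith [hv.z024]
  have v241 : v 2 4 1 = 0 := by
    have h1 := hv.alt.2 2 4 1
    have h2 := hv.alt.1 2 1 4
    linarith [hv.z124]
  have v242 : v 2 4 2 = 0 := by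
    have h1 := hv.alt.1 2 4 2
    have h2 := hv.alt.2 4 2 2
    linarith
  have v243 : v 2 4 3 = -D := by
    have h1 := hv.alt.1 2 4 3
    have h2 := hv.alt.2 4 2 3
    have h3 := hv.alt.1 4 3 2
    linarith [hD]
  have v244 : v 2 4 4 = 0 := by
    have h1 := hv.alt.2 2 4 4
    linarith
  have v245 : v 2 4 5 = 0 := by
    linarith [hv.z245]
  have v250 : v 2 5 0 = 0 := by
    have h1 := hv.alt.2 2 5 0
    have h2 := hv.alt.1 2 0 5
    linarith [hv.z025]
  have v251 : v 2 5 1 = 0 := by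
    have h1 := hv.alt.2 2 5 1
    have h2 := hv.alt.1 2 1 5
    linarith [hv.z125]
  have v252 : v 2 5 2 = 0 := by
    have h1 := hv.alt.1 2 5 2
    have h2 := hv.alt.2 5 2 2
    linarith
  have v253 : v 2 5 3 = 0 := by
    have h1 := hv.alt.2 2 5 3
    linarith [hv.z235]
  have v254 : v 2 5 4 = 0 := by
    have h1 := hv.alt.2 2 5 4
    linarith [hv.z245]
  have v255 : v 2 5 5 = 0 := by
    have h1 := hv.alt.2 2 5 5
    linarith
  have v300 : v 3 0 0 = 0 := by
    have h1 := hv.alt.2 3 0 0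
    linarith
  have v301 : v 3 0 1 = 0 := by
    have h1 := hv.alt.1 3 0 1
    have h2 := hv.alt.2 0 3 1
    linarith [hv.z013]
  have v302 : v 3 0 2 = 0 := by
    have h1 := hv.alt.1 3 0 2
    have h2 := hv.alt.2 0 3 2
    linarith [hv.z023]
  have v303 : v 3 0 3 = 0 := by
    have h1 := hv.alt.1 3 0 3
    have h2 := hv.alt.2 0 3 3
    linarith
  have v304 : v 3 0 4 = 0 := by
    have h1 := hv.alt.1 3 0 4
    linarith [hv.z034]
  have v305 : v 3 0 5 = 0 := by
    have h1 := hv.alt.1 3 0 5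
    linarith [hv.z035]
  have v310 : v 3 1 0 = 0 := by
    have h1 := hv.alt.1 3 1 0
    have h2 := hv.alt.2 1 3 0
    have h3 := hv.alt.1 1 0 3
    linarith [hv.z013]
  have v311 : v 3 1 1 = 0 := by
    have h1 := hv.alt.2 3 1 1
    linarith
  have v312 : v 3 1 2 = 0 := by
    have h1 := hv.alt.1 3 1 2
    have h2 := hv.alt.2 1 3 2
    linarith [hv.z123]
  have v313 : v 3 1 3 = 0 := by
    have h1 := hv.alt.1 3 1 3
    have h2 := hv.alt.2 1 3 3
    linarith
  have v314 : v 3 1 4 = 0 := by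
    have h1 := hv.alt.1 3 1 4
    linarith [hv.z134]
  have v315 : v 3 1 5 = C := by
    linarith [hC]
  have v320 : v 3 2 0 = 0 := by
    have h1 := hv.alt.1 3 2 0
    have h2 := hv.alt.2 2 3 0
    have h3 := hv.alt.1 2 0 3
    linarith [hv.z023]
  have v321 : v 3 2 1 = 0 := by
    have h1 := hv.alt.1 3 2 1
    have h2 := hv.alt.2 2 3 1
    have h3 := hv.alt.1 2 1 3
    linarith [hv.z123]
  have v322 : v 3 2 2 = 0 := by
    have h1 := hv.alt.2 3 2 2
    linarith
  have v323 : v 3 2 3 = 0 := by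
    have h1 := hv.alt.1 3 2 3
    have h2 := hv.alt.2 2 3 3
    linarith
  have v324 : v 3 2 4 = -D := by
    have h1 := hv.alt.2 3 2 4
    linarith [hD]
  have v325 : v 3 2 5 = 0 := by
    have h1 := hv.alt.1 3 2 5
    linarith [hv.z235]
  have v330 : v 3 3 0 = 0 := by
    have h1 := hv.alt.1 3 3 0
    linarith
  have v331 : v 3 3 1 = 0 := by
    have h1 := hv.alt.1 3 3 1
    linarith
  have v332 : v 3 3 2 = 0 := by
    have h1 := hv.alt.1 3 3 2
    linarith
  have v333 : v 3 3 3 = 0 := by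
    have h1 := hv.alt.1 3 3 3
    linarith
  have v334 : v 3 3 4 = 0 := by
    have h1 := hv.alt.1 3 3 4
    linarith
  have v335 : v 3 3 5 = 0 := by
    have h1 := hv.alt.1 3 3 5
    linarith
  have v340 : v 3 4 0 = 0 := by
    have h1 := hv.alt.2 3 4 0
    have h2 := hv.alt.1 3 0 4
    linarith [hv.z034]
  have v341 : v 3 4 1 = 0 := by
    have h1 := hv.alt.2 3 4 1
    have h2 := hv.alt.1 3 1 4
    linarith [hv.z134]
  have v342 : v 3 4 2 = D := by
    linarith [hD]
  have v343 : v 3 4 3 = 0 := by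
    have h1 := hv.alt.1 3 4 3
    have h2 := hv.alt.2 4 3 3
    linarith
  have v344 : v 3 4 4 = 0 := by
    have h1 := hv.alt.2 3 4 4
    linarith
  have v345 : v 3 4 5 = 0 := by
    linarith [hv.z345]
  have v350 : v 3 5 0 = 0 := by
    have h1 := hv.alt.2 3 5 0
    have h2 := hv.alt.1 3 0 5
    linarith [hv.z035]
  have v351 : v 3 5 1 = -C := by
    have h1 := hv.alt.2 3 5 1
    linarith [hC]
  have v352 : v 3 5 2 = 0 := by
    have h1 := hv.alt.2 3 5 2
    have h2 := hv.alt.1 3 2 5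
    linarith [hv.z235]
  have v353 : v 3 5 3 = 0 := by
    have h1 := hv.alt.1 3 5 3
    have h2 := hv.alt.2 5 3 3
    linarith
  have v354 : v 3 5 4 = 0 := by
    have h1 := hv.alt.2 3 5 4
    linarith [hv.z345]
  have v355 : v 3 5 5 = 0 := by
    have h1 := hv.alt.2 3 5 5
    linarith
  have v400 : v 4 0 0 = 0 := by
    have h1 := hv.alt.2 4 0 0
    linarith
  have v401 : v 4 0 1 = 0 := by
    have h1 := hv.alt.1 4 0 1
    have h2 := hv.alt.2 0 4 1
    linarith [hv.z014]
  have v402 : v 4 0 2 = 0 := by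
    have h1 := hv.alt.1 4 0 2
    have h2 := hv.alt.2 0 4 2
    linarith [hv.z024]
  have v403 : v 4 0 3 = 0 := by
    have h1 := hv.alt.1 4 0 3
    have h2 := hv.alt.2 0 4 3
    linarith [hv.z034]
  have v404 : v 4 0 4 = 0 := by
    have h1 := hv.alt.1 4 0 4
    have h2 := hv.alt.2 0 4 4
    linarith
  have v405 : v 4 0 5 = -B := by
    have h1 := hv.alt.1 4 0 5
    linarith [hB]
  have v410 : v 4 1 0 = 0 := by
    have h1 := hv.alt.1 4 1 0
    have h2 := hv.alt.2 1 4 0
    have h3 := hv.alt.1 1 0 4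
    linarith [hv.z014]
  have v411 : v 4 1 1 = 0 := by
    have h1 := hv.alt.2 4 1 1
    linarith
  have v412 : v 4 1 2 = 0 := by
    have h1 := hv.alt.1 4 1 2
    have h2 := hv.alt.2 1 4 2
    linarith [hv.z124]
  have v413 : v 4 1 3 = 0 := by
    have h1 := hv.alt.1 4 1 3
    have h2 := hv.alt.2 1 4 3
    linarith [hv.z134]
  have v414 : v 4 1 4 = 0 := by
    have h1 := hv.alt.1 4 1 4
    have h2 := hv.alt.2 1 4 4
    linarith
  have v415 : v 4 1 5 = 0 := by
    have h1 := hv.alt.1 4 1 5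
    linarith [hv.z145]
  have v420 : v 4 2 0 = 0 := by
    have h1 := hv.alt.1 4 2 0
    have h2 := hv.alt.2 2 4 0
    have h3 := hv.alt.1 2 0 4
    linarith [hv.z024]
  have v421 : v 4 2 1 = 0 := by
    have h1 := hv.alt.1 4 2 1
    have h2 := hv.alt.2 2 4 1
    have h3 := hv.alt.1 2 1 4
    linarith [hv.z124]
  have v422 : v 4 2 2 = 0 := by
    have h1 := hv.alt.2 4 2 2
    linarith
  have v423 : v 4 2 3 = D := by
    have h1 := hv.alt.2 4 2 3
    have h2 := hv.alt.1 4 3 2
    linarith [hD]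
  have v424 : v 4 2 4 = 0 := by
    have h1 := hv.alt.1 4 2 4
    have h2 := hv.alt.2 2 4 4
    linarith
  have v425 : v 4 2 5 = 0 := by
    have h1 := hv.alt.1 4 2 5
    linarith [hv.z245]
  have v430 : v 4 3 0 = 0 := by
    have h1 := hv.alt.1 4 3 0
    have h2 := hv.alt.2 3 4 0
    have h3 := hv.alt.1 3 0 4
    linarith [hv.z034]
  have v431 : v 4 3 1 = 0 := by
    have h1 := hv.alt.1 4 3 1
    have h2 := hv.alt.2 3 4 1
    have h3 := hv.alt.1 3 1 4
    linarith [hv.z134]
  have v432 : v 4 3 2 = -D := by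
    have h1 := hv.alt.1 4 3 2
    linarith [hD]
  have v433 : v 4 3 3 = 0 := by
    have h1 := hv.alt.2 4 3 3
    linarith
  have v434 : v 4 3 4 = 0 := by
    have h1 := hv.alt.1 4 3 4
    have h2 := hv.alt.2 3 4 4
    linarith
  have v435 : v 4 3 5 = 0 := by
    have h1 := hv.alt.1 4 3 5
    linarith [hv.z345]
  have v440 : v 4 4 0 = 0 := by
    have h1 := hv.alt.1 4 4 0
    linarith
  have v441 : v 4 4 1 = 0 := by
    have h1 := hv.alt.1 4 4 1
    linarith
  have v442 : v 4 4 2 = 0 := by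
    have h1 := hv.alt.1 4 4 2
    linarith
  have v443 : v 4 4 3 = 0 := by
    have h1 := hv.alt.1 4 4 3
    linarith
  have v444 : v 4 4 4 = 0 := by
    have h1 := hv.alt.1 4 4 4
    linarith
  have v445 : v 4 4 5 = 0 := by
    have h1 := hv.alt.1 4 4 5
    linarith
  have v450 : v 4 5 0 = B := by
    have h1 := hv.alt.2 4 5 0
    have h2 := hv.alt.1 4 0 5
    linarith [hB]
  have v451 : v 4 5 1 = 0 := by
    have h1 := hv.alt.2 4 5 1
    have h2 := hv.alt.1 4 1 5
    linarith [hv.z145]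
  have v452 : v 4 5 2 = 0 := by
    have h1 := hv.alt.2 4 5 2
    have h2 := hv.alt.1 4 2 5
    linarith [hv.z245]
  have v453 : v 4 5 3 = 0 := by
    have h1 := hv.alt.2 4 5 3
    have h2 := hv.alt.1 4 3 5
    linarith [hv.z345]
  have v454 : v 4 5 4 = 0 := by
    have h1 := hv.alt.1 4 5 4
    have h2 := hv.alt.2 5 4 4
    linarith
  have v455 : v 4 5 5 = 0 := by
    have h1 := hv.alt.2 4 5 5
    linarith
  have v500 : v 5 0 0 = 0 := by
    have h1 := hv.alt.2 5 0 0
    linarith
  have v501 : v 5 0 1 = 0 := by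
    have h1 := hv.alt.1 5 0 1
    have h2 := hv.alt.2 0 5 1
    linarith [hv.z015]
  have v502 : v 5 0 2 = 0 := by
    have h1 := hv.alt.1 5 0 2
    have h2 := hv.alt.2 0 5 2
    linarith [hv.z025]
  have v503 : v 5 0 3 = 0 := by
    have h1 := hv.alt.1 5 0 3
    have h2 := hv.alt.2 0 5 3
    linarith [hv.z035]
  have v504 : v 5 0 4 = B := by
    have h1 := hv.alt.1 5 0 4
    have h2 := hv.alt.2 0 5 4
    linarith [hB]
  have v505 : v 5 0 5 = 0 := by
    have h1 := hv.alt.1 5 0 5
    have h2 := hv.alt.2 0 5 5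
    linarith
  have v510 : v 5 1 0 = 0 := by
    have h1 := hv.alt.1 5 1 0
    have h2 := hv.alt.2 1 5 0
    have h3 := hv.alt.1 1 0 5
    linarith [hv.z015]
  have v511 : v 5 1 1 = 0 := by
    have h1 := hv.alt.2 5 1 1
    linarith
  have v512 : v 5 1 2 = 0 := by
    have h1 := hv.alt.1 5 1 2
    have h2 := hv.alt.2 1 5 2
    linarith [hv.z125]
  have v513 : v 5 1 3 = -C := by
    have h1 := hv.alt.1 5 1 3
    have h2 := hv.alt.2 1 5 3
    have h3 := hv.alt.1 1 3 5
    linarith [hC]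
  have v514 : v 5 1 4 = 0 := by
    have h1 := hv.alt.1 5 1 4
    have h2 := hv.alt.2 1 5 4
    linarith [hv.z145]
  have v515 : v 5 1 5 = 0 := by
    have h1 := hv.alt.1 5 1 5
    have h2 := hv.alt.2 1 5 5
    linarith
  have v520 : v 5 2 0 = 0 := by
    have h1 := hv.alt.1 5 2 0
    have h2 := hv.alt.2 2 5 0
    have h3 := hv.alt.1 2 0 5
    linarith [hv.z025]
  have v521 : v 5 2 1 = 0 := by
    have h1 := hv.alt.1 5 2 1
    have h2 := hv.alt.2 2 5 1
    have h3 := hv.alt.1 2 1 5
    linarith [hv.z125]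
  have v522 : v 5 2 2 = 0 := by
    have h1 := hv.alt.2 5 2 2
    linarith
  have v523 : v 5 2 3 = 0 := by
    have h1 := hv.alt.1 5 2 3
    have h2 := hv.alt.2 2 5 3
    linarith [hv.z235]
  have v524 : v 5 2 4 = 0 := by
    have h1 := hv.alt.1 5 2 4
    have h2 := hv.alt.2 2 5 4
    linarith [hv.z245]
  have v525 : v 5 2 5 = 0 := by
    have h1 := hv.alt.1 5 2 5
    have h2 := hv.alt.2 2 5 5
    linarith
  have v530 : v 5 3 0 = 0 := by
    have h1 := hv.alt.1 5 3 0
    have h2 := hv.alt.2 3 5 0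
    have h3 := hv.alt.1 3 0 5
    linarith [hv.z035]
  have v531 : v 5 3 1 = C := by
    have h1 := hv.alt.1 5 3 1
    have h2 := hv.alt.2 3 5 1
    linarith [hC]
  have v532 : v 5 3 2 = 0 := by
    have h1 := hv.alt.1 5 3 2
    have h2 := hv.alt.2 3 5 2
    have h3 := hv.alt.1 3 2 5
    linarith [hv.z235]
  have v533 : v 5 3 3 = 0 := by
    have h1 := hv.alt.2 5 3 3
    linarith
  have v534 : v 5 3 4 = 0 := by
    have h1 := hv.alt.1 5 3 4
    have h2 := hv.alt.2 3 5 4
    linarith [hv.z345]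
  have v535 : v 5 3 5 = 0 := by
    have h1 := hv.alt.1 5 3 5
    have h2 := hv.alt.2 3 5 5
    linarith
  have v540 : v 5 4 0 = -B := by
    have h1 := hv.alt.1 5 4 0
    have h2 := hv.alt.2 4 5 0
    have h3 := hv.alt.1 4 0 5
    linarith [hB]
  have v541 : v 5 4 1 = 0 := by
    have h1 := hv.alt.1 5 4 1
    have h2 := hv.alt.2 4 5 1
    have h3 := hv.alt.1 4 1 5
    linarith [hv.z145]
  have v542 : v 5 4 2 = 0 := by
    have h1 := hv.alt.1 5 4 2
    have h2 := hv.alt.2 4 5 2
    have h3 := hv.alt.1 4 2 5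
    linarith [hv.z245]
  have v543 : v 5 4 3 = 0 := by
    have h1 := hv.alt.1 5 4 3
    have h2 := hv.alt.2 4 5 3
    have h3 := hv.alt.1 4 3 5
    linarith [hv.z345]
  have v544 : v 5 4 4 = 0 := by
    have h1 := hv.alt.2 5 4 4
    linarith
  have v545 : v 5 4 5 = 0 := by
    have h1 := hv.alt.1 5 4 5
    have h2 := hv.alt.2 4 5 5
    linarith
  have v550 : v 5 5 0 = 0 := by
    have h1 := hv.alt.1 5 5 0
    linarith
  have v551 : v 5 5 1 = 0 := by
    have h1 := hv.alt.1 5 5 1
    linarith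
  have v552 : v 5 5 2 = 0 := by
    have h1 := hv.alt.1 5 5 2
    linarith
  have v553 : v 5 5 3 = 0 := by
    have h1 := hv.alt.1 5 5 3
    linarith
  have v554 : v 5 5 4 = 0 := by
    have h1 := hv.alt.1 5 5 4
    linarith
  have v555 : v 5 5 5 = 0 := by
    have h1 := hv.alt.1 5 5 5
    linarith
  refine ⟨?_, ?_, ?_, ?_, ?_, ?_⟩ <;>
    (intro X; simp only [Fin.sum_univ_six, v000, v001, v002, v003, v004, v005, v010, v011, v012, v013, v014, v015, v020, v021, v022, v023, v024, v025, v030, v031, v032, v033, v034, v035, v040, v041, v042, v043, v044, v045, v050, v051, v052, v053, v054, v055, v100, v101, v102, v103, v104, v105, v110, v111, v112, v113, v114, v115, v120, v121, v122, v123, v124, v125, v130, v131, v132, v133, v134, v135, v140, v141, v142, v143, v144, v145, v150, v151, v152, v153, v154, v155, v200, v201, v202, v203, v204, v205, v210, v211, v212, v213, v214, v215, v220, v221, v222, v223, v224, v225, v230, v231, v232, v233, v234, v235, v240, v241, v242,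 v243, v244, v245, v250, v251, v252, v253, v254, v255, v300, v301, v302, v303, v304, v305, v310, v311, v312, v313, v314, v315, v320, v321, v322, v323, v324, v325, v330, v331, v332, v333, v334, v335, v340, v341, v342, v343, v344, v345, v350, v351, v352, v353, v354, v355, v400, v401, v402, v403, v404, v405, v410, v411, v412, v413, v414, v415, v420, v421, v422, v423, v424, v425, v430, v431, v432, v433, v434, v435, v440, v441, v442, v443, v444, v445, v450, v451, v452, v453, v454, v455, v500, v501, v502, v503, v504, v505, v510, v511, v512, v513, v514, v515, v520, v521, v522, v523, v524, v525, v530, v531, v532, v533, v534, v535, v540, v541, v542, v543, v544, v545, v550, v551, v552, v553, v554, v555]; ring)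

set_option linter.unusedSimpArgs false in
theorem slice_G (v : T3) (hv : IsSlice v) (A B C D : ℝ)
    (hA : v 0 1 2 = A) (hB : v 0 4 5 = B) (hC : v 3 1 5 = C) (hD : v 3 4 2 = D) (f j : Fin 6) :
    ∑ k, ∑ l, v f k l * v j k l = if f = j then (![2 * (A ^ 2 + B ^ 2), 2 * (A ^ 2 + C ^ 2), 2 * (A ^ 2 + D ^ 2), 2 * (C ^ 2 + D ^ 2), 2 * (B ^ 2 + D ^ 2), 2 * (B ^ 2 + C ^ 2)] : Fin 6 → ℝ) f else 0 := by
  have v000 : v 0 0 0 = 0 := by
    have h1 := hv.alt.1 0 0 0
    linarith
  have v001 : v 0 0 1 = 0 := by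
    have h1 := hv.alt.1 0 0 1
    linarith
  have v002 : v 0 0 2 = 0 := by
    have h1 := hv.alt.1 0 0 2
    linarith
  have v003 : v 0 0 3 = 0 := by
    have h1 := hv.alt.1 0 0 3
    linarith
  have v004 : v 0 0 4 = 0 := by
    have h1 := hv.alt.1 0 0 4
    linarith
  have v005 : v 0 0 5 = 0 := by
    have h1 := hv.alt.1 0 0 5
    linarith
  have v010 : v 0 1 0 = 0 := by
    have h1 := hv.alt.1 0 1 0
    have h2 := hv.alt.2 1 0 0
    linarith
  have v011 : v 0 1 1 = 0 := by
    have h1 := hv.alt.2 0 1 1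
    linarith
  have v012 : v 0 1 2 = A := by
    linarith [hA]
  have v013 : v 0 1 3 = 0 := by
    linarith [hv.z013]
  have v014 : v 0 1 4 = 0 := by
    linarith [hv.z014]
  have v015 : v 0 1 5 = 0 := by
    linarith [hv.z015]
  have v020 : v 0 2 0 = 0 := by
    have h1 := hv.alt.1 0 2 0
    have h2 := hv.alt.2 2 0 0
    linarith
  have v021 : v 0 2 1 = -A := by
    have h1 := hv.alt.2 0 2 1
    linarith [hA]
  have v022 : v 0 2 2 = 0 := by
    have h1 := hv.alt.2 0 2 2
    linarith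
  have v023 : v 0 2 3 = 0 := by
    linarith [hv.z023]
  have v024 : v 0 2 4 = 0 := by
    linarith [hv.z024]
  have v025 : v 0 2 5 = 0 := by
    linarith [hv.z025]
  have v030 : v 0 3 0 = 0 := by
    have h1 := hv.alt.1 0 3 0
    have h2 := hv.alt.2 3 0 0
    linarith
  have v031 : v 0 3 1 = 0 := by
    have h1 := hv.alt.2 0 3 1
    linarith [hv.z013]
  have v032 : v 0 3 2 = 0 := by
    have h1 := hv.alt.2 0 3 2
    linarith [hv.z023]
  have v033 : v 0 3 3 = 0 := by
    have h1 := hv.alt.2 0 3 3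
    linarith
  have v034 : v 0 3 4 = 0 := by
    linarith [hv.z034]
  have v035 : v 0 3 5 = 0 := by
    linarith [hv.z035]
  have v040 : v 0 4 0 = 0 := by
    have h1 := hv.alt.1 0 4 0
    have h2 := hv.alt.2 4 0 0
    linarith
  have v041 : v 0 4 1 = 0 := by
    have h1 := hv.alt.2 0 4 1
    linarith [hv.z014]
  have v042 : v 0 4 2 = 0 := by
    have h1 := hv.alt.2 0 4 2
    linarith [hv.z024]
  have v043 : v 0 4 3 = 0 := by
    have h1 := hv.alt.2 0 4 3
    linarith [hv.z034]
  have v044 : v 0 4 4 = 0 := by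
    have h1 := hv.alt.2 0 4 4
    linarith
  have v045 : v 0 4 5 = B := by
    linarith [hB]
  have v050 : v 0 5 0 = 0 := by
    have h1 := hv.alt.1 0 5 0
    have h2 := hv.alt.2 5 0 0
    linarith
  have v051 : v 0 5 1 = 0 := by
    have h1 := hv.alt.2 0 5 1
    linarith [hv.z015]
  have v052 : v 0 5 2 = 0 := by
    have h1 := hv.alt.2 0 5 2
    linarith [hv.z025]
  have v053 : v 0 5 3 = 0 := by
    have h1 := hv.alt.2 0 5 3
    linarith [hv.z035]
  have v054 : v 0 5 4 = -B := by
    have h1 := hv.alt.2 0 5 4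
    linarith [hB]
  have v055 : v 0 5 5 = 0 := by
    have h1 := hv.alt.2 0 5 5
    linarith
  have v100 : v 1 0 0 = 0 := by
    have h1 := hv.alt.2 1 0 0
    linarith
  have v101 : v 1 0 1 = 0 := by
    have h1 := hv.alt.1 1 0 1
    have h2 := hv.alt.2 0 1 1
    linarith
  have v102 : v 1 0 2 = -A := by
    have h1 := hv.alt.1 1 0 2
    linarith [hA]
  have v103 : v 1 0 3 = 0 := by
    have h1 := hv.alt.1 1 0 3
    linarith [hv.z013]
  have v104 : v 1 0 4 = 0 := by
    have h1 := hv.alt.1 1 0 4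
    linarith [hv.z014]
  have v105 : v 1 0 5 = 0 := by
    have h1 := hv.alt.1 1 0 5
    linarith [hv.z015]
  have v110 : v 1 1 0 = 0 := by
    have h1 := hv.alt.1 1 1 0
    linarith
  have v111 : v 1 1 1 = 0 := by
    have h1 := hv.alt.1 1 1 1
    linarith
  have v112 : v 1 1 2 = 0 := by
    have h1 := hv.alt.1 1 1 2
    linarith
  have v113 : v 1 1 3 = 0 := by
    have h1 := hv.alt.1 1 1 3
    linarith
  have v114 : v 1 1 4 = 0 := by
    have h1 := hv.alt.1 1 1 4
    linarith
  have v115 : v 1 1 5 = 0 := by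
    have h1 := hv.alt.1 1 1 5
    linarith
  have v120 : v 1 2 0 = A := by
    have h1 := hv.alt.2 1 2 0
    have h2 := hv.alt.1 1 0 2
    linarith [hA]
  have v121 : v 1 2 1 = 0 := by
    have h1 := hv.alt.1 1 2 1
    have h2 := hv.alt.2 2 1 1
    linarith
  have v122 : v 1 2 2 = 0 := by
    have h1 := hv.alt.2 1 2 2
    linarith
  have v123 : v 1 2 3 = 0 := by
    linarith [hv.z123]
  have v124 : v 1 2 4 = 0 := by
    linarith [hv.z124]
  have v125 : v 1 2 5 = 0 := by
    linarith [hv.z125]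
  have v130 : v 1 3 0 = 0 := by
    have h1 := hv.alt.2 1 3 0
    have h2 := hv.alt.1 1 0 3
    linarith [hv.z013]
  have v131 : v 1 3 1 = 0 := by
    have h1 := hv.alt.1 1 3 1
    have h2 := hv.alt.2 3 1 1
    linarith
  have v132 : v 1 3 2 = 0 := by
    have h1 := hv.alt.2 1 3 2
    linarith [hv.z123]
  have v133 : v 1 3 3 = 0 := by
    have h1 := hv.alt.2 1 3 3
    linarith
  have v134 : v 1 3 4 = 0 := by
    linarith [hv.z134]
  have v135 : v 1 3 5 = -C := by
    have h1 := hv.alt.1 1 3 5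
    linarith [hC]
  have v140 : v 1 4 0 = 0 := by
    have h1 := hv.alt.2 1 4 0
    have h2 := hv.alt.1 1 0 4
    linarith [hv.z014]
  have v141 : v 1 4 1 = 0 := by
    have h1 := hv.alt.1 1 4 1
    have h2 := hv.alt.2 4 1 1
    linarith
  have v142 : v 1 4 2 = 0 := by
    have h1 := hv.alt.2 1 4 2
    linarith [hv.z124]
  have v143 : v 1 4 3 = 0 := by
    have h1 := hv.alt.2 1 4 3
    linarith [hv.z134]
  have v144 : v 1 4 4 = 0 := by
    have h1 := hv.alt.2 1 4 4
    linarith
  have v145 : v 1 4 5 = 0 := by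
    linarith [hv.z145]
  have v150 : v 1 5 0 = 0 := by
    have h1 := hv.alt.2 1 5 0
    have h2 := hv.alt.1 1 0 5
    linarith [hv.z015]
  have v151 : v 1 5 1 = 0 := by
    have h1 := hv.alt.1 1 5 1
    have h2 := hv.alt.2 5 1 1
    linarith
  have v152 : v 1 5 2 = 0 := by
    have h1 := hv.alt.2 1 5 2
    linarith [hv.z125]
  have v153 : v 1 5 3 = C := by
    have h1 := hv.alt.2 1 5 3
    have h2 := hv.alt.1 1 3 5
    linarith [hC]
  have v154 : v 1 5 4 = 0 := by
    have h1 := hv.alt.2 1 5 4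
    linarith [hv.z145]
  have v155 : v 1 5 5 = 0 := by
    have h1 := hv.alt.2 1 5 5
    linarith
  have v200 : v 2 0 0 = 0 := by
    have h1 := hv.alt.2 2 0 0
    linarith
  have v201 : v 2 0 1 = A := by
    have h1 := hv.alt.1 2 0 1
    have h2 := hv.alt.2 0 2 1
    linarith [hA]
  have v202 : v 2 0 2 = 0 := by
    have h1 := hv.alt.1 2 0 2
    have h2 := hv.alt.2 0 2 2
    linarith
  have v203 : v 2 0 3 = 0 := by
    have h1 := hv.alt.1 2 0 3
    linarith [hv.z023]
  have v204 : v 2 0 4 = 0 := by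
    have h1 := hv.alt.1 2 0 4
    linarith [hv.z024]
  have v205 : v 2 0 5 = 0 := by
    have h1 := hv.alt.1 2 0 5
    linarith [hv.z025]
  have v210 : v 2 1 0 = -A := by
    have h1 := hv.alt.1 2 1 0
    have h2 := hv.alt.2 1 2 0
    have h3 := hv.alt.1 1 0 2
    linarith [hA]
  have v211 : v 2 1 1 = 0 := by
    have h1 := hv.alt.2 2 1 1
    linarith
  have v212 : v 2 1 2 = 0 := by
    have h1 := hv.alt.1 2 1 2
    have h2 := hv.alt.2 1 2 2
    linarith
  have v213 : v 2 1 3 = 0 := by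
    have h1 := hv.alt.1 2 1 3
    linarith [hv.z123]
  have v214 : v 2 1 4 = 0 := by
    have h1 := hv.alt.1 2 1 4
    linarith [hv.z124]
  have v215 : v 2 1 5 = 0 := by
    have h1 := hv.alt.1 2 1 5
    linarith [hv.z125]
  have v220 : v 2 2 0 = 0 := by
    have h1 := hv.alt.1 2 2 0
    linarith
  have v221 : v 2 2 1 = 0 := by
    have h1 := hv.alt.1 2 2 1
    linarith
  have v222 : v 2 2 2 = 0 := by
    have h1 := hv.alt.1 2 2 2
    linarith
  have v223 : v 2 2 3 = 0 := by
    have h1 := hv.alt.1 2 2 3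
    linarith
  have v224 : v 2 2 4 = 0 := by
    have h1 := hv.alt.1 2 2 4
    linarith
  have v225 : v 2 2 5 = 0 := by
    have h1 := hv.alt.1 2 2 5
    linarith
  have v230 : v 2 3 0 = 0 := by
    have h1 := hv.alt.2 2 3 0
    have h2 := hv.alt.1 2 0 3
    linarith [hv.z023]
  have v231 : v 2 3 1 = 0 := by
    have h1 := hv.alt.2 2 3 1
    have h2 := hv.alt.1 2 1 3
    linarith [hv.z123]
  have v232 : v 2 3 2 = 0 := by
    have h1 := hv.alt.1 2 3 2
    have h2 := hv.alt.2 3 2 2
    linarith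
  have v233 : v 2 3 3 = 0 := by
    have h1 := hv.alt.2 2 3 3
    linarith
  have v234 : v 2 3 4 = D := by
    have h1 := hv.alt.1 2 3 4
    have h2 := hv.alt.2 3 2 4
    linarith [hD]
  have v235 : v 2 3 5 = 0 := by
    linarith [hv.z235]
  have v240 : v 2 4 0 = 0 := by
    have h1 := hv.alt.2 2 4 0
    have h2 := hv.alt.1 2 0 4
    linarith [hv.z024]
  have v241 : v 2 4 1 = 0 := by
    have h1 := hv.alt.2 2 4 1
    have h2 := hv.alt.1 2 1 4
    linarith [hv.z124]
  have v242 : v 2 4 2 = 0 := by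
    have h1 := hv.alt.1 2 4 2
    have h2 := hv.alt.2 4 2 2
    linarith
  have v243 : v 2 4 3 = -D := by
    have h1 := hv.alt.1 2 4 3
    have h2 := hv.alt.2 4 2 3
    have h3 := hv.alt.1 4 3 2
    linarith [hD]
  have v244 : v 2 4 4 = 0 := by
    have h1 := hv.alt.2 2 4 4
    linarith
  have v245 : v 2 4 5 = 0 := by
    linarith [hv.z245]
  have v250 : v 2 5 0 = 0 := by
    have h1 := hv.alt.2 2 5 0
    have h2 := hv.alt.1 2 0 5
    linarith [hv.z025]
  have v251 : v 2 5 1 = 0 := by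
    have h1 := hv.alt.2 2 5 1
    have h2 := hv.alt.1 2 1 5
    linarith [hv.z125]
  have v252 : v 2 5 2 = 0 := by
    have h1 := hv.alt.1 2 5 2
    have h2 := hv.alt.2 5 2 2
    linarith
  have v253 : v 2 5 3 = 0 := by
    have h1 := hv.alt.2 2 5 3
    linarith [hv.z235]
  have v254 : v 2 5 4 = 0 := by
    have h1 := hv.alt.2 2 5 4
    linarith [hv.z245]
  have v255 : v 2 5 5 = 0 := by
    have h1 := hv.alt.2 2 5 5
    linarith
  have v300 : v 3 0 0 = 0 := by
    have h1 := hv.alt.2 3 0 0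
    linarith
  have v301 : v 3 0 1 = 0 := by
    have h1 := hv.alt.1 3 0 1
    have h2 := hv.alt.2 0 3 1
    linarith [hv.z013]
  have v302 : v 3 0 2 = 0 := by
    have h1 := hv.alt.1 3 0 2
    have h2 := hv.alt.2 0 3 2
    linarith [hv.z023]
  have v303 : v 3 0 3 = 0 := by
    have h1 := hv.alt.1 3 0 3
    have h2 := hv.alt.2 0 3 3
    linarith
  have v304 : v 3 0 4 = 0 := by
    have h1 := hv.alt.1 3 0 4
    linarith [hv.z034]
  have v305 : v 3 0 5 = 0 := by
    have h1 := hv.alt.1 3 0 5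
    linarith [hv.z035]
  have v310 : v 3 1 0 = 0 := by
    have h1 := hv.alt.1 3 1 0
    have h2 := hv.alt.2 1 3 0
    have h3 := hv.alt.1 1 0 3
    linarith [hv.z013]
  have v311 : v 3 1 1 = 0 := by
    have h1 := hv.alt.2 3 1 1
    linarith
  have v312 : v 3 1 2 = 0 := by
    have h1 := hv.alt.1 3 1 2
    have h2 := hv.alt.2 1 3 2
    linarith [hv.z123]
  have v313 : v 3 1 3 = 0 := by
    have h1 := hv.alt.1 3 1 3
    have h2 := hv.alt.2 1 3 3
    linarith
  have v314 : v 3 1 4 = 0 := by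
    have h1 := hv.alt.1 3 1 4
    linarith [hv.z134]
  have v315 : v 3 1 5 = C := by
    linarith [hC]
  have v320 : v 3 2 0 = 0 := by
    have h1 := hv.alt.1 3 2 0
    have h2 := hv.alt.2 2 3 0
    have h3 := hv.alt.1 2 0 3
    linarith [hv.z023]
  have v321 : v 3 2 1 = 0 := by
    have h1 := hv.alt.1 3 2 1
    have h2 := hv.alt.2 2 3 1
    have h3 := hv.alt.1 2 1 3
    linarith [hv.z123]
  have v322 : v 3 2 2 = 0 := by
    have h1 := hv.alt.2 3 2 2
    linarith
  have v323 : v 3 2 3 = 0 := by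
    have h1 := hv.alt.1 3 2 3
    have h2 := hv.alt.2 2 3 3
    linarith
  have v324 : v 3 2 4 = -D := by
    have h1 := hv.alt.2 3 2 4
    linarith [hD]
  have v325 : v 3 2 5 = 0 := by
    have h1 := hv.alt.1 3 2 5
    linarith [hv.z235]
  have v330 : v 3 3 0 = 0 := by
    have h1 := hv.alt.1 3 3 0
    linarith
  have v331 : v 3 3 1 = 0 := by
    have h1 := hv.alt.1 3 3 1
    linarith
  have v332 : v 3 3 2 = 0 := by
    have h1 := hv.alt.1 3 3 2
    linarith
  have v333 : v 3 3 3 = 0 := by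
    have h1 := hv.alt.1 3 3 3
    linarith
  have v334 : v 3 3 4 = 0 := by
    have h1 := hv.alt.1 3 3 4
    linarith
  have v335 : v 3 3 5 = 0 := by
    have h1 := hv.alt.1 3 3 5
    linarith
  have v340 : v 3 4 0 = 0 := by
    have h1 := hv.alt.2 3 4 0
    have h2 := hv.alt.1 3 0 4
    linarith [hv.z034]
  have v341 : v 3 4 1 = 0 := by
    have h1 := hv.alt.2 3 4 1
    have h2 := hv.alt.1 3 1 4
    linarith [hv.z134]
  have v342 : v 3 4 2 = D := by
    linarith [hD]
  have v343 : v 3 4 3 = 0 := by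
    have h1 := hv.alt.1 3 4 3
    have h2 := hv.alt.2 4 3 3
    linarith
  have v344 : v 3 4 4 = 0 := by
    have h1 := hv.alt.2 3 4 4
    linarith
  have v345 : v 3 4 5 = 0 := by
    linarith [hv.z345]
  have v350 : v 3 5 0 = 0 := by
    have h1 := hv.alt.2 3 5 0
    have h2 := hv.alt.1 3 0 5
    linarith [hv.z035]
  have v351 : v 3 5 1 = -C := by
    have h1 := hv.alt.2 3 5 1
    linarith [hC]
  have v352 : v 3 5 2 = 0 := by
    have h1 := hv.alt.2 3 5 2
    have h2 := hv.alt.1 3 2 5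
    linarith [hv.z235]
  have v353 : v 3 5 3 = 0 := by
    have h1 := hv.alt.1 3 5 3
    have h2 := hv.alt.2 5 3 3
    linarith
  have v354 : v 3 5 4 = 0 := by
    have h1 := hv.alt.2 3 5 4
    linarith [hv.z345]
  have v355 : v 3 5 5 = 0 := by
    have h1 := hv.alt.2 3 5 5
    linarith
  have v400 : v 4 0 0 = 0 := by
    have h1 := hv.alt.2 4 0 0
    linarith
  have v401 : v 4 0 1 = 0 := by
    have h1 := hv.alt.1 4 0 1
    have h2 := hv.alt.2 0 4 1
    linarith [hv.z014]
  have v402 : v 4 0 2 = 0 := by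
    have h1 := hv.alt.1 4 0 2
    have h2 := hv.alt.2 0 4 2
    linarith [hv.z024]
  have v403 : v 4 0 3 = 0 := by
    have h1 := hv.alt.1 4 0 3
    have h2 := hv.alt.2 0 4 3
    linarith [hv.z034]
  have v404 : v 4 0 4 = 0 := by
    have h1 := hv.alt.1 4 0 4
    have h2 := hv.alt.2 0 4 4
    linarith
  have v405 : v 4 0 5 = -B := by
    have h1 := hv.alt.1 4 0 5
    linarith [hB]
  have v410 : v 4 1 0 = 0 := by
    have h1 := hv.alt.1 4 1 0
    have h2 := hv.alt.2 1 4 0
    have h3 := hv.alt.1 1 0 4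
    linarith [hv.z014]
  have v411 : v 4 1 1 = 0 := by
    have h1 := hv.alt.2 4 1 1
    linarith
  have v412 : v 4 1 2 = 0 := by
    have h1 := hv.alt.1 4 1 2
    have h2 := hv.alt.2 1 4 2
    linarith [hv.z124]
  have v413 : v 4 1 3 = 0 := by
    have h1 := hv.alt.1 4 1 3
    have h2 := hv.alt.2 1 4 3
    linarith [hv.z134]
  have v414 : v 4 1 4 = 0 := by
    have h1 := hv.alt.1 4 1 4
    have h2 := hv.alt.2 1 4 4
    linarith
  have v415 : v 4 1 5 = 0 := by
    have h1 := hv.alt.1 4 1 5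
    linarith [hv.z145]
  have v420 : v 4 2 0 = 0 := by
    have h1 := hv.alt.1 4 2 0
    have h2 := hv.alt.2 2 4 0
    have h3 := hv.alt.1 2 0 4
    linarith [hv.z024]
  have v421 : v 4 2 1 = 0 := by
    have h1 := hv.alt.1 4 2 1
    have h2 := hv.alt.2 2 4 1
    have h3 := hv.alt.1 2 1 4
    linarith [hv.z124]
  have v422 : v 4 2 2 = 0 := by
    have h1 := hv.alt.2 4 2 2
    linarith
  have v423 : v 4 2 3 = D := by
    have h1 := hv.alt.2 4 2 3
    have h2 := hv.alt.1 4 3 2
    linarith [hD]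
  have v424 : v 4 2 4 = 0 := by
    have h1 := hv.alt.1 4 2 4
    have h2 := hv.alt.2 2 4 4
    linarith
  have v425 : v 4 2 5 = 0 := by
    have h1 := hv.alt.1 4 2 5
    linarith [hv.z245]
  have v430 : v 4 3 0 = 0 := by
    have h1 := hv.alt.1 4 3 0
    have h2 := hv.alt.2 3 4 0
    have h3 := hv.alt.1 3 0 4
    linarith [hv.z034]
  have v431 : v 4 3 1 = 0 := by
    have h1 := hv.alt.1 4 3 1
    have h2 := hv.alt.2 3 4 1
    have h3 := hv.alt.1 3 1 4
    linarith [hv.z134]
  have v432 : v 4 3 2 = -D := by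
    have h1 := hv.alt.1 4 3 2
    linarith [hD]
  have v433 : v 4 3 3 = 0 := by
    have h1 := hv.alt.2 4 3 3
    linarith
  have v434 : v 4 3 4 = 0 := by
    have h1 := hv.alt.1 4 3 4
    have h2 := hv.alt.2 3 4 4
    linarith
  have v435 : v 4 3 5 = 0 := by
    have h1 := hv.alt.1 4 3 5
    linarith [hv.z345]
  have v440 : v 4 4 0 = 0 := by
    have h1 := hv.alt.1 4 4 0
    linarith
  have v441 : v 4 4 1 = 0 := by
    have h1 := hv.alt.1 4 4 1
    linarith
  have v442 : v 4 4 2 = 0 := by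
    have h1 := hv.alt.1 4 4 2
    linarith
  have v443 : v 4 4 3 = 0 := by
    have h1 := hv.alt.1 4 4 3
    linarith
  have v444 : v 4 4 4 = 0 := by
    have h1 := hv.alt.1 4 4 4
    linarith
  have v445 : v 4 4 5 = 0 := by
    have h1 := hv.alt.1 4 4 5
    linarith
  have v450 : v 4 5 0 = B := by
    have h1 := hv.alt.2 4 5 0
    have h2 := hv.alt.1 4 0 5
    linarith [hB]
  have v451 : v 4 5 1 = 0 := by
    have h1 := hv.alt.2 4 5 1
    have h2 := hv.alt.1 4 1 5
    linarith [hv.z145]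
  have v452 : v 4 5 2 = 0 := by
    have h1 := hv.alt.2 4 5 2
    have h2 := hv.alt.1 4 2 5
    linarith [hv.z245]
  have v453 : v 4 5 3 = 0 := by
    have h1 := hv.alt.2 4 5 3
    have h2 := hv.alt.1 4 3 5
    linarith [hv.z345]
  have v454 : v 4 5 4 = 0 := by
    have h1 := hv.alt.1 4 5 4
    have h2 := hv.alt.2 5 4 4
    linarith
  have v455 : v 4 5 5 = 0 := by
    have h1 := hv.alt.2 4 5 5
    linarith
  have v500 : v 5 0 0 = 0 := by
    have h1 := hv.alt.2 5 0 0
    linarith
  have v501 : v 5 0 1 = 0 := by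
    have h1 := hv.alt.1 5 0 1
    have h2 := hv.alt.2 0 5 1
    linarith [hv.z015]
  have v502 : v 5 0 2 = 0 := by
    have h1 := hv.alt.1 5 0 2
    have h2 := hv.alt.2 0 5 2
    linarith [hv.z025]
  have v503 : v 5 0 3 = 0 := by
    have h1 := hv.alt.1 5 0 3
    have h2 := hv.alt.2 0 5 3
    linarith [hv.z035]
  have v504 : v 5 0 4 = B := by
    have h1 := hv.alt.1 5 0 4
    have h2 := hv.alt.2 0 5 4
    linarith [hB]
  have v505 : v 5 0 5 = 0 := by
    have h1 := hv.alt.1 5 0 5
    have h2 := hv.alt.2 0 5 5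
    linarith
  have v510 : v 5 1 0 = 0 := by
    have h1 := hv.alt.1 5 1 0
    have h2 := hv.alt.2 1 5 0
    have h3 := hv.alt.1 1 0 5
    linarith [hv.z015]
  have v511 : v 5 1 1 = 0 := by
    have h1 := hv.alt.2 5 1 1
    linarith
  have v512 : v 5 1 2 = 0 := by
    have h1 := hv.alt.1 5 1 2
    have h2 := hv.alt.2 1 5 2
    linarith [hv.z125]
  have v513 : v 5 1 3 = -C := by
    have h1 := hv.alt.1 5 1 3
    have h2 := hv.alt.2 1 5 3
    have h3 := hv.alt.1 1 3 5
    linarith [hC]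
  have v514 : v 5 1 4 = 0 := by
    have h1 := hv.alt.1 5 1 4
    have h2 := hv.alt.2 1 5 4
    linarith [hv.z145]
  have v515 : v 5 1 5 = 0 := by
    have h1 := hv.alt.1 5 1 5
    have h2 := hv.alt.2 1 5 5
    linarith
  have v520 : v 5 2 0 = 0 := by
    have h1 := hv.alt.1 5 2 0
    have h2 := hv.alt.2 2 5 0
    have h3 := hv.alt.1 2 0 5
    linarith [hv.z025]
  have v521 : v 5 2 1 = 0 := by
    have h1 := hv.alt.1 5 2 1
    have h2 := hv.alt.2 2 5 1
    have h3 := hv.alt.1 2 1 5
    linarith [hv.z125]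
  have v522 : v 5 2 2 = 0 := by
    have h1 := hv.alt.2 5 2 2
    linarith
  have v523 : v 5 2 3 = 0 := by
    have h1 := hv.alt.1 5 2 3
    have h2 := hv.alt.2 2 5 3
    linarith [hv.z235]
  have v524 : v 5 2 4 = 0 := by
    have h1 := hv.alt.1 5 2 4
    have h2 := hv.alt.2 2 5 4
    linarith [hv.z245]
  have v525 : v 5 2 5 = 0 := by
    have h1 := hv.alt.1 5 2 5
    have h2 := hv.alt.2 2 5 5
    linarith
  have v530 : v 5 3 0 = 0 := by
    have h1 := hv.alt.1 5 3 0
    have h2 := hv.alt.2 3 5 0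
    have h3 := hv.alt.1 3 0 5
    linarith [hv.z035]
  have v531 : v 5 3 1 = C := by
    have h1 := hv.alt.1 5 3 1
    have h2 := hv.alt.2 3 5 1
    linarith [hC]
  have v532 : v 5 3 2 = 0 := by
    have h1 := hv.alt.1 5 3 2
    have h2 := hv.alt.2 3 5 2
    have h3 := hv.alt.1 3 2 5
    linarith [hv.z235]
  have v533 : v 5 3 3 = 0 := by
    have h1 := hv.alt.2 5 3 3
    linarith
  have v534 : v 5 3 4 = 0 := by
    have h1 := hv.alt.1 5 3 4
    have h2 := hv.alt.2 3 5 4
    linarith [hv.z345]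
  have v535 : v 5 3 5 = 0 := by
    have h1 := hv.alt.1 5 3 5
    have h2 := hv.alt.2 3 5 5
    linarith
  have v540 : v 5 4 0 = -B := by
    have h1 := hv.alt.1 5 4 0
    have h2 := hv.alt.2 4 5 0
    have h3 := hv.alt.1 4 0 5
    linarith [hB]
  have v541 : v 5 4 1 = 0 := by
    have h1 := hv.alt.1 5 4 1
    have h2 := hv.alt.2 4 5 1
    have h3 := hv.alt.1 4 1 5
    linarith [hv.z145]
  have v542 : v 5 4 2 = 0 := by
    have h1 := hv.alt.1 5 4 2
    have h2 := hv.alt.2 4 5 2
    have h3 := hv.alt.1 4 2 5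
    linarith [hv.z245]
  have v543 : v 5 4 3 = 0 := by
    have h1 := hv.alt.1 5 4 3
    have h2 := hv.alt.2 4 5 3
    have h3 := hv.alt.1 4 3 5
    linarith [hv.z345]
  have v544 : v 5 4 4 = 0 := by
    have h1 := hv.alt.2 5 4 4
    linarith
  have v545 : v 5 4 5 = 0 := by
    have h1 := hv.alt.1 5 4 5
    have h2 := hv.alt.2 4 5 5
    linarith
  have v550 : v 5 5 0 = 0 := by
    have h1 := hv.alt.1 5 5 0
    linarith
  have v551 : v 5 5 1 = 0 := by
    have h1 := hv.alt.1 5 5 1
    linarith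
  have v552 : v 5 5 2 = 0 := by
    have h1 := hv.alt.1 5 5 2
    linarith
  have v553 : v 5 5 3 = 0 := by
    have h1 := hv.alt.1 5 5 3
    linarith
  have v554 : v 5 5 4 = 0 := by
    have h1 := hv.alt.1 5 5 4
    linarith
  have v555 : v 5 5 5 = 0 := by
    have h1 := hv.alt.1 5 5 5
    linarith
  obtain ⟨L0, L1, L2, L3, L4, L5⟩ := slice_L v hv A B C D hA hB hC hD
  have hcyc : ∀ a b c, v a b c = v b c a := by
    intro a b c
    have h1 := hv.alt.1 a b c
    have h2 := hv.alt.2 b a c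
    linarith
  have h0 : ∑ k, ∑ l, v f k l * v j k l = ∑ k, ∑ l, (v k l j) * v k l f := by
    refine Finset.sum_congr rfl fun k _ => Finset.sum_congr rfl fun l _ => ?_
    rw [hcyc f k l, hcyc j k l]
    ring
  rw [h0]
  fin_cases f
  · change ∑ k, ∑ l, (v k l j) * v k l 0 = _
    rw [L0 (fun k l => v k l j)]
    fin_cases j <;>
      simp [v000, v001, v002, v003, v004, v005, v010, v011, v012, v013, v014, v015, v020, v021, v022, v023, v024, v025, v030, v031, v032, v033, v034, v035, v040, v041, v042, v043, v044, v045, v050, v051, v052, v053, v054, v055, v100, v101, v102, v103, v104, v105, v110, v111, v112, v113, v114, v115, v120, v121, v122, v123, v124, v125, v130, v131, v132, v133, v134, v135, v140, v141, v142, v143, v144, v145, v150, v151, v152, v153, v154, v155, v200, v201, v202, v203, v204, v205, v210, v211, v212, v213, v214, v215, v220, v221, v222, v223, v224, v225, v230, v231, v232, v233, v234, v235, v240, v241, v242, v243, v244, v245, v250, v251, v252, v253,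 v254, v255, v300, v301, v302, v303, v304, v305, v310, v311, v312, v313, v314, v315, v320, v321, v322, v323, v324, v325, v330, v331, v332, v333, v334, v335, v340, v341, v342, v343, v344, v345, v350, v351, v352, v353, v354, v355, v400, v401, v402, v403, v404, v405, v410, v411, v412, v413, v414, v415, v420, v421, v422, v423, v424, v425, v430, v431, v432, v433, v434, v435, v440, v441, v442, v443, v444, v445, v450, v451, v452, v453, v454, v455, v500, v501, v502, v503, v504, v505, v510, v511, v512, v513, v514, v515, v520, v521, v522, v523, v524, v525, v530, v531, v532, v533, v534, v535, v540, v541, v542, v543, v544, v545, v550, v551, v552, v553, v554, v555] <;> ring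
  · change ∑ k, ∑ l, (v k l j) * v k l 1 = _
    rw [L1 (fun k l => v k l j)]
    fin_cases j <;>
      simp [v000, v001, v002, v003, v004, v005, v010, v011, v012, v013, v014, v015, v020, v021, v022, v023, v024, v025, v030, v031, v032, v033, v034, v035, v040, v041, v042, v043, v044, v045, v050, v051, v052, v053, v054, v055, v100, v101, v102, v103, v104, v105, v110, v111, v112, v113, v114, v115, v120, v121, v122, v123, v124, v125, v130, v131, v132, v133, v134, v135, v140, v141, v142, v143, v144, v145, v150, v151, v152, v153, v154, v155, v200, v201, v202, v203, v204, v205, v210, v211, v212, v213, v214, v215, v220, v221, v222, v223, v224, v225, v230, v231, v232, v233, v234, v235, v240, v241, v242, v243, v244, v245, v250, v251, v252, v253, v254, v255, v300, v301, v302, v303, v304, v305, v310, v311, v312, v313, v314, v315, v320, v321, v322, v323, v324, v325, v330, v331, v332, v333, v334, v335, v340, v341, v342, v343, v344, v345, v350, v351, v352, v353, v354, v355, v400,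 v401, v402, v403, v404, v405, v410, v411, v412, v413, v414, v415, v420, v421, v422, v423, v424, v425, v430, v431, v432, v433, v434, v435, v440, v441, v442, v443, v444, v445, v450, v451, v452, v453, v454, v455, v500, v501, v502, v503, v504, v505, v510, v511, v512, v513, v514, v515, v520, v521, v522, v523, v524, v525, v530, v531, v532, v533, v534, v535, v540, v541, v542, v543, v544, v545, v550, v551, v552, v553, v554, v555] <;> ring
  · change ∑ k, ∑ l, (v k l j) * v k l 2 = _
    rw [L2 (fun k l => v k l j)]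
    fin_cases j <;>
      simp [v000, v001, v002, v003, v004, v005, v010, v011, v012, v013, v014, v015, v020, v021, v022, v023, v024, v025, v030, v031, v032, v033, v034, v035, v040, v041, v042, v043, v044, v045, v050, v051, v052, v053, v054, v055, v100, v101, v102, v103, v104, v105, v110, v111, v112, v113, v114, v115, v120, v121, v122, v123, v124, v125, v130, v131, v132, v133, v134, v135, v140, v141, v142, v143, v144, v145, v150, v151, v152, v153, v154, v155, v200, v201, v202, v203, v204, v205, v210, v211, v212, v213, v214, v215, v220, v221, v222, v223, v224, v225, v230, v231, v232, v233, v234, v235, v240, v241, v242, v243, v244, v245, v250, v251, v252, v253, v254, v255, v300, v301, v302, v303, v304, v305, v310, v311, v312, v313, v314, v315, v320, v321, v322, v323, v324, v325, v330, v331, v332, v333, v334, v335, v340, v341, v342, v343, v344, v345, v350, v351, v352, v353, v354, v355, v400, v401, v402, v403, v404, v405, v410, v411, v412, v413, v414, v415, v420, v421,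 v422, v423, v424, v425, v430, v431, v432, v433, v434, v435, v440, v441, v442, v443, v444, v445, v450, v451, v452, v453, v454, v455, v500, v501, v502, v503, v504, v505, v510, v511, v512, v513, v514, v515, v520, v521, v522, v523, v524, v525, v530, v531, v532, v533, v534, v535, v540, v541, v542, v543, v544, v545, v550, v551, v552, v553, v554, v555] <;> ring
  · change ∑ k, ∑ l, (v k l j) * v k l 3 = _
    rw [L3 (fun k l => v k l j)]
    fin_cases j <;>
      simp [v000, v001, v002, v003, v004, v005, v010, v011, v012, v013, v014, v015, v020, v021, v022, v023, v024, v025, v030, v031, v032, v033, v034, v035, v040, v041, v042, v043, v044, v045, v050, v051, v052, v053, v054, v055, v100, v101, v102, v103, v104, v105, v110, v111, v112, v113, v114, v115, v120, v121, v122, v123, v124, v125, v130, v131, v132, v133, v134, v135, v140, v141, v142, v143, v144, v145, v150, v151, v152, v153, v154, v155, v200, v201, v202, v203, v204, v205, v210, v211, v212, v213, v214, v215, v220,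 v221, v222, v223, v224, v225, v230, v231, v232, v233, v234, v235, v240, v241, v242, v243, v244, v245, v250, v251, v252, v253, v254, v255, v300, v301, v302, v303, v304, v305, v310, v311, v312, v313, v314, v315, v320, v321, v322, v323, v324, v325, v330, v331, v332, v333, v334, v335, v340, v341, v342, v343, v344, v345, v350, v351, v352, v353, v354, v355, v400, v401, v402, v403, v404, v405, v410, v411, v412, v413, v414, v415, v420, v421, v422, v423, v424, v425, v430, v431, v432, v433, v434, v435, v440, v441, v442, v443, v444, v445, v450, v451, v452, v453, v454, v455, v500, v501, v502, v503, v504, v505, v510, v511, v512, v513, v514, v515, v520, v521, v522, v523, v524, v525, v530, v531, v532, v533, v534, v535, v540, v541, v542, v543, v544, v545, v550, v551, v552, v553, v554, v555] <;> ring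
  · change ∑ k, ∑ l, (v k l j) * v k l 4 = _
    rw [L4 (fun k l => v k l j)]
    fin_cases j <;>
      simp [v000, v001, v002, v003, v004, v005, v010, v011, v012, v013, v014, v015, v020, v021, v022, v023, v024, v025, v030, v031, v032, v033, v034, v035, v040, v041, v042, v043, v044, v045, v050, v051, v052, v053, v054, v055, v100, v101, v102, v103, v104, v105, v110, v111, v112, v113, v114, v115, v120, v121, v122, v123, v124, v125, v130, v131, v132, v133, v134, v135, v140, v141, v142, v143, v144, v145, v150, v151, v152, v153, v154, v155, v200, v201, v202, v203, v204, v205, v210, v211, v212, v213, v214, v215, v220, v221, v222, v223, v224, v225, v230, v231, v232, v233, v234, v235, v240, v241, v242, v243, v244, v245, v250, v251, v252, v253, v254, v255, v300, v301, v302, v303, v304, v305, v310, v311, v312, v313, v314, v315, v320, v321, v322, v323, v324, v325, v330, v331, v332, v333, v334, v335, v340, v341, v342, v343, v344, v345, v350, v351, v352, v353, v354, v355, v400,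 v401, v402, v403, v404, v405, v410, v411, v412, v413, v414, v415, v420, v421, v422, v423, v424, v425, v430, v431, v432, v433, v434, v435, v440, v441, v442, v443, v444, v445, v450, v451, v452, v453, v454, v455, v500, v501, v502, v503, v504, v505, v510, v511, v512, v513, v514, v515, v520, v521, v522, v523, v524, v525, v530, v531, v532, v533, v534, v535, v540, v541, v542, v543, v544, v545, v550, v551, v552, v553, v554, v555] <;> ring
  · change ∑ k, ∑ l, (v k l j) * v k l 5 = _
    rw [L5 (fun k l => v k l j)]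
    fin_cases j <;>
      simp [v000, v001, v002, v003, v004, v005, v010, v011, v012, v013, v014, v015, v020, v021, v022, v023, v024, v025, v030, v031, v032, v033, v034, v035, v040, v041, v042, v043, v044, v045, v050, v051, v052, v053, v054, v055, v100, v101, v102, v103, v104, v105, v110, v111, v112, v113, v114, v115, v120, v121, v122, v123, v124, v125, v130, v131, v132, v133, v134, v135, v140, v141, v142, v143, v144, v145, v150, v151, v152, v153, v154, v155, v200, v201, v202, v203, v204, v205, v210, v211, v212, v213, v214, v215, v220, v221, v222, v223, v224, v225, v230, v231, v232, v233, v234, v235, v240, v241, v242, v243, v244, v245, v250, v251, v252, v253, v254, v255, v300, v301, v302, v303, v304, v305, v310, v311, v312, v313, v314, v315, v320, v321, v322, v323, v324, v325, v330, v331, v332, v333, v334, v335, v340, v341, v342, v343, v344, v345, v350, v351, v352, v353, v354, v355, v400, v401, v402, v403, v404, v405, v410, v411, v412, v413, v414, v415, v420, v421,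 v422, v423, v424, v425, v430, v431, v432, v433, v434, v435, v440, v441, v442, v443, v444, v445, v450, v451, v452, v453, v454, v455, v500, v501, v502, v503, v504, v505, v510, v511, v512, v513, v514, v515, v520, v521, v522, v523, v524, v525, v530, v531, v532, v533, v534, v535, v540, v541, v542, v543, v544, v545, v550, v551, v552, v553, v554, v555] <;> ring

theorem sum_perm (F : Fin 6 → Fin 6 → Fin 6 → Fin 6 → Fin 6 → ℝ) :
    ∑ i, ∑ j, ∑ k, ∑ f, ∑ l, F i j k f l = ∑ l, ∑ j, ∑ k, ∑ i, ∑ f, F i j k f l := by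
  calc ∑ i, ∑ j, ∑ k, ∑ f, ∑ l, F i j k f l
      = ∑ i, ∑ j, ∑ k, ∑ l, ∑ f, F i j k f l :=
        Finset.sum_congr rfl fun i _ => Finset.sum_congr rfl fun j _ =>
          Finset.sum_congr rfl fun k _ => Finset.sum_comm
    _ = ∑ i, ∑ j, ∑ l, ∑ k, ∑ f, F i j k f l :=
        Finset.sum_congr rfl fun i _ => Finset.sum_congr rfl fun j _ => Finset.sum_comm
    _ = ∑ i, ∑ l, ∑ j, ∑ k, ∑ f, F i j k f l :=
        Finset.sum_congr rfl fun i _ => Finset.sum_comm
    _ = ∑ l, ∑ i, ∑ j, ∑ k, ∑ f, F i j k f l := Finset.sum_comm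
    _ = ∑ l, ∑ j, ∑ i, ∑ k, ∑ f, F i j k f l :=
        Finset.sum_congr rfl fun l _ => Finset.sum_comm
    _ = ∑ l, ∑ j, ∑ k, ∑ i, ∑ f, F i j k f l :=
        Finset.sum_congr rfl fun l _ => Finset.sum_congr rfl fun j _ => Finset.sum_comm

/-- The Weitzenboeck form on a slice vector, in components; `K` any curvature tensor. -/
theorem T_slice (K : T4) (hK : CurvT K) (v : T3) (hv : IsSlice v) (A B C D : ℝ)
    (hA : v 0 1 2 = A) (hB : v 0 4 5 = B) (hC : v 3 1 5 = C) (hD : v 3 4 2 = D) :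
    Tform K v =
      (B ^ 2 + C ^ 2) * (K 0 1 0 1 + K 3 4 3 4) - 4 * B * C * K 0 1 3 4
      + (A ^ 2 + D ^ 2) * (K 0 4 0 4 + K 1 3 1 3) + 4 * A * D * K 0 4 1 3
      + (B ^ 2 + D ^ 2) * (K 0 2 0 2 + K 3 5 3 5) - 4 * B * D * K 0 2 3 5
      + (A ^ 2 + C ^ 2) * (K 0 5 0 5 + K 2 3 2 3) + 4 * A * C * K 0 5 2 3
      + (C ^ 2 + D ^ 2) * (K 1 2 1 2 + K 4 5 4 5) - 4 * C * D * K 1 2 4 5
      + (A ^ 2 + B ^ 2) * (K 1 5 1 5 + K 2 4 2 4) + 4 * A * B * K 1 5 2 4
      + (A ^ 2 + B ^ 2 + C ^ 2 + D ^ 2) * (K 0 3 0 3 + K 1 4 1 4 + K 2 5 2 5)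
      + 4 * (B * C - A * D) * K 0 3 1 4 + 4 * (B * D - A * C) * K 0 3 2 5
      + 4 * (C * D - A * B) * K 1 4 2 5 := by
  obtain ⟨L0, L1, L2, L3, L4, L5⟩ := slice_L v hv A B C D hA hB hC hD
  have hG := slice_G v hv A B C D hA hB hC hD
  have hT1 : ∑ i, ∑ j, ∑ f, K i j i f * ∑ k, ∑ l, v f k l * v j k l =
      ∑ i, ∑ j, K i j i j * (![2 * (A ^ 2 + B ^ 2), 2 * (A ^ 2 + C ^ 2), 2 * (A ^ 2 + D ^ 2), 2 * (C ^ 2 + D ^ 2), 2 * (B ^ 2 + D ^ 2), 2 * (B ^ 2 + C ^ 2)] : Fin 6 → ℝ) j := by
    refine Finset.sum_congr rfl fun i _ => Finset.sum_congr rfl fun j _ => ?_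
    simp only [hG, mul_ite, mul_zero, Finset.sum_ite_eq', Finset.mem_univ, if_true]
  have hT2 : ∑ i, ∑ j, ∑ k, ∑ f, K i j k f * ∑ l, v i f l * v j k l =
      ∑ l, ∑ j, ∑ k, (∑ i, ∑ f, K i j k f * v i f l) * v j k l := by
    calc ∑ i, ∑ j, ∑ k, ∑ f, K i j k f * ∑ l, v i f l * v j k l
        = ∑ i, ∑ j, ∑ k, ∑ f, ∑ l, (K i j k f * v i f l) * v j k l := by
          simp only [Finset.mul_sum, mul_assoc]
      _ = ∑ l, ∑ j, ∑ k, ∑ i, ∑ f, (K i j k f * v i f l) * v j k l := sum_perm _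
      _ = _ := by simp only [Finset.sum_mul]
  unfold Tform
  rw [hT1, hT2]
  have k0000 : K 0 0 0 0 = 0 := by
    have h1 := hK.anti1 0 0 0 0
    linarith
  have k0011 : K 0 0 1 1 = 0 := by
    have h1 := hK.anti1 0 0 1 1
    linarith
  have k0022 : K 0 0 2 2 = 0 := by
    have h1 := hK.anti1 0 0 2 2
    linarith
  have k0044 : K 0 0 4 4 = 0 := by
    have h1 := hK.anti1 0 0 4 4
    linarith
  have k0055 : K 0 0 5 5 = 0 := by
    have h1 := hK.anti1 0 0 5 5
    linarith
  have k0341 : K 0 3 4 1 = -K 0 3 1 4 := by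
    have h1 := hK.anti2 0 3 4 1
    linarith
  have k0352 : K 0 3 5 2 = -K 0 3 2 5 := by
    have h1 := hK.anti2 0 3 5 2
    linarith
  have k0431 : K 0 4 3 1 = -K 0 4 1 3 := by
    have h1 := hK.anti2 0 4 3 1
    linarith
  have k0532 : K 0 5 3 2 = -K 0 5 2 3 := by
    have h1 := hK.anti2 0 5 3 2
    linarith
  have k1010 : K 1 0 1 0 = K 0 1 0 1 := by
    have h1 := hK.anti1 1 0 1 0
    have h2 := hK.anti2 0 1 1 0
    linarith
  have k1043 : K 1 0 4 3 = K 0 1 3 4 := by
    have h1 := hK.anti1 1 0 4 3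
    have h2 := hK.anti2 0 1 4 3
    linarith
  have k1100 : K 1 1 0 0 = 0 := by
    have h1 := hK.anti1 1 1 0 0
    linarith
  have k1111 : K 1 1 1 1 = 0 := by
    have h1 := hK.anti1 1 1 1 1
    linarith
  have k1122 : K 1 1 2 2 = 0 := by
    have h1 := hK.anti1 1 1 2 2
    linarith
  have k1133 : K 1 1 3 3 = 0 := by
    have h1 := hK.anti1 1 1 3 3
    linarith
  have k1155 : K 1 1 5 5 = 0 := by
    have h1 := hK.anti1 1 1 5 5
    linarith
  have k1340 : K 1 3 4 0 = -K 0 4 1 3 := by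
    have h1 := hK.anti2 1 3 4 0
    have h2 := curv_symm K hK 1 3 0 4
    linarith
  have k1403 : K 1 4 0 3 = K 0 3 1 4 := by
    have h1 := curv_symm K hK 1 4 0 3
    linarith
  have k1430 : K 1 4 3 0 = -K 0 3 1 4 := by
    have h1 := hK.anti2 1 4 3 0
    have h2 := curv_symm K hK 1 4 0 3
    linarith
  have k1452 : K 1 4 5 2 = -K 1 4 2 5 := by
    have h1 := hK.anti2 1 4 5 2
    linarith
  have k1542 : K 1 5 4 2 = -K 1 5 2 4 := by
    have h1 := hK.anti2 1 5 4 2
    linarith
  have k2020 : K 2 0 2 0 = K 0 2 0 2 := by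
    have h1 := hK.anti1 2 0 2 0
    have h2 := hK.anti2 0 2 2 0
    linarith
  have k2053 : K 2 0 5 3 = K 0 2 3 5 := by
    have h1 := hK.anti1 2 0 5 3
    have h2 := hK.anti2 0 2 5 3
    linarith
  have k2121 : K 2 1 2 1 = K 1 2 1 2 := by
    have h1 := hK.anti1 2 1 2 1
    have h2 := hK.anti2 1 2 2 1
    linarith
  have k2154 : K 2 1 5 4 = K 1 2 4 5 := by
    have h1 := hK.anti1 2 1 5 4
    have h2 := hK.anti2 1 2 5 4
    linarith
  have k2200 : K 2 2 0 0 = 0 := by
    have h1 := hK.anti1 2 2 0 0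
    linarith
  have k2211 : K 2 2 1 1 = 0 := by
    have h1 := hK.anti1 2 2 1 1
    linarith
  have k2222 : K 2 2 2 2 = 0 := by
    have h1 := hK.anti1 2 2 2 2
    linarith
  have k2233 : K 2 2 3 3 = 0 := by
    have h1 := hK.anti1 2 2 3 3
    linarith
  have k2244 : K 2 2 4 4 = 0 := by
    have h1 := hK.anti1 2 2 4 4
    linarith
  have k2350 : K 2 3 5 0 = -K 0 5 2 3 := by
    have h1 := hK.anti2 2 3 5 0
    have h2 := curv_symm K hK 2 3 0 5
    linarith
  have k2451 : K 2 4 5 1 = -K 1 5 2 4 := by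
    have h1 := hK.anti2 2 4 5 1
    have h2 := curv_symm K hK 2 4 1 5
    linarith
  have k2503 : K 2 5 0 3 = K 0 3 2 5 := by
    have h1 := curv_symm K hK 2 5 0 3
    linarith
  have k2514 : K 2 5 1 4 = K 1 4 2 5 := by
    have h1 := curv_symm K hK 2 5 1 4
    linarith
  have k2530 : K 2 5 3 0 = -K 0 3 2 5 := by
    have h1 := hK.anti2 2 5 3 0
    have h2 := curv_symm K hK 2 5 0 3
    linarith
  have k2541 : K 2 5 4 1 = -K 1 4 2 5 := by
    have h1 := hK.anti2 2 5 4 1
    have h2 := curv_symm K hK 2 5 1 4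
    linarith
  have k3014 : K 3 0 1 4 = -K 0 3 1 4 := by
    have h1 := hK.anti1 3 0 1 4
    linarith
  have k3025 : K 3 0 2 5 = -K 0 3 2 5 := by
    have h1 := hK.anti1 3 0 2 5
    linarith
  have k3030 : K 3 0 3 0 = K 0 3 0 3 := by
    have h1 := hK.anti1 3 0 3 0
    have h2 := hK.anti2 0 3 3 0
    linarith
  have k3041 : K 3 0 4 1 = K 0 3 1 4 := by
    have h1 := hK.anti1 3 0 4 1
    have h2 := hK.anti2 0 3 4 1
    linarith
  have k3052 : K 3 0 5 2 = K 0 3 2 5 := by
    have h1 := hK.anti1 3 0 5 2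
    have h2 := hK.anti2 0 3 5 2
    linarith
  have k3104 : K 3 1 0 4 = -K 0 4 1 3 := by
    have h1 := hK.anti1 3 1 0 4
    have h2 := curv_symm K hK 1 3 0 4
    linarith
  have k3131 : K 3 1 3 1 = K 1 3 1 3 := by
    have h1 := hK.anti1 3 1 3 1
    have h2 := hK.anti2 1 3 3 1
    linarith
  have k3205 : K 3 2 0 5 = -K 0 5 2 3 := by
    have h1 := hK.anti1 3 2 0 5
    have h2 := curv_symm K hK 2 3 0 5
    linarith
  have k3232 : K 3 2 3 2 = K 2 3 2 3 := by
    have h1 := hK.anti1 3 2 3 2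
    have h2 := hK.anti2 2 3 3 2
    linarith
  have k3311 : K 3 3 1 1 = 0 := by
    have h1 := hK.anti1 3 3 1 1
    linarith
  have k3322 : K 3 3 2 2 = 0 := by
    have h1 := hK.anti1 3 3 2 2
    linarith
  have k3333 : K 3 3 3 3 = 0 := by
    have h1 := hK.anti1 3 3 3 3
    linarith
  have k3344 : K 3 3 4 4 = 0 := by
    have h1 := hK.anti1 3 3 4 4
    linarith
  have k3355 : K 3 3 5 5 = 0 := by
    have h1 := hK.anti1 3 3 5 5
    linarith
  have k3401 : K 3 4 0 1 = K 0 1 3 4 := by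
    have h1 := curv_symm K hK 3 4 0 1
    linarith
  have k3502 : K 3 5 0 2 = K 0 2 3 5 := by
    have h1 := curv_symm K hK 3 5 0 2
    linarith
  have k4013 : K 4 0 1 3 = -K 0 4 1 3 := by
    have h1 := hK.anti1 4 0 1 3
    linarith
  have k4040 : K 4 0 4 0 = K 0 4 0 4 := by
    have h1 := hK.anti1 4 0 4 0
    have h2 := hK.anti2 0 4 4 0
    linarith
  have k4103 : K 4 1 0 3 = -K 0 3 1 4 := by
    have h1 := hK.anti1 4 1 0 3
    have h2 := curv_symm K hK 1 4 0 3
    linarith
  have k4125 : K 4 1 2 5 = -K 1 4 2 5 := by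
    have h1 := hK.anti1 4 1 2 5
    linarith
  have k4130 : K 4 1 3 0 = K 0 3 1 4 := by
    have h1 := hK.anti1 4 1 3 0
    have h2 := hK.anti2 1 4 3 0
    have h3 := curv_symm K hK 1 4 0 3
    linarith
  have k4141 : K 4 1 4 1 = K 1 4 1 4 := by
    have h1 := hK.anti1 4 1 4 1
    have h2 := hK.anti2 1 4 4 1
    linarith
  have k4152 : K 4 1 5 2 = K 1 4 2 5 := by
    have h1 := hK.anti1 4 1 5 2
    have h2 := hK.anti2 1 4 5 2
    linarith
  have k4215 : K 4 2 1 5 = -K 1 5 2 4 := by
    have h1 := hK.anti1 4 2 1 5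
    have h2 := curv_symm K hK 2 4 1 5
    linarith
  have k4242 : K 4 2 4 2 = K 2 4 2 4 := by
    have h1 := hK.anti1 4 2 4 2
    have h2 := hK.anti2 2 4 4 2
    linarith
  have k4310 : K 4 3 1 0 = K 0 1 3 4 := by
    have h1 := hK.anti1 4 3 1 0
    have h2 := hK.anti2 3 4 1 0
    have h3 := curv_symm K hK 3 4 0 1
    linarith
  have k4343 : K 4 3 4 3 = K 3 4 3 4 := by
    have h1 := hK.anti1 4 3 4 3
    have h2 := hK.anti2 3 4 4 3
    linarith
  have k4400 : K 4 4 0 0 = 0 := by
    have h1 := hK.anti1 4 4 0 0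
    linarith
  have k4422 : K 4 4 2 2 = 0 := by
    have h1 := hK.anti1 4 4 2 2
    linarith
  have k4433 : K 4 4 3 3 = 0 := by
    have h1 := hK.anti1 4 4 3 3
    linarith
  have k4444 : K 4 4 4 4 = 0 := by
    have h1 := hK.anti1 4 4 4 4
    linarith
  have k4455 : K 4 4 5 5 = 0 := by
    have h1 := hK.anti1 4 4 5 5
    linarith
  have k4512 : K 4 5 1 2 = K 1 2 4 5 := by
    have h1 := curv_symm K hK 4 5 1 2
    linarith
  have k5023 : K 5 0 2 3 = -K 0 5 2 3 := by
    have h1 := hK.anti1 5 0 2 3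
    linarith
  have k5050 : K 5 0 5 0 = K 0 5 0 5 := by
    have h1 := hK.anti1 5 0 5 0
    have h2 := hK.anti2 0 5 5 0
    linarith
  have k5124 : K 5 1 2 4 = -K 1 5 2 4 := by
    have h1 := hK.anti1 5 1 2 4
    linarith
  have k5151 : K 5 1 5 1 = K 1 5 1 5 := by
    have h1 := hK.anti1 5 1 5 1
    have h2 := hK.anti2 1 5 5 1
    linarith
  have k5203 : K 5 2 0 3 = -K 0 3 2 5 := by
    have h1 := hK.anti1 5 2 0 3
    have h2 := curv_symm K hK 2 5 0 3
    linarith
  have k5214 : K 5 2 1 4 = -K 1 4 2 5 := by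
    have h1 := hK.anti1 5 2 1 4
    have h2 := curv_symm K hK 2 5 1 4
    linarith
  have k5230 : K 5 2 3 0 = K 0 3 2 5 := by
    have h1 := hK.anti1 5 2 3 0
    have h2 := hK.anti2 2 5 3 0
    have h3 := curv_symm K hK 2 5 0 3
    linarith
  have k5241 : K 5 2 4 1 = K 1 4 2 5 := by
    have h1 := hK.anti1 5 2 4 1
    have h2 := hK.anti2 2 5 4 1
    have h3 := curv_symm K hK 2 5 1 4
    linarith
  have k5252 : K 5 2 5 2 = K 2 5 2 5 := by
    have h1 := hK.anti1 5 2 5 2
    have h2 := hK.anti2 2 5 5 2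
    linarith
  have k5320 : K 5 3 2 0 = K 0 2 3 5 := by
    have h1 := hK.anti1 5 3 2 0
    have h2 := hK.anti2 3 5 2 0
    have h3 := curv_symm K hK 3 5 0 2
    linarith
  have k5353 : K 5 3 5 3 = K 3 5 3 5 := by
    have h1 := hK.anti1 5 3 5 3
    have h2 := hK.anti2 3 5 5 3
    linarith
  have k5421 : K 5 4 2 1 = K 1 2 4 5 := by
    have h1 := hK.anti1 5 4 2 1
    have h2 := hK.anti2 4 5 2 1
    have h3 := curv_symm K hK 4 5 1 2
    linarith
  have k5454 : K 5 4 5 4 = K 4 5 4 5 := by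
    have h1 := hK.anti1 5 4 5 4
    have h2 := hK.anti2 4 5 5 4
    linarith
  have k5500 : K 5 5 0 0 = 0 := by
    have h1 := hK.anti1 5 5 0 0
    linarith
  have k5511 : K 5 5 1 1 = 0 := by
    have h1 := hK.anti1 5 5 1 1
    linarith
  have k5533 : K 5 5 3 3 = 0 := by
    have h1 := hK.anti1 5 5 3 3
    linarith
  have k5544 : K 5 5 4 4 = 0 := by
    have h1 := hK.anti1 5 5 4 4
    linarith
  have k5555 : K 5 5 5 5 = 0 := by
    have h1 := hK.anti1 5 5 5 5
    linarith
  have b0314 : K 0 3 1 4 = K 0 1 3 4 + K 0 4 1 3 := by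
    have h1 := hK.bianchi 0 1 3 4
    have h2 := curv_symm K hK 1 3 0 4
    have h3 := hK.anti1 3 0 1 4
    linarith
  have b0325 : K 0 3 2 5 = K 0 2 3 5 + K 0 5 2 3 := by
    have h1 := hK.bianchi 0 2 3 5
    have h2 := curv_symm K hK 2 3 0 5
    have h3 := hK.anti1 3 0 2 5
    linarith
  have b1425 : K 1 4 2 5 = K 1 2 4 5 + K 1 5 2 4 := by
    have h1 := hK.bianchi 1 2 4 5
    have h2 := curv_symm K hK 2 4 1 5
    have h3 := hK.anti1 4 1 2 5
    linarith
  have e0 := L0 (fun j k => ∑ i, ∑ f, K i j k f * v i f 0)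
  have e1 := L1 (fun j k => ∑ i, ∑ f, K i j k f * v i f 1)
  have e2 := L2 (fun j k => ∑ i, ∑ f, K i j k f * v i f 2)
  have e3 := L3 (fun j k => ∑ i, ∑ f, K i j k f * v i f 3)
  have e4 := L4 (fun j k => ∑ i, ∑ f, K i j k f * v i f 4)
  have e5 := L5 (fun j k => ∑ i, ∑ f, K i j k f * v i f 5)
  simp only [L0, L1, L2, L3, L4, L5] at e0 e1 e2 e3 e4 e5
  rw [Fin.sum_univ_six (f := fun l => ∑ j, ∑ k, (∑ i, ∑ f, K i j k f * v i f l) * v j k l)]
  simp only [L0, L1, L2, L3, L4, L5]
  simp only [Fin.sum_univ_six, k0000, k0011, k0022, k0044, k0055, k0341, k0352, k0431, k0532, k1010, k1043, k1100, k1111, k1122, k1133, k1155, k1340, k1403, k1430, k1452, k1542, k2020, k2053, k2121, k2154, k2200, k2211, k2222, k2233, k2244, k2350, k2451, k2503, k2514, k2530, k2541, k3014, k3025, k3030, k3041, k3052, k3104, k3131, k3205, k3232, k3311, k3322, k3333, k3344, k3355, k3401, k3502, k4013, k4040, k4103, k4125, k4130, k4141, k4152, k4215, k4242, k4310, k4343, k4400, k4422, k4433,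 k4444, k4455, k4512, k5023, k5050, k5124, k5151, k5203, k5214, k5230, k5241, k5252, k5320, k5353, k5421, k5454, k5500, k5511, k5533, k5544, k5555, b0314, b0325, b1425]
  simp only [Matrix.cons_val_zero, Matrix.cons_val_one, Matrix.cons_val]
  ring

end FPA
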