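import Pool.Agent.Helper427.FPA.Defs



namespace FPA



theorem cert_pair (z : Fin 4 → ℝ) (a b : Fin 4) (hab : a ≠ b) :
    z a ^ 2 + z b ^ 2 ≤ ∑ c, z c ^ 2 := by
  have h1 := Finset.add_sum_erase Finset.univ (fun c => z c ^ 2) (Finset.mem_univ a)
  have h2 : z b ^ 2 ≤ ∑ c ∈ Finset.univ.erase a, z c ^ 2 :=
    Finset.single_le_sum (f := fun c => z c ^ 2) (fun c _ => sq_nonneg (z c))
      (Finset.mem_erase.mpr ⟨hab.symm, Finset.mem_univ b⟩)
  linarith

theorem cert_x (x : Fin 4 → ℝ) (hx : ∑ a, x a = 0) (a : Fin 4) :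
    x a ^ 2 ≤ 3 / 4 * ∑ c, x c ^ 2 := by
  have h1 := Finset.add_sum_erase Finset.univ (fun c => x c ^ 2) (Finset.mem_univ a)
  have h2 := Finset.add_sum_erase Finset.univ (fun c => x c) (Finset.mem_univ a)
  have h3 := sq_sum_le_card_mul_sum_sq (s := Finset.univ.erase a) (f := fun c => x c)
  have hc : (Finset.univ.erase a).card = 3 := by
    rw [Finset.card_erase_of_mem (Finset.mem_univ a)]; simp
  rw [hc] at h3
  have h4 : ∑ c ∈ Finset.univ.erase a, x c = - x a := by linarith
  rw [h4] at h3
  push_cast at h3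
  nlinarith

theorem cert_sum (c x : Fin 4 → ℝ) (a : Fin 4) (A B T : ℝ) (hA : c a = A)
    (hB : ∀ b, b ≠ a → c b ≤ B) (hBA : B ≤ A) (hT : 3 / 4 * A + 1 / 4 * B ≤ T)
    (hx : ∑ a, x a = 0) :
    ∑ b, c b * x b ^ 2 ≤ T * ∑ b, x b ^ 2 := by
  have h0 := cert_x x hx a
  have h1 := Finset.add_sum_erase Finset.univ (fun b => x b ^ 2) (Finset.mem_univ a)
  have h2 := Finset.add_sum_erase Finset.univ (fun b => c b * x b ^ 2) (Finset.mem_univ a)
  have h3 : ∑ b ∈ Finset.univ.erase a, c b * x b ^ 2 ≤ ∑ b ∈ Finset.univ.erase a, B * x b ^ 2 := by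
    apply Finset.sum_le_sum
    intro b hb
    exact mul_le_mul_of_nonneg_right (hB b (Finset.ne_of_mem_erase hb)) (sq_nonneg _)
  rw [← Finset.mul_sum] at h3
  rw [hA] at h2
  have hY : 0 ≤ ∑ b, x b ^ 2 := Finset.sum_nonneg fun b _ => sq_nonneg _
  set Y := ∑ b, x b ^ 2
  set E := ∑ b ∈ Finset.univ.erase a, x b ^ 2
  have h5 : E = Y - x a ^ 2 := by linarith
  rw [h5] at h3
  have h6 : (A - B) * x a ^ 2 ≤ (A - B) * (3 / 4 * Y) :=
    mul_le_mul_of_nonneg_left h0 (by linarith)
  nlinarith

/-- The choice of the multiplier of the first Bianchi identity. -/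
theorem certificate (z : Fin 4 → ℝ) :
    ∃ k : Fin 4 → ℝ, ∑ a, k a = 0 ∧
      (∀ a b, a ≠ b → 0 ≤ 4 * (z a - z b) ^ 2 + 2 * (k a + k b) ∧
        4 * (z a - z b) ^ 2 + 2 * (k a + k b) ≤ 9 * ∑ c, z c ^ 2) ∧
      (∀ a b, a ≠ b → 0 ≤ 4 * (z a + z b) ^ 2 + 2 * (k a + k b) ∧
        4 * (z a + z b) ^ 2 + 2 * (k a + k b) ≤ 9 * ∑ c, z c ^ 2) ∧
      (∀ x : Fin 4 → ℝ, ∑ a, x a = 0 →
        0 ≤ ∑ a, (16 * z a ^ 2 + 4 * k a) * x a ^ 2 ∧
        ∑ a, (16 * z a ^ 2 + 4 * k a) * x a ^ 2 ≤ (9 * ∑ c, z c ^ 2) * ∑ a, x a ^ 2) := by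
  set s := ∑ c, z c ^ 2 with hs
  have hs0 : 0 ≤ s := Finset.sum_nonneg fun c _ => sq_nonneg _
  have hpair := cert_pair z
  rw [← hs] at hpair
  by_cases hall : ∀ a, z a ^ 2 ≤ 5 / 8 * s
  · refine ⟨fun _ => 0, by simp, ?_, ?_, ?_⟩
    · intro a b hab
      have h := hpair a b hab
      constructor
      · nlinarith [sq_nonneg (z a - z b)]
      · nlinarith [sq_nonneg (z a + z b)]
    · intro a b hab
      have h := hpair a b hab
      constructor
      · nlinarith [sq_nonneg (z a + z b)]
      · nlinarith [sq_nonneg (z a - z b)]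
    · intro x hx
      constructor
      · apply Finset.sum_nonneg
        intro a _
        have := mul_nonneg (sq_nonneg (z a)) (sq_nonneg (x a))
        nlinarith
      · by_cases h9 : ∀ a, z a ^ 2 ≤ 9 / 16 * s
        · rw [Finset.mul_sum]
          apply Finset.sum_le_sum
          intro a _
          exact mul_le_mul_of_nonneg_right (by linarith [h9 a]) (sq_nonneg _)
        · push Not at h9
          obtain ⟨a, ha⟩ := h9
          refine cert_sum (fun b => 16 * z b ^ 2 + 4 * 0) x a (16 * z a ^ 2 + 4 * 0) (16 * (s - z a ^ 2)) (9 * s) rfl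
            ?_ ?_ ?_ hx
          · intro b hb
            have h := hpair a b hb.symm
            linarith
          · linarith
          · have := hall a
            linarith
  · push Not at hall
    obtain ⟨a₀, ha₀⟩ := hall
    have hk : ∀ a, a ≠ a₀ → (if a = a₀ then -(3 * z a₀ ^ 2 - 15 / 8 * s) else (3 * z a₀ ^ 2 - 15 / 8 * s) / 3) =
        (3 * z a₀ ^ 2 - 15 / 8 * s) / 3 := fun a h => if_neg h
    have hk0 : (if a₀ = a₀ then -(3 * z a₀ ^ 2 - 15 / 8 * s) else (3 * z a₀ ^ 2 - 15 / 8 * s) / 3) =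
        -(3 * z a₀ ^ 2 - 15 / 8 * s) := if_pos rfl
    have key : ∀ b, b ≠ a₀ → 2 * z a₀ * z b ≤ z b ^ 2 + 5 / 8 * s ∧ -(2 * z a₀ * z b) ≤ z b ^ 2 + 5 / 8 * s := by
      intro b hb
      have h := hpair a₀ b hb.symm
      have hsq : (2 * z a₀ * z b) ^ 2 ≤ (z b ^ 2 + 5 / 8 * s) ^ 2 := by
        have h1 : (2 * z a₀ * z b) ^ 2 = 4 * (z a₀ ^ 2) * (z b ^ 2) := by ring
        rw [h1]
        have h2 : z a₀ ^ 2 ≤ s - z b ^ 2 := by linarith
        have h3 : 4 * (z a₀ ^ 2) * (z b ^ 2) ≤ 4 * (s - z b ^ 2) * (z b ^ 2) := by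
          apply mul_le_mul_of_nonneg_right _ (sq_nonneg _)
          linarith
        have h4 : 4 * (s - z b ^ 2) * (z b ^ 2) ≤ (z b ^ 2 + 5 / 8 * s) ^ 2 := by
          set q := z b ^ 2
          nlinarith [sq_nonneg (q - 11 / 40 * s), sq_nonneg s]
        linarith
      have h5 : |2 * z a₀ * z b| ≤ z b ^ 2 + 5 / 8 * s :=
        abs_le_of_sq_le_sq hsq (by positivity)
      exact ⟨(abs_le.mp h5).2, by linarith [(abs_le.mp h5).1]⟩
    refine ⟨fun a => if a = a₀ then -(3 * z a₀ ^ 2 - 15 / 8 * s) else (3 * z a₀ ^ 2 - 15 / 8 * s) / 3, ?_, ?_, ?_, ?_⟩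
    · rw [← Finset.add_sum_erase Finset.univ _ (Finset.mem_univ a₀)]
      rw [Finset.sum_congr rfl (fun b hb => hk b (Finset.ne_of_mem_erase hb))]
      rw [Finset.sum_const, Finset.card_erase_of_mem (Finset.mem_univ a₀)]
      simp
      ring
    · intro a b hab
      simp only
      by_cases ha : a = a₀
      · subst ha
        rw [hk0, hk b hab.symm]
        have h := hpair a b hab
        have hk' := key b hab.symm
        constructor
        · nlinarith
        · nlinarith [sq_nonneg (z a + z b)]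
      · by_cases hb : b = a₀
        · subst hb
          rw [hk0, hk a ha]
          have h := hpair b a (Ne.symm hab)
          have hk' := key a hab
          constructor
          · nlinarith
          · nlinarith [sq_nonneg (z a + z b)]
        · rw [hk a ha, hk b hb]
          have h := hpair a₀ a (Ne.symm ha)
          have h' := hpair a₀ b (Ne.symm hb)
          have hq := sq_nonneg (z a₀)
          constructor
          · nlinarith [sq_nonneg (z a - z b)]
          · nlinarith [sq_nonneg (z a + z b)]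
    · intro a b hab
      simp only
      by_cases ha : a = a₀
      · subst ha
        rw [hk0, hk b hab.symm]
        have h := hpair a b hab
        have hk' := key b hab.symm
        constructor
        · nlinarith
        · nlinarith [sq_nonneg (z a - z b)]
      · by_cases hb : b = a₀
        · subst hb
          rw [hk0, hk a ha]
          have h := hpair b a (Ne.symm hab)
          have hk' := key a hab
          constructor
          · nlinarith
          · nlinarith [sq_nonneg (z a - z b)]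
        · rw [hk a ha, hk b hb]
          have h := hpair a₀ a (Ne.symm ha)
          have h' := hpair a₀ b (Ne.symm hb)
          have hq := sq_nonneg (z a₀)
          constructor
          · nlinarith [sq_nonneg (z a + z b)]
          · nlinarith [sq_nonneg (z a - z b)]
    · intro x hx
      constructor
      · apply Finset.sum_nonneg
        intro a _
        apply mul_nonneg _ (sq_nonneg _)
        beta_reduce
        by_cases ha : a = a₀
        · subst ha
          rw [hk0]
          nlinarith [sq_nonneg (z a)]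
        · rw [hk a ha]
          nlinarith [sq_nonneg (z a)]
      · refine cert_sum _ x a₀ (4 * z a₀ ^ 2 + 15 / 2 * s) (27 / 2 * s - 12 * z a₀ ^ 2) (9 * s) ?_ ?_ ?_ ?_ hx
        · beta_reduce
          rw [hk0]
          ring
        · intro b hb
          have h := hpair a₀ b hb.symm
          beta_reduce
          rw [hk b hb]
          linarith
        · linarith
        · linarith

end FPA
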