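import Pool.Agent.Helper427.FPA.Defs



namespace FPA



theorem four_sub (K : T4) (h4 : FourPos K) {ι : Type} [Fintype ι] [DecidableEq ι] (ξ : ι → T2)
    (ha : ∀ k a b, ξ k a b = - ξ k b a) (ho : ∀ k l, ip2 (ξ k) (ξ l) = if k = l then 1 else 0)
    (t : Finset ι) (ht : t.card = 4) : 0 < ∑ i ∈ t, Kq K (ξ i) (ξ i) := by
  have e : Fin 4 ≃ t := (Finset.equivFinOfCardEq ht).symm
  have h1 := h4 (fun k => ξ (e k)) (fun k a b => ha _ a b) (by
    intro k l
    rw [ho]
    by_cases h : k = l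
    · rw [if_pos h, if_pos (by rw [h])]
    · rw [if_neg h, if_neg]
      intro h2
      exact h (e.injective (Subtype.ext h2)))
  rw [← Finset.sum_coe_sort t (fun i => Kq K (ξ i) (ξ i))]
  rw [← Equiv.sum_comp e]
  exact h1

end FPA
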