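import Pool.Agent.Helper427.FPA.Defs



namespace FPA



/-- If all 4-subsets of the numbers `r i` have positive sum, then so has every weighted sum with
weights in `[0, s/4]` and total weight `s > 0`. -/
theorem lp_lemma {ι : Type} [Fintype ι] [DecidableEq ι] (r μ : ι → ℝ) (s : ℝ) (hs : 0 < s)
    (h4 : ∀ t : Finset ι, t.card = 4 → 0 < ∑ i ∈ t, r i)
    (h0 : ∀ i, 0 ≤ μ i) (h1 : ∀ i, μ i ≤ s / 4) (hsum : ∑ i, μ i = s) :
    0 < ∑ i, μ i * r i := by
  classical
  have hcard : 4 ≤ Fintype.card ι := by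
    by_contra hlt
    push Not at hlt
    have h2 : ∑ i, μ i ≤ ∑ _i : ι, s / 4 := Finset.sum_le_sum fun i _ => h1 i
    rw [Finset.sum_const, Finset.card_univ, nsmul_eq_mul, hsum] at h2
    have h3 : (Fintype.card ι : ℝ) ≤ 3 := by
      exact_mod_cast Nat.lt_succ_iff.mp hlt
    nlinarith
  have hne : (Finset.powersetCard 4 (Finset.univ : Finset ι)).Nonempty := by
    rw [Finset.powersetCard_nonempty, Finset.card_univ]
    exact hcard
  obtain ⟨t, ht, hmin⟩ := Finset.exists_min_image _ (fun t : Finset ι => ∑ i ∈ t, r i) hne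
  have htc : t.card = 4 := (Finset.mem_powersetCard.mp ht).2
  have htne : t.Nonempty := by
    rw [← Finset.card_pos, htc]; norm_num
  obtain ⟨i0, hi0, hmax⟩ := Finset.exists_max_image t r htne
  have hout : ∀ j, j ∉ t → r i0 ≤ r j := by
    intro j hj
    have hj' : j ∉ t.erase i0 := fun h => hj (Finset.mem_of_mem_erase h)
    have hc : (insert j (t.erase i0)).card = 4 := by
      rw [Finset.card_insert_of_notMem hj', Finset.card_erase_of_mem hi0, htc]
    have h5 := hmin (insert j (t.erase i0))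
      (Finset.mem_powersetCard.mpr ⟨Finset.subset_univ _, hc⟩)
    have h6 : ∑ i ∈ insert j (t.erase i0), r i = r j + ∑ i ∈ t.erase i0, r i :=
      Finset.sum_insert hj'
    have h7 : ∑ i ∈ t.erase i0, r i + r i0 = ∑ i ∈ t, r i := Finset.sum_erase_add t r hi0
    linarith
  have hsplit : ∑ i, μ i * r i = ∑ i, μ i * (r i - r i0) + r i0 * s := by
    rw [← hsum, Finset.mul_sum, ← Finset.sum_add_distrib]
    refine Finset.sum_congr rfl fun i _ => ?_
    ring
  have hsub : ∑ i ∈ t, μ i * (r i - r i0) ≤ ∑ i, μ i * (r i - r i0) := by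
    refine Finset.sum_le_sum_of_subset_of_nonneg (Finset.subset_univ t) ?_
    intro i _ hi
    exact mul_nonneg (h0 i) (sub_nonneg.mpr (hout i hi))
  have hin : ∑ i ∈ t, (s / 4) * (r i - r i0) ≤ ∑ i ∈ t, μ i * (r i - r i0) := by
    refine Finset.sum_le_sum fun i hi => ?_
    have h8 := h1 i
    have h9 := hmax i hi
    nlinarith
  have heq : ∑ i ∈ t, (s / 4) * (r i - r i0) = (s / 4) * ∑ i ∈ t, r i - s * r i0 := by
    rw [← Finset.mul_sum, Finset.sum_sub_distrib, Finset.sum_const, htc]
    simp only [nsmul_eq_mul]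
    push_cast
    ring
  have hpos : 0 < (s / 4) * ∑ i ∈ t, r i := mul_pos (by linarith) (h4 t htc)
  rw [hsplit]
  linarith

end FPA
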