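import Pool.Agent.Helper427.FPA.Defs



namespace FPA



open Matrix in
/-- Spectral theorem for a symmetric 3×3 matrix with spectrum in `[0,m]`. -/
theorem spectral3 (Q : Fin 3 → Fin 3 → ℝ) (hQ : ∀ i j, Q i j = Q j i) (m : ℝ)
    (h0 : ∀ t : Fin 3 → ℝ, 0 ≤ ∑ i, ∑ j, Q i j * t i * t j)
    (h1 : ∀ t : Fin 3 → ℝ, ∑ i, ∑ j, Q i j * t i * t j ≤ m * ∑ i, t i ^ 2) :
    ∃ (ν : Fin 3 → ℝ) (n : Fin 3 → Fin 3 → ℝ),
      (∀ i j, ∑ a, n i a * n j a = if i = j then 1 else 0) ∧
      (∀ a b, Q a b = ∑ i, ν i * n i a * n i b) ∧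
      (∀ i, 0 ≤ ν i ∧ ν i ≤ m) ∧ ∑ i, ν i = ∑ a, Q a a := by
  have hM : (Matrix.of Q).IsHermitian := by
    ext i j
    simp only [Matrix.conjTranspose_apply, Matrix.of_apply, star_trivial]
    exact hQ j i
  obtain ⟨ν, hν⟩ : ∃ ν : Fin 3 → ℝ, ν = hM.eigenvalues := ⟨_, rfl⟩
  obtain ⟨n, hn⟩ : ∃ n : Fin 3 → Fin 3 → ℝ, n = fun i a => hM.eigenvectorBasis i a := ⟨_, rfl⟩
  have horth : ∀ i j, ∑ a, n i a * n j a = if i = j then 1 else 0 := by
    intro i j
    have h := orthonormal_iff_ite.mp hM.eigenvectorBasis.orthonormal i j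
    rw [PiLp.inner_apply] at h
    rw [← h, hn]
    refine Finset.sum_congr rfl fun a _ => ?_
    simp only [RCLike.inner_apply, conj_trivial]
    ring
  have heig : ∀ i a, ∑ b, Q a b * n i b = ν i * n i a := by
    intro i a
    have h := congrFun (hM.mulVec_eigenvectorBasis i) a
    rw [hν, hn]
    exact h
  have hU1 : (Matrix.of fun a i => n i a)ᵀ * (Matrix.of fun a i => n i a) = (1 : Matrix (Fin 3) (Fin 3) ℝ) := by
    ext i j
    rw [Matrix.mul_apply, Matrix.one_apply, ← horth i j]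
    rfl
  have hU2 : (Matrix.of fun a i => n i a) * (Matrix.of fun a i => n i a)ᵀ = (1 : Matrix (Fin 3) (Fin 3) ℝ) :=
    mul_eq_one_comm.mp hU1
  have hcomp : ∀ a b, ∑ i, n i a * n i b = if a = b then 1 else 0 := by
    intro a b
    have h := congrFun (congrFun hU2 a) b
    rw [Matrix.mul_apply, Matrix.one_apply] at h
    exact h
  have hQab : ∀ a b, Q a b = ∑ i, ν i * n i a * n i b := by
    intro a b
    have h2 : ∑ i, ν i * n i a * n i b = ∑ i, ∑ c, Q a c * n i c * n i b := by
      refine Finset.sum_congr rfl fun i _ => ?_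
      rw [← heig i a, Finset.sum_mul]
    rw [h2, Finset.sum_comm]
    have h3 : ∀ c, ∑ i, Q a c * n i c * n i b = Q a c * (if c = b then 1 else 0) := by
      intro c
      rw [← hcomp c b, Finset.mul_sum]
      exact Finset.sum_congr rfl fun i _ => by ring
    rw [Finset.sum_congr rfl fun c _ => h3 c]
    simp
  have htest : ∀ i, ∑ a, ∑ b, Q a b * n i a * n i b = ν i := by
    intro i
    have h2 : ∀ a, ∑ b, Q a b * n i a * n i b = ν i * (n i a * n i a) := by
      intro a
      have : ∑ b, Q a b * n i a * n i b = n i a * ∑ b, Q a b * n i b := by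
        rw [Finset.mul_sum]
        exact Finset.sum_congr rfl fun b _ => by ring
      rw [this, heig]
      ring
    rw [Finset.sum_congr rfl fun a _ => h2 a, ← Finset.mul_sum, horth i i, if_pos rfl, mul_one]
  refine ⟨ν, n, horth, hQab, fun i => ⟨?_, ?_⟩, ?_⟩
  · rw [← htest i]; exact h0 (n i)
  · have h2 := h1 (n i)
    rw [htest i] at h2
    have h3 : ∑ a, n i a ^ 2 = 1 := by
      have := horth i i
      rw [if_pos rfl] at this
      rw [← this]
      exact Finset.sum_congr rfl fun a _ => by ring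
    rwa [h3, mul_one] at h2
  · have h2 : ∑ a, Q a a = ∑ a, ∑ i, ν i * n i a * n i a := Finset.sum_congr rfl fun a _ => hQab a a
    rw [h2, Finset.sum_comm]
    refine Finset.sum_congr rfl fun i _ => ?_
    have h3 := horth i i
    rw [if_pos rfl] at h3
    calc ν i = ν i * ∑ a, n i a * n i a := by rw [h3, mul_one]
      _ = _ := by
        rw [Finset.mul_sum]
        exact Finset.sum_congr rfl fun a _ => by ring

end FPA
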