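import Pool.Agent.Helper427.FPA.Defs



namespace FPA



theorem ip2_add_left (x y z : T2) : ip2 (x + y) z = ip2 x z + ip2 y z := by
  simp only [ip2, Pi.add_apply, add_mul, Finset.sum_add_distrib, mul_add]

theorem ip2_sub_left (x y z : T2) : ip2 (x - y) z = ip2 x z - ip2 y z := by
  simp only [ip2, Pi.sub_apply, sub_mul, Finset.sum_sub_distrib, mul_sub]

theorem ip2_smul_left (r : ℝ) (x z : T2) : ip2 (r • x) z = r * ip2 x z := by
  simp only [ip2, Pi.smul_apply, smul_eq_mul, mul_assoc, ← Finset.mul_sum]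
  ring

theorem ip2_comm' (x z : T2) : ip2 x z = ip2 z x := by
  simp only [ip2, mul_comm]

theorem ip2_add_right (x y z : T2) : ip2 z (x + y) = ip2 z x + ip2 z y := by
  rw [ip2_comm', ip2_add_left, ip2_comm' x, ip2_comm' y]

theorem ip2_sub_right (x y z : T2) : ip2 z (x - y) = ip2 z x - ip2 z y := by
  rw [ip2_comm', ip2_sub_left, ip2_comm' x, ip2_comm' y]

theorem ip2_smul_right (r : ℝ) (x z : T2) : ip2 z (r • x) = r * ip2 z x := by
  rw [ip2_comm', ip2_smul_left, ip2_comm' x]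

theorem ip2_wd (a b c d : Fin 6) : ip2 (wd a b) (wd c d) =
    (if a = c ∧ b = d then 1 else 0) - (if a = d ∧ b = c then 1 else 0) := by
  have h : ∀ (p q r s : Fin 6), (∑ i, ∑ j, (if i = p ∧ j = q then (1:ℝ) else 0) *
      (if i = r ∧ j = s then (1:ℝ) else 0)) = if p = r ∧ q = s then 1 else 0 := by
    intro p q r s
    rw [Finset.sum_eq_single p, Finset.sum_eq_single q]
    · simp
    · intro b _ hb; simp [hb]
    · simp
    · intro b _ hb; simp [hb]
    · simp
  have e : ip2 (wd a b) (wd c d) = (1/2) * (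
      (∑ i, ∑ j, (if i = a ∧ j = b then (1:ℝ) else 0) * (if i = c ∧ j = d then (1:ℝ) else 0))
      - (∑ i, ∑ j, (if i = a ∧ j = b then (1:ℝ) else 0) * (if i = d ∧ j = c then (1:ℝ) else 0))
      - (∑ i, ∑ j, (if i = b ∧ j = a then (1:ℝ) else 0) * (if i = c ∧ j = d then (1:ℝ) else 0))
      + (∑ i, ∑ j, (if i = b ∧ j = a then (1:ℝ) else 0) * (if i = d ∧ j = c then (1:ℝ) else 0))) := by
    simp only [ip2, wd, ← Finset.sum_sub_distrib, ← Finset.sum_add_distrib]
    congr 1
    refine Finset.sum_congr rfl fun i _ => Finset.sum_congr rfl fun j _ => ?_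
    ring
  rw [e, h, h, h, h]
  have e1 : (b = c ∧ a = d) = (a = d ∧ b = c) := by rw [and_comm]
  have e2 : (b = d ∧ a = c) = (a = c ∧ b = d) := by rw [and_comm]
  simp only [e1, e2]
  ring

theorem wd_anti (p q a b : Fin 6) : wd p q a b = - wd p q b a := by
  simp only [wd]
  have e1 : (a = p ∧ b = q) = (b = q ∧ a = p) := by rw [and_comm]
  have e2 : (b = p ∧ a = q) = (a = q ∧ b = p) := by rw [and_comm]
  simp only [e1, e2]
  ring

theorem s2 : (Real.sqrt 2)⁻¹ * (Real.sqrt 2)⁻¹ = 1 / 2 := by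
  rw [← mul_inv, Real.mul_self_sqrt (by norm_num)]; norm_num

theorem ip2_hv (s t : Fin 3 → ℝ) : ip2 (hv s) (hv t) = ∑ a, s a * t a := by
  simp only [hv, ip2_add_left, ip2_add_right, ip2_smul_left, ip2_smul_right, ip2_wd,
    Fin.sum_univ_three]
  simp
  ring

theorem rt_anti (k : Fin 12) (a b : Fin 6) : rt k a b = - rt k b a := by
  have h1 : ∀ (p q r s : Fin 6), ((Real.sqrt 2)⁻¹ • (wd p q + wd r s)) a b =
      - ((Real.sqrt 2)⁻¹ • (wd p q + wd r s)) b a := by
    intro p q r s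
    simp only [Pi.smul_apply, Pi.add_apply, smul_eq_mul]
    rw [wd_anti p q a b, wd_anti r s a b]; ring
  have h2 : ∀ (p q r s : Fin 6), ((Real.sqrt 2)⁻¹ • (wd p q - wd r s)) a b =
      - ((Real.sqrt 2)⁻¹ • (wd p q - wd r s)) b a := by
    intro p q r s
    simp only [Pi.smul_apply, Pi.sub_apply, smul_eq_mul]
    rw [wd_anti p q a b, wd_anti r s a b]; ring
  fin_cases k <;> first | exact h1 _ _ _ _ | exact h2 _ _ _ _

theorem ip2_rt (k l : Fin 12) : ip2 (rt k) (rt l) = if k = l then 1 else 0 := by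
  fin_cases k <;> fin_cases l <;>
  · simp [rt, ip2_smul_left, ip2_smul_right, ip2_add_left, ip2_sub_left, ip2_add_right,
      ip2_sub_right, ip2_wd]
    try (linarith [s2])

theorem ip2_rt_hv (k : Fin 12) (t : Fin 3 → ℝ) : ip2 (rt k) (hv t) = 0 := by
  fin_cases k <;>
  · simp [rt, hv, ip2_smul_left, ip2_smul_right, ip2_add_left, ip2_sub_left, ip2_add_right,
      ip2_sub_right, ip2_wd, s2]

theorem xi_on (n : Fin 3 → Fin 3 → ℝ)
    (hn : ∀ i j, ∑ a, n i a * n j a = if i = j then 1 else 0) :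
    (∀ k a b, xi n k a b = - xi n k b a) ∧
    (∀ k l, ip2 (xi n k) (xi n l) = if k = l then 1 else 0) := by
  constructor
  · rintro (k | i) a b
    · exact rt_anti k a b
    · simp only [xi, Sum.elim_inr, hv, Pi.add_apply, Pi.smul_apply, smul_eq_mul]
      rw [wd_anti 0 3 a b, wd_anti 1 4 a b, wd_anti 2 5 a b]; ring
  · rintro (k | i) (l | j)
    · simp only [xi, Sum.elim_inl, Sum.inl.injEq]
      exact ip2_rt k l
    · simp only [xi, Sum.elim_inl, Sum.elim_inr, reduceCtorEq, if_false]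
      exact ip2_rt_hv k (n j)
    · simp only [xi, Sum.elim_inl, Sum.elim_inr, reduceCtorEq, if_false]
      rw [ip2_comm']
      exact ip2_rt_hv l (n i)
    · simp only [xi, Sum.elim_inr, Sum.inr.injEq]
      rw [ip2_hv]
      exact hn i j

end FPA
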