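import Pool.Agent.Helper427.FPA.Defs
import Pool.Agent.Helper427.FPA.P_curv_symm
import Pool.Agent.Helper427.FPA.P_lp_lemma
import Pool.Agent.Helper427.FPA.P_certificate
import Pool.Agent.Helper427.FPA.P_T_slice
import Pool.Agent.Helper427.FPA.P_spectral3
import Pool.Agent.Helper427.FPA.P_xi_on
import Pool.Agent.Helper427.FPA.P_Kq_root
import Pool.Agent.Helper427.FPA.P_Kq_cartan
import Pool.Agent.Helper427.FPA.P_four_sub



namespace FPA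



lemma sum12_352 (f : Fin 12 → ℝ) : ∑ i, f i =
    f 0 + f 1 + f 2 + f 3 + f 4 + f 5 + f 6 + f 7 + f 8 + f 9 + f 10 + f 11 := by
  rw [Fin.sum_univ_castSucc, Fin.sum_univ_castSucc, Fin.sum_univ_castSucc,
    Fin.sum_univ_castSucc, Fin.sum_univ_eight]
  rfl

lemma slice_sorted_352 (v : T3) (hs : IsSlice v) (hA : v 0 1 2 = 0) (hB : v 0 4 5 = 0)
    (hC : v 3 1 5 = 0) (hD : v 3 4 2 = 0) (a b c : Fin 6) (hab : a < b) (hbc : b < c) :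
    v a b c = 0 := by
  have hC' : v 1 3 5 = 0 := by rw [hs.alt.1, hC, neg_zero]
  have hD' : v 2 3 4 = 0 := by
    rw [hs.alt.1 2 3 4, hs.alt.2 3 2 4, hD, neg_zero, neg_zero]
  have z1 := hs.z013
  have z2 := hs.z014
  have z3 := hs.z015
  have z4 := hs.z023
  have z5 := hs.z024
  have z6 := hs.z025
  have z7 := hs.z034
  have z8 := hs.z035
  have z9 := hs.z123
  have z10 := hs.z124
  have z11 := hs.z125
  have z12 := hs.z134
  have z13 := hs.z145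
  have z14 := hs.z235
  have z15 := hs.z245
  have z16 := hs.z345
  fin_cases a <;> fin_cases b <;> first
    | exact absurd hab (by decide)
    | (fin_cases c <;> first
        | exact absurd hbc (by decide)
        | assumption)

lemma slice_zero_352 (v : T3) (hs : IsSlice v) (hA : v 0 1 2 = 0) (hB : v 0 4 5 = 0)
    (hC : v 3 1 5 = 0) (hD : v 3 4 2 = 0) : v = 0 := by
  have h0 := slice_sorted_352 v hs hA hB hC hD
  have a1 := hs.alt.1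
  have a2 := hs.alt.2
  have e1 : ∀ a c, v a a c = 0 := fun a c => by linarith [a1 a a c]
  have e2 : ∀ a b, v a b b = 0 := fun a b => by linarith [a2 a b b]
  have e3 : ∀ a b, v a b a = 0 := fun a b => by rw [a1, e2, neg_zero]
  funext a b c
  show v a b c = 0
  rcases lt_trichotomy a b with h1 | h1 | h1
  · rcases lt_trichotomy b c with h2 | h2 | h2
    · exact h0 a b c h1 h2
    · rw [h2, e2]
    · rcases lt_trichotomy a c with h3 | h3 | h3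
      · rw [a2, h0 a c b h3 h2, neg_zero]
      · rw [h3, e3]
      · rw [a2, a1, h0 c a b h3 h1, neg_zero, neg_zero]
  · rw [h1, e1]
  · rcases lt_trichotomy b c with h2 | h2 | h2
    · rcases lt_trichotomy a c with h3 | h3 | h3
      · rw [a1, h0 b a c h1 h3, neg_zero]
      · rw [h3, e3]
      · rw [a1, a2, h0 b c a h2 h3, neg_zero, neg_zero]
    · rw [h2, e2]
    · rw [a1, a2, a1, h0 c b a h2 h1, neg_zero, neg_zero, neg_zero]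

theorem slice_pos (K : T4) (hK : CurvT K) (h4 : FourPos K) (v : T3) (hv : IsSlice v)
    (hne : v ≠ 0) : 0 < Tform K v := by
  set A := v 0 1 2 with hA
  set B := v 0 4 5 with hB
  set C := v 3 1 5 with hC
  set D := v 3 4 2 with hD
  have hN : 0 < A ^ 2 + B ^ 2 + C ^ 2 + D ^ 2 := by
    by_contra hcon
    push Not at hcon
    have hA0 : A = 0 := by
      have : A ^ 2 = 0 := le_antisymm (by linarith only [hcon, sq_nonneg B, sq_nonneg C, sq_nonneg D]) (sq_nonneg A)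
      exact pow_eq_zero_iff (two_ne_zero) |>.1 this
    have hB0 : B = 0 := by
      have : B ^ 2 = 0 := le_antisymm (by linarith only [hcon, sq_nonneg A, sq_nonneg C, sq_nonneg D]) (sq_nonneg B)
      exact pow_eq_zero_iff (two_ne_zero) |>.1 this
    have hC0 : C = 0 := by
      have : C ^ 2 = 0 := le_antisymm (by linarith only [hcon, sq_nonneg A, sq_nonneg B, sq_nonneg D]) (sq_nonneg C)
      exact pow_eq_zero_iff (two_ne_zero) |>.1 this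
    have hD0 : D = 0 := by
      have : D ^ 2 = 0 := le_antisymm (by linarith only [hcon, sq_nonneg A, sq_nonneg B, sq_nonneg C]) (sq_nonneg D)
      exact pow_eq_zero_iff (two_ne_zero) |>.1 this
    exact hne (slice_zero_352 v hv hA0 hB0 hC0 hD0)
  have hT := T_slice K hK v hv A B C D rfl rfl rfl rfl
  clear_value A B C D
  -- new variables
  obtain ⟨z, hz0, hz1, hz2, hz3⟩ : ∃ z : Fin 4 → ℝ, z 0 = (A - B - C - D) / 4 ∧
      z 1 = (A - B + C + D) / 4 ∧ z 2 = (A + B - C + D) / 4 ∧ z 3 = (A + B + C - D) / 4 :=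
    ⟨![(A - B - C - D) / 4, (A - B + C + D) / 4, (A + B - C + D) / 4, (A + B + C - D) / 4],
      rfl, rfl, rfl, rfl⟩
  have eA : A = z 0 + z 1 + z 2 + z 3 := by rw [hz0, hz1, hz2, hz3]; ring
  have eB : B = -z 0 - z 1 + z 2 + z 3 := by rw [hz0, hz1, hz2, hz3]; ring
  have eC : C = -z 0 + z 1 - z 2 + z 3 := by rw [hz0, hz1, hz2, hz3]; ring
  have eD : D = -z 0 + z 1 + z 2 - z 3 := by rw [hz0, hz1, hz2, hz3]; ring
  clear hz0 hz1 hz2 hz3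
  subst eA eB eC eD
  obtain ⟨k, hk, hm, hp, hx⟩ := certificate z
  rw [Fin.sum_univ_four] at hk
  have hk0 : k 0 = -k 1 - k 2 - k 3 := by linarith
  set P : ℝ := ∑ c, z c ^ 2 with hP
  have hP' : P = z 0 ^ 2 + z 1 ^ 2 + z 2 ^ 2 + z 3 ^ 2 := by rw [hP, Fin.sum_univ_four]
  set w : Fin 12 → ℝ := ![4 * (z 2 - z 1) ^ 2 + 2 * (k 2 + k 1), 4 * (z 3 - z 0) ^ 2 + 2 * (k 3 + k 0),
    4 * (z 1 + z 2) ^ 2 + 2 * (k 1 + k 2), 4 * (z 0 + z 3) ^ 2 + 2 * (k 0 + k 3),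
    4 * (z 3 - z 1) ^ 2 + 2 * (k 3 + k 1), 4 * (z 2 - z 0) ^ 2 + 2 * (k 2 + k 0),
    4 * (z 1 + z 3) ^ 2 + 2 * (k 1 + k 3), 4 * (z 0 + z 2) ^ 2 + 2 * (k 0 + k 2),
    4 * (z 3 - z 2) ^ 2 + 2 * (k 3 + k 2), 4 * (z 1 - z 0) ^ 2 + 2 * (k 1 + k 0),
    4 * (z 2 + z 3) ^ 2 + 2 * (k 2 + k 3), 4 * (z 0 + z 1) ^ 2 + 2 * (k 0 + k 1)] with hw
  have w0 : w 0 = 4 * (z 2 - z 1) ^ 2 + 2 * (k 2 + k 1) := rfl
  have w1 : w 1 = 4 * (z 3 - z 0) ^ 2 + 2 * (k 3 + k 0) := rfl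
  have w2 : w 2 = 4 * (z 1 + z 2) ^ 2 + 2 * (k 1 + k 2) := rfl
  have w3 : w 3 = 4 * (z 0 + z 3) ^ 2 + 2 * (k 0 + k 3) := rfl
  have w4 : w 4 = 4 * (z 3 - z 1) ^ 2 + 2 * (k 3 + k 1) := rfl
  have w5 : w 5 = 4 * (z 2 - z 0) ^ 2 + 2 * (k 2 + k 0) := rfl
  have w6 : w 6 = 4 * (z 1 + z 3) ^ 2 + 2 * (k 1 + k 3) := rfl
  have w7 : w 7 = 4 * (z 0 + z 2) ^ 2 + 2 * (k 0 + k 2) := rfl
  have w8 : w 8 = 4 * (z 3 - z 2) ^ 2 + 2 * (k 3 + k 2) := rfl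
  have w9 : w 9 = 4 * (z 1 - z 0) ^ 2 + 2 * (k 1 + k 0) := rfl
  have w10 : w 10 = 4 * (z 2 + z 3) ^ 2 + 2 * (k 2 + k 3) := rfl
  have w11 : w 11 = 4 * (z 0 + z 1) ^ 2 + 2 * (k 0 + k 1) := rfl
  have hwb : ∀ i, 0 ≤ w i ∧ w i ≤ 9 * P := by
    intro i
    fin_cases i
    · exact hm 2 1 (by decide)
    · exact hm 3 0 (by decide)
    · exact hp 1 2 (by decide)
    · exact hp 0 3 (by decide)
    · exact hm 3 1 (by decide)
    · exact hm 2 0 (by decide)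
    · exact hp 1 3 (by decide)
    · exact hp 0 2 (by decide)
    · exact hm 3 2 (by decide)
    · exact hm 1 0 (by decide)
    · exact hp 2 3 (by decide)
    · exact hp 0 1 (by decide)
  -- Cartan matrix
  set q01 : ℝ := 4 * (z 0 ^ 2 - z 1 ^ 2 - z 2 ^ 2 + z 3 ^ 2) - 2 * (k 1 + k 2) with hq01
  set q02 : ℝ := 4 * (z 0 ^ 2 - z 1 ^ 2 + z 2 ^ 2 - z 3 ^ 2) - 2 * (k 1 + k 3) with hq02
  set q12 : ℝ := 4 * (z 0 ^ 2 + z 1 ^ 2 - z 2 ^ 2 - z 3 ^ 2) - 2 * (k 2 + k 3) with hq12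
  set Q : Fin 3 → Fin 3 → ℝ := ![![4 * P, q01, q02], ![q01, 4 * P, q12], ![q02, q12, 4 * P]] with hQ
  have Q00 : Q 0 0 = 4 * P := rfl
  have Q11 : Q 1 1 = 4 * P := rfl
  have Q22 : Q 2 2 = 4 * P := rfl
  have Q01 : Q 0 1 = q01 := rfl
  have Q02 : Q 0 2 = q02 := rfl
  have Q12 : Q 1 2 = q12 := rfl
  have Q10 : Q 1 0 = q01 := rfl
  have Q20 : Q 2 0 = q02 := rfl
  have Q21 : Q 2 1 = q12 := rfl
  have hQs : ∀ i j, Q i j = Q j i := by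
    intro i j
    fin_cases i <;> fin_cases j <;> rfl
  have hform : ∀ t : Fin 3 → ℝ, ∃ x : Fin 4 → ℝ, ∑ a, x a = 0 ∧ ∑ a, x a ^ 2 = ∑ i, t i ^ 2 ∧
      ∑ i, ∑ j, Q i j * t i * t j = ∑ a, (16 * z a ^ 2 + 4 * k a) * x a ^ 2 := by
    intro t
    obtain ⟨x, hx0, hx1, hx2, hx3⟩ : ∃ x : Fin 4 → ℝ, x 0 = (t 0 + t 1 + t 2) / 2 ∧
        x 1 = (t 0 - t 1 - t 2) / 2 ∧ x 2 = (-t 0 + t 1 - t 2) / 2 ∧
        x 3 = (-t 0 - t 1 + t 2) / 2 :=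
      ⟨![(t 0 + t 1 + t 2) / 2, (t 0 - t 1 - t 2) / 2, (-t 0 + t 1 - t 2) / 2,
        (-t 0 - t 1 + t 2) / 2], rfl, rfl, rfl, rfl⟩
    refine ⟨x, ?_, ?_, ?_⟩
    · rw [Fin.sum_univ_four, hx0, hx1, hx2, hx3]; ring
    · rw [Fin.sum_univ_four, Fin.sum_univ_three, hx0, hx1, hx2, hx3]; ring
    · rw [Fin.sum_univ_four, hx0, hx1, hx2, hx3]
      simp only [Fin.sum_univ_three]
      rw [Q00, Q01, Q02, Q10, Q11, Q12, Q20, Q21, Q22, hP', hq01, hq02, hq12, hk0]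
      ring
  obtain ⟨ν, n, hn, hQn, hν, hνs⟩ := spectral3 Q hQs (9 * P)
    (fun t => by
      obtain ⟨x, hx0, hx1, hx2⟩ := hform t
      rw [hx2]
      exact (hx x hx0).1)
    (fun t => by
      obtain ⟨x, hx0, hx1, hx2⟩ := hform t
      rw [hx2, ← hx1]
      exact (hx x hx0).2)
  have hPpos : 0 < P := by
    have h9 : (z 0 + z 1 + z 2 + z 3) ^ 2 + (-z 0 - z 1 + z 2 + z 3) ^ 2 +
        (-z 0 + z 1 - z 2 + z 3) ^ 2 + (-z 0 + z 1 + z 2 - z 3) ^ 2 =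
        4 * (z 0 ^ 2 + z 1 ^ 2 + z 2 ^ 2 + z 3 ^ 2) := by ring
    rw [hP']
    linarith only [hN, h9]
  have hlp := lp_lemma (fun i => Kq K (xi n i) (xi n i)) (Sum.elim w ν) (36 * P) (by linarith)
    (fun t ht => four_sub K h4 (xi n) (xi_on n hn).1 (xi_on n hn).2 t ht)
    (fun i => by
      rcases i with i | i
      · exact (hwb i).1
      · exact (hν i).1)
    (fun i => by
      rcases i with i | i
      · have := (hwb i).2
        show w i ≤ _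
        linarith
      · have := (hν i).2
        show ν i ≤ _
        linarith)
    (by
      rw [Fintype.sum_sum_type]
      simp only [Sum.elim_inl, Sum.elim_inr]
      rw [hνs, sum12_352, Fin.sum_univ_three, w0, w1, w2, w3, w4, w5, w6, w7, w8, w9, w10, w11,
        Q00, Q11, Q22, hP', hk0]
      ring)
  rw [Fintype.sum_sum_type] at hlp
  simp only [Sum.elim_inl, Sum.elim_inr] at hlp
  rw [sum12_352, Fin.sum_univ_three] at hlp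
  have r0 : Kq K (xi n (Sum.inl 0)) (xi n (Sum.inl 0)) = (K 0 1 0 1 + K 3 4 3 4) / 2 + K 0 1 3 4 :=
    (Kq_root K hK).1 0 1 3 4
  have r1 : Kq K (xi n (Sum.inl 1)) (xi n (Sum.inl 1)) = (K 0 1 0 1 + K 3 4 3 4) / 2 - K 0 1 3 4 :=
    (Kq_root K hK).2 0 1 3 4
  have r2 : Kq K (xi n (Sum.inl 2)) (xi n (Sum.inl 2)) = (K 0 4 0 4 + K 1 3 1 3) / 2 + K 0 4 1 3 :=
    (Kq_root K hK).1 0 4 1 3
  have r3 : Kq K (xi n (Sum.inl 3)) (xi n (Sum.inl 3)) = (K 0 4 0 4 + K 1 3 1 3) / 2 - K 0 4 1 3 :=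
    (Kq_root K hK).2 0 4 1 3
  have r4 : Kq K (xi n (Sum.inl 4)) (xi n (Sum.inl 4)) = (K 0 2 0 2 + K 3 5 3 5) / 2 + K 0 2 3 5 :=
    (Kq_root K hK).1 0 2 3 5
  have r5 : Kq K (xi n (Sum.inl 5)) (xi n (Sum.inl 5)) = (K 0 2 0 2 + K 3 5 3 5) / 2 - K 0 2 3 5 :=
    (Kq_root K hK).2 0 2 3 5
  have r6 : Kq K (xi n (Sum.inl 6)) (xi n (Sum.inl 6)) = (K 0 5 0 5 + K 2 3 2 3) / 2 + K 0 5 2 3 :=
    (Kq_root K hK).1 0 5 2 3
  have r7 : Kq K (xi n (Sum.inl 7)) (xi n (Sum.inl 7)) = (K 0 5 0 5 + K 2 3 2 3) / 2 - K 0 5 2 3 :=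
    (Kq_root K hK).2 0 5 2 3
  have r8 : Kq K (xi n (Sum.inl 8)) (xi n (Sum.inl 8)) = (K 1 2 1 2 + K 4 5 4 5) / 2 + K 1 2 4 5 :=
    (Kq_root K hK).1 1 2 4 5
  have r9 : Kq K (xi n (Sum.inl 9)) (xi n (Sum.inl 9)) = (K 1 2 1 2 + K 4 5 4 5) / 2 - K 1 2 4 5 :=
    (Kq_root K hK).2 1 2 4 5
  have r10 : Kq K (xi n (Sum.inl 10)) (xi n (Sum.inl 10)) = (K 1 5 1 5 + K 2 4 2 4) / 2 + K 1 5 2 4 :=
    (Kq_root K hK).1 1 5 2 4
  have r11 : Kq K (xi n (Sum.inl 11)) (xi n (Sum.inl 11)) = (K 1 5 1 5 + K 2 4 2 4) / 2 - K 1 5 2 4 :=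
    (Kq_root K hK).2 1 5 2 4
  have rc : ∀ i, Kq K (xi n (Sum.inr i)) (xi n (Sum.inr i)) =
      n i 0 ^ 2 * K 0 3 0 3 + n i 1 ^ 2 * K 1 4 1 4 + n i 2 ^ 2 * K 2 5 2 5
      + 2 * (n i 0 * n i 1 * K 0 3 1 4 + n i 0 * n i 2 * K 0 3 2 5 + n i 1 * n i 2 * K 1 4 2 5) :=
    fun i => Kq_cartan K hK (n i)
  rw [r0, r1, r2, r3, r4, r5, r6, r7, r8, r9, r10, r11, rc 0, rc 1, rc 2,
    w0, w1, w2, w3, w4, w5, w6, w7, w8, w9, w10, w11] at hlp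
  have b1 : K 0 1 3 4 + K 0 4 1 3 = K 0 3 1 4 := by
    have h1 := hK.bianchi 0 1 3 4
    have h2 := curv_symm K hK 1 3 0 4
    have h3 := hK.anti1 3 0 1 4
    linarith
  have b2 : K 0 2 3 5 + K 0 5 2 3 = K 0 3 2 5 := by
    have h1 := hK.bianchi 0 2 3 5
    have h2 := curv_symm K hK 2 3 0 5
    have h3 := hK.anti1 3 0 2 5
    linarith
  have b3 : K 1 2 4 5 + K 1 5 2 4 = K 1 4 2 5 := by
    have h1 := hK.bianchi 1 2 4 5
    have h2 := curv_symm K hK 2 4 1 5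
    have h3 := hK.anti1 4 1 2 5
    linarith
  have c00 := hQn 0 0
  have c11 := hQn 1 1
  have c22 := hQn 2 2
  have c01 := hQn 0 1
  have c02 := hQn 0 2
  have c12 := hQn 1 2
  rw [Fin.sum_univ_three] at c00 c11 c22 c01 c02 c12
  rw [Q00, hP'] at c00
  rw [Q11, hP'] at c11
  rw [Q22, hP'] at c22
  rw [Q01, hq01] at c01
  rw [Q02, hq02] at c02
  rw [Q12, hq12] at c12
  rw [hT]
  rw [hk0] at hlp
  refine lt_of_lt_of_eq hlp ?_
  linear_combination (-K 0 3 0 3) * c00 - K 1 4 1 4 * c11 - K 2 5 2 5 * c22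
    - 2 * K 0 3 1 4 * c01 - 2 * K 0 3 2 5 * c02 - 2 * K 1 4 2 5 * c12
    + 4 * (k 1 + k 2) * b1 + 4 * (k 1 + k 3) * b2 + 4 * (k 2 + k 3) * b3

end FPA
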