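import Pool.Agent.Helper427.FPA.Defs



namespace FPA



/-- complement of a triple -/
def pqr (a b c : Fin 6) : List (Fin 6) := (List.finRange 6).filter (fun x => x ≠ a ∧ x ≠ b ∧ x ≠ c)
def sp (a b c : Fin 6) : Fin 6 := (pqr a b c).getD 0 0
def sq' (a b c : Fin 6) : Fin 6 := (pqr a b c).getD 1 0
def sr (a b c : Fin 6) : Fin 6 := (pqr a b c).getD 2 0
def sinv (a b : Fin 6) : ℕ := if b < a then 1 else 0
def ssg (a b c : Fin 6) : ℤ := if a = b ∨ b = c ∨ a = c then 0 else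
  (-1) ^ (sinv a b + sinv a c + sinv b c + a.val + b.val + c.val + 1)
/-- the star -/
def star3 (u : T3) : T3 := fun a b c => (ssg a b c : ℝ) * u (sp a b c) (sq' a b c) (sr a b c)

theorem star_sym1 : ∀ a b c : Fin 6, ssg a b c = - ssg b a c ∧ sp a b c = sp b a c ∧
    sq' a b c = sq' b a c ∧ sr a b c = sr b a c := by decide +kernel
theorem star_sym2 : ∀ a b c : Fin 6, ssg a b c = - ssg a c b ∧ sp a b c = sp a c b ∧
    sq' a b c = sq' a c b ∧ sr a b c = sr a c b := by decide +kernel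

theorem star_alt (u : T3) : Alt3 (star3 u) := by
  constructor
  · intro a b c
    obtain ⟨h1, h2, h3, h4⟩ := star_sym1 a b c
    simp only [star3]
    rw [h1, h2, h3, h4]
    push_cast
    ring
  · intro a b c
    obtain ⟨h1, h2, h3, h4⟩ := star_sym2 a b c
    simp only [star3]
    rw [h1, h2, h3, h4]
    push_cast
    ring

theorem alt_z1 {u : T3} (hu : Alt3 u) (a c : Fin 6) : u a a c = 0 := by
  have := hu.1 a a c
  linarith
theorem alt_z2 {u : T3} (hu : Alt3 u) (a c : Fin 6) : u a c c = 0 := by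
  have := hu.2 a c c
  linarith
theorem alt_z3 {u : T3} (hu : Alt3 u) (a c : Fin 6) : u a c a = 0 := by
  rw [hu.2, alt_z1 hu, neg_zero]
theorem alt_s1 {u : T3} (hu : Alt3 u) (a b c : Fin 6) (_ : b < a) : u a b c = - u b a c := hu.1 a b c
theorem alt_s2 {u : T3} (hu : Alt3 u) (a b c : Fin 6) (_ : c < b) : u a b c = - u a c b := hu.2 a b c

theorem alt_ext {u v : T3} (hu : Alt3 u) (hv : Alt3 v)
    (h : ∀ a b c : Fin 6, a < b → b < c → u a b c = v a b c) : u = v := by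
  have e1 : ∀ a b c, u a b c = v a b c → u b a c = v b a c := by
    intro a b c h
    rw [hu.1 b a c, hv.1 b a c, h]
  have e2 : ∀ a b c, u a b c = v a b c → u a c b = v a c b := by
    intro a b c h
    rw [hu.2 a c b, hv.2 a c b, h]
  funext a b c
  rcases lt_trichotomy a b with hab | hab | hab
  · rcases lt_trichotomy b c with hbc | hbc | hbc
    · exact h a b c hab hbc
    · subst hbc; rw [alt_z2 hu, alt_z2 hv]
    · rcases lt_trichotomy a c with hac | hac | hac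
      · exact e2 _ _ _ (h a c b hac hbc)
      · subst hac; rw [alt_z3 hu, alt_z3 hv]
      · exact e2 _ _ _ (e1 _ _ _ (h c a b hac hab))
  · subst hab; rw [alt_z1 hu, alt_z1 hv]
  · rcases lt_trichotomy a c with hac | hac | hac
    · exact e1 _ _ _ (h b a c hab hac)
    · subst hac; rw [alt_z3 hu, alt_z3 hv]
    · rcases lt_trichotomy b c with hbc | hbc | hbc
      · exact e1 _ _ _ (e2 _ _ _ (h b c a hbc hac))
      · subst hbc; rw [alt_z2 hu, alt_z2 hv]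
      · exact e1 _ _ _ (e2 _ _ _ (e1 _ _ _ (h c b a hbc hab)))

theorem S_alt {u : T3} (hu : Alt3 u) (a b : Fin 6) : Alt3 (S a b u) := by
  constructor
  · intro i j k
    simp only [S]
    rw [hu.1 b i k, hu.1 a i k, hu.1 j b k, hu.1 j a k, hu.1 j i b, hu.1 j i a]
    split_ifs <;> ring
  · intro i j k
    simp only [S]
    rw [hu.2 b k j, hu.2 a k j, hu.2 i b j, hu.2 i a j, hu.2 i k b, hu.2 i k a]
    split_ifs <;> ring

theorem S_anti (u : T3) (a b : Fin 6) : S a b u = - S b a u := by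
  funext i j k
  simp only [S, Pi.neg_apply]
  ring

theorem stv_012 (u : T3) : star3 u 0 1 2 = u 3 4 5 := by
  have h : ssg 0 1 2 = 1 ∧ sp 0 1 2 = 3 ∧ sq' 0 1 2 = 4 ∧ sr 0 1 2 = 5 := by decide +kernel
  simp only [star3]; rw [h.1, h.2.1, h.2.2.1, h.2.2.2]; push_cast; ring
theorem stv_013 (u : T3) : star3 u 0 1 3 = -u 2 4 5 := by
  have h : ssg 0 1 3 = -1 ∧ sp 0 1 3 = 2 ∧ sq' 0 1 3 = 4 ∧ sr 0 1 3 = 5 := by decide +kernel
  simp only [star3]; rw [h.1, h.2.1, h.2.2.1, h.2.2.2]; push_cast; ring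
theorem stv_014 (u : T3) : star3 u 0 1 4 = u 2 3 5 := by
  have h : ssg 0 1 4 = 1 ∧ sp 0 1 4 = 2 ∧ sq' 0 1 4 = 3 ∧ sr 0 1 4 = 5 := by decide +kernel
  simp only [star3]; rw [h.1, h.2.1, h.2.2.1, h.2.2.2]; push_cast; ring
theorem stv_015 (u : T3) : star3 u 0 1 5 = -u 2 3 4 := by
  have h : ssg 0 1 5 = -1 ∧ sp 0 1 5 = 2 ∧ sq' 0 1 5 = 3 ∧ sr 0 1 5 = 4 := by decide +kernel
  simp only [star3]; rw [h.1, h.2.1, h.2.2.1, h.2.2.2]; push_cast; ring
theorem stv_023 (u : T3) : star3 u 0 2 3 = u 1 4 5 := by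
  have h : ssg 0 2 3 = 1 ∧ sp 0 2 3 = 1 ∧ sq' 0 2 3 = 4 ∧ sr 0 2 3 = 5 := by decide +kernel
  simp only [star3]; rw [h.1, h.2.1, h.2.2.1, h.2.2.2]; push_cast; ring
theorem stv_024 (u : T3) : star3 u 0 2 4 = -u 1 3 5 := by
  have h : ssg 0 2 4 = -1 ∧ sp 0 2 4 = 1 ∧ sq' 0 2 4 = 3 ∧ sr 0 2 4 = 5 := by decide +kernel
  simp only [star3]; rw [h.1, h.2.1, h.2.2.1, h.2.2.2]; push_cast; ring
theorem stv_025 (u : T3) : star3 u 0 2 5 = u 1 3 4 := by
  have h : ssg 0 2 5 = 1 ∧ sp 0 2 5 = 1 ∧ sq' 0 2 5 = 3 ∧ sr 0 2 5 = 4 := by decide +kernel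
  simp only [star3]; rw [h.1, h.2.1, h.2.2.1, h.2.2.2]; push_cast; ring
theorem stv_034 (u : T3) : star3 u 0 3 4 = u 1 2 5 := by
  have h : ssg 0 3 4 = 1 ∧ sp 0 3 4 = 1 ∧ sq' 0 3 4 = 2 ∧ sr 0 3 4 = 5 := by decide +kernel
  simp only [star3]; rw [h.1, h.2.1, h.2.2.1, h.2.2.2]; push_cast; ring
theorem stv_035 (u : T3) : star3 u 0 3 5 = -u 1 2 4 := by
  have h : ssg 0 3 5 = -1 ∧ sp 0 3 5 = 1 ∧ sq' 0 3 5 = 2 ∧ sr 0 3 5 = 4 := by decide +kernel
  simp only [star3]; rw [h.1, h.2.1, h.2.2.1, h.2.2.2]; push_cast; ring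
theorem stv_045 (u : T3) : star3 u 0 4 5 = u 1 2 3 := by
  have h : ssg 0 4 5 = 1 ∧ sp 0 4 5 = 1 ∧ sq' 0 4 5 = 2 ∧ sr 0 4 5 = 3 := by decide +kernel
  simp only [star3]; rw [h.1, h.2.1, h.2.2.1, h.2.2.2]; push_cast; ring
theorem stv_123 (u : T3) : star3 u 1 2 3 = -u 0 4 5 := by
  have h : ssg 1 2 3 = -1 ∧ sp 1 2 3 = 0 ∧ sq' 1 2 3 = 4 ∧ sr 1 2 3 = 5 := by decide +kernel
  simp only [star3]; rw [h.1, h.2.1, h.2.2.1, h.2.2.2]; push_cast; ring
theorem stv_124 (u : T3) : star3 u 1 2 4 = u 0 3 5 := by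
  have h : ssg 1 2 4 = 1 ∧ sp 1 2 4 = 0 ∧ sq' 1 2 4 = 3 ∧ sr 1 2 4 = 5 := by decide +kernel
  simp only [star3]; rw [h.1, h.2.1, h.2.2.1, h.2.2.2]; push_cast; ring
theorem stv_125 (u : T3) : star3 u 1 2 5 = -u 0 3 4 := by
  have h : ssg 1 2 5 = -1 ∧ sp 1 2 5 = 0 ∧ sq' 1 2 5 = 3 ∧ sr 1 2 5 = 4 := by decide +kernel
  simp only [star3]; rw [h.1, h.2.1, h.2.2.1, h.2.2.2]; push_cast; ring
theorem stv_134 (u : T3) : star3 u 1 3 4 = -u 0 2 5 := by
  have h : ssg 1 3 4 = -1 ∧ sp 1 3 4 = 0 ∧ sq' 1 3 4 = 2 ∧ sr 1 3 4 = 5 := by decide +kernel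
  simp only [star3]; rw [h.1, h.2.1, h.2.2.1, h.2.2.2]; push_cast; ring
theorem stv_135 (u : T3) : star3 u 1 3 5 = u 0 2 4 := by
  have h : ssg 1 3 5 = 1 ∧ sp 1 3 5 = 0 ∧ sq' 1 3 5 = 2 ∧ sr 1 3 5 = 4 := by decide +kernel
  simp only [star3]; rw [h.1, h.2.1, h.2.2.1, h.2.2.2]; push_cast; ring
theorem stv_145 (u : T3) : star3 u 1 4 5 = -u 0 2 3 := by
  have h : ssg 1 4 5 = -1 ∧ sp 1 4 5 = 0 ∧ sq' 1 4 5 = 2 ∧ sr 1 4 5 = 3 := by decide +kernel
  simp only [star3]; rw [h.1, h.2.1, h.2.2.1, h.2.2.2]; push_cast; ring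
theorem stv_234 (u : T3) : star3 u 2 3 4 = u 0 1 5 := by
  have h : ssg 2 3 4 = 1 ∧ sp 2 3 4 = 0 ∧ sq' 2 3 4 = 1 ∧ sr 2 3 4 = 5 := by decide +kernel
  simp only [star3]; rw [h.1, h.2.1, h.2.2.1, h.2.2.2]; push_cast; ring
theorem stv_235 (u : T3) : star3 u 2 3 5 = -u 0 1 4 := by
  have h : ssg 2 3 5 = -1 ∧ sp 2 3 5 = 0 ∧ sq' 2 3 5 = 1 ∧ sr 2 3 5 = 4 := by decide +kernel
  simp only [star3]; rw [h.1, h.2.1, h.2.2.1, h.2.2.2]; push_cast; ring
theorem stv_245 (u : T3) : star3 u 2 4 5 = u 0 1 3 := by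
  have h : ssg 2 4 5 = 1 ∧ sp 2 4 5 = 0 ∧ sq' 2 4 5 = 1 ∧ sr 2 4 5 = 3 := by decide +kernel
  simp only [star3]; rw [h.1, h.2.1, h.2.2.1, h.2.2.2]; push_cast; ring
theorem stv_345 (u : T3) : star3 u 3 4 5 = -u 0 1 2 := by
  have h : ssg 3 4 5 = -1 ∧ sp 3 4 5 = 0 ∧ sq' 3 4 5 = 1 ∧ sr 3 4 5 = 2 := by decide +kernel
  simp only [star3]; rw [h.1, h.2.1, h.2.2.1, h.2.2.2]; push_cast; ring

theorem comm_sorted {u : T3} (hu : Alt3 u) : ∀ a b : Fin 6, a < b → ∀ i j k : Fin 6, i < j → j < k →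
    star3 (S a b u) i j k = S a b (star3 u) i j k := by
  have hs := star_alt u
  intro a b hab i j k hij hjk
  fin_cases a <;> fin_cases b <;> first | exact absurd hab (by decide) | skip
  all_goals
    fin_cases i <;> fin_cases j <;> first | exact absurd hij (by decide) | skip
  all_goals
    fin_cases k <;> first | exact absurd hjk (by decide) | skip
  all_goals
    simp only [Fin.zero_eta, Fin.mk_one, Fin.reduceFinMk, stv_012, stv_013, stv_014, stv_015, stv_023, stv_024, stv_025, stv_034, stv_035, stv_045, stv_123, stv_124, stv_125, stv_134, stv_135, stv_145, stv_234, stv_235, stv_245, stv_345, S, Fin.reduceEq, if_true, if_false,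
      add_zero, zero_add, sub_zero, zero_sub, neg_neg, neg_zero, sub_neg_eq_add,
      alt_z1 hs, alt_z2 hs, alt_z3 hs, alt_z1 hu, alt_z2 hu, alt_z3 hu]
  all_goals
    simp (disch := decide) only [alt_s1 hs, alt_s2 hs, stv_012, stv_013, stv_014, stv_015, stv_023, stv_024, stv_025, stv_034, stv_035, stv_045, stv_123, stv_124, stv_125, stv_134, stv_135, stv_145, stv_234, stv_235, stv_245, stv_345, alt_s1 hu, alt_s2 hu, neg_neg, neg_zero,
      alt_z1 hs, alt_z2 hs, alt_z3 hs, alt_z1 hu, alt_z2 hu, alt_z3 hu,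
      add_zero, zero_add, sub_zero, zero_sub, neg_neg, neg_zero, sub_neg_eq_add, sub_self, add_neg_cancel,
      neg_add_cancel]
  all_goals first | done | (ring; done)

theorem ip3_sorted {u v : T3} (hu : Alt3 u) (hv : Alt3 v) :
    ip3 u v = u 0 1 2 * v 0 1 2 + u 0 1 3 * v 0 1 3 + u 0 1 4 * v 0 1 4 + u 0 1 5 * v 0 1 5 + u 0 2 3 * v 0 2 3 + u 0 2 4 * v 0 2 4 + u 0 2 5 * v 0 2 5 + u 0 3 4 * v 0 3 4 + u 0 3 5 * v 0 3 5 + u 0 4 5 * v 0 4 5 + u 1 2 3 * v 1 2 3 + u 1 2 4 * v 1 2 4 + u 1 2 5 * v 1 2 5 + u 1 3 4 * v 1 3 4 + u 1 3 5 * v 1 3 5 + u 1 4 5 * v 1 4 5 + u 2 3 4 * v 2 3 4 + u 2 3 5 * v 2 3 5 + u 2 4 5 * v 2 4 5 + u 3 4 5 * v 3 4 5 := by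
  unfold ip3
  simp only [Fin.sum_univ_six]
  simp (disch := decide) only [alt_s1 hu, alt_s2 hu, alt_s1 hv, alt_s2 hv, alt_z1 hu, alt_z2 hu,
    alt_z3 hu, mul_zero, zero_mul, zero_add, add_zero, neg_neg, neg_mul, mul_neg]
  ring

theorem star_skew {u v : T3} (hu : Alt3 u) (hv : Alt3 v) : ip3 (star3 u) v = - ip3 u (star3 v) := by
  rw [ip3_sorted (star_alt u) hv, ip3_sorted hu (star_alt v)]
  simp only [stv_012, stv_013, stv_014, stv_015, stv_023, stv_024, stv_025, stv_034, stv_035, stv_045, stv_123, stv_124, stv_125, stv_134, stv_135, stv_145, stv_234, stv_235, stv_245, stv_345]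
  ring

theorem star_sq {u : T3} (hu : Alt3 u) : star3 (star3 u) = - u := by
  have hn : Alt3 (- u) := by
    constructor
    · intro a b c
      simp only [Pi.neg_apply]
      rw [hu.1 a b c]
    · intro a b c
      simp only [Pi.neg_apply]
      rw [hu.2 a b c]
  refine alt_ext (star_alt _) hn ?_
  intro i j k hij hjk
  fin_cases i <;> fin_cases j <;> first | exact absurd hij (by decide) | skip
  all_goals
    fin_cases k <;> first | exact absurd hjk (by decide) | skip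
  all_goals
    simp only [Fin.zero_eta, Fin.mk_one, Fin.reduceFinMk, stv_012, stv_013, stv_014, stv_015, stv_023, stv_024, stv_025, stv_034, stv_035, stv_045, stv_123, stv_124, stv_125, stv_134, stv_135, stv_145, stv_234, stv_235, stv_245, stv_345, Pi.neg_apply, neg_neg]

theorem star_exists : ∃ st : T3 → T3, StarLike st := by
  refine ⟨star3, ?_⟩
  have hneg : ∀ w : T3, star3 (- w) = - star3 w := by
    intro w
    funext a b c
    simp only [star3, Pi.neg_apply]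
    ring
  have hzero : star3 0 = 0 := by
    funext a b c
    simp only [star3, Pi.zero_apply, mul_zero]
  refine ⟨?_, ?_, fun u _ => star_alt u, fun u hu => star_sq hu, fun u v hu hv => star_skew hu hv,
    ?_, ?_, ?_, ?_, ?_⟩
  · intro u v
    funext a b c
    simp only [star3, Pi.add_apply]
    ring
  · intro r u
    funext a b c
    simp only [star3, Pi.smul_apply, smul_eq_mul]
    ring
  · intro a b u hu
    have hs := star_alt u
    rcases lt_trichotomy a b with hab | hab | hab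
    · exact alt_ext (star_alt _) (S_alt hs a b) (comm_sorted hu a b hab)
    · subst hab
      have hz : ∀ w : T3, S a a w = 0 := by
        intro w
        funext i j k
        simp only [S, Pi.zero_apply]
        ring
      rw [hz, hz, hzero]
    · rw [S_anti u a b, S_anti (star3 u) a b, hneg]
      rw [alt_ext (star_alt _) (S_alt hs b a) (comm_sorted hu b a hab)]
  · intro u hu
    exact stv_012 u
  · intro u hu
    exact stv_045 u
  · intro u hu
    rw [(star_alt u).1 3 1 5, (stv_135 u)]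
  · intro u hu
    rw [(star_alt u).2 3 4 2, (star_alt u).1 3 2 4, stv_234 u, neg_neg]

end FPA
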