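import Pool.Agent.Helper427.FPA.Defs
import Pool.Agent.Helper427.FPA.P_star_exists
import Pool.Agent.Helper427.FPA.P_T_phase
import Pool.Agent.Helper427.FPA.P_rot3_alt
import Pool.Agent.Helper427.FPA.P_rot3_inj
import Pool.Agent.Helper427.FPA.P_T_rot
import Pool.Agent.Helper427.FPA.P_curv_rot
import Pool.Agent.Helper427.FPA.P_fourpos_rot
import Pool.Agent.Helper427.FPA.P_normal_form
import Pool.Agent.Helper427.FPA.P_slice_pos



namespace FPA



/-- A curvature tensor with 4-positive curvature operator has positive Weitzenboeck form on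
3-forms. -/
theorem T_pos (K : T4) (hK : CurvT K) (h4 : FourPos K) (u : T3) (hu : Alt3 u) (hne : u ≠ 0) :
    0 < Tform K u := by
  obtain ⟨st, hst⟩ := star_exists
  obtain ⟨O, θ, hO, hsl⟩ := normal_form st hst u hu
  have hcs : Real.cos θ ^ 2 + Real.sin θ ^ 2 = 1 := Real.cos_sq_add_sin_sq θ
  have hw : Alt3 (rot3 O u) := rot3_alt O u hu
  have h1 := T_phase st hst (rot4 O K) (curv_rot O K hK) (rot3 O u) hw (Real.cos θ) (Real.sin θ) hcs
  rw [T_rot O hO] at h1
  rw [← h1]
  refine slice_pos _ (curv_rot O K hK) (fourpos_rot O hO K h4) _ hsl ?_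
  intro hv
  apply hne
  apply rot3_inj O hO
  have hst0 : st 0 = 0 := by
    have := hst.smul 0 0
    simpa using this
  have h2 : st (Real.cos θ • rot3 O u + Real.sin θ • st (rot3 O u)) = 0 := by rw [hv, hst0]
  rw [hst.add, hst.smul, hst.smul, hst.sq _ hw] at h2
  have h3 : rot3 O u = Real.cos θ • (Real.cos θ • rot3 O u + Real.sin θ • st (rot3 O u))
      - Real.sin θ • (Real.cos θ • st (rot3 O u) + Real.sin θ • -rot3 O u) := by
    have h5 : rot3 O u = (Real.cos θ ^ 2 + Real.sin θ ^ 2) • rot3 O u := by rw [hcs, one_smul]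
    conv_lhs => rw [h5]
    module
  rw [h3, hv, h2]
  simp

end FPA
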