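import Pool.Agent.Helper427.FPA.Defs
import Pool.Agent.Helper427.FPA.P_lp_lemma



namespace FPA



/-- Ky Fan: if any 4 eigenvalues of a real symmetric matrix have positive sum, then so have the
values of its quadratic form at any 4 orthonormal vectors. -/
theorem kyfan {ι : Type} [Fintype ι] [DecidableEq ι] (A : Matrix ι ι ℝ) (hA : A.IsHermitian)
    (h : ∀ t : Finset ι, t.card = 4 → 0 < ∑ i ∈ t, hA.eigenvalues i)
    (v : Fin 4 → ι → ℝ) (hv : ∀ k l, ∑ i, v k i * v l i = if k = l then 1 else 0) :
    0 < ∑ k, ∑ i, ∑ j, A i j * v k i * v k j := by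
  have inn : ∀ x y : EuclideanSpace ℝ ι, inner ℝ x y = ∑ i, x i * y i := by
    intro x y
    rw [PiLp.inner_apply]
    refine Finset.sum_congr rfl fun i _ => ?_
    simp [mul_comm]
  set w := hA.eigenvectorBasis with hw
  let V : Fin 4 → EuclideanSpace ℝ ι := fun k => WithLp.toLp 2 (v k)
  have hVi : ∀ k i, V k i = v k i := fun _ _ => rfl
  have hV : Orthonormal ℝ V := by
    rw [orthonormal_iff_ite]
    intro k l
    rw [inn]
    simpa [hVi] using hv k l
  have eig : ∀ j i, ∑ l, A i l * w j l = hA.eigenvalues j * w j i := by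
    intro j i
    have := congrFun (hA.mulVec_eigenvectorBasis j) i
    simpa [Matrix.mulVec, dotProduct] using this
  have sym : ∀ i j, A i j = A j i := by
    intro i j
    have := hA.apply i j
    simpa using this.symm
  -- quadratic form
  have quad : ∀ k, ∑ i, ∑ j, A i j * v k i * v k j
      = ∑ j, (inner ℝ (w j) (V k)) ^ 2 * hA.eigenvalues j := by
    intro k
    let AV : EuclideanSpace ℝ ι := WithLp.toLp 2 (fun i => ∑ j, A i j * v k j)
    have h1 : ∑ i, ∑ j, A i j * v k i * v k j = inner ℝ (V k) AV := by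
      rw [inn]
      refine Finset.sum_congr rfl fun i _ => ?_
      change _ = v k i * ∑ j, A i j * v k j
      rw [Finset.mul_sum]
      exact Finset.sum_congr rfl fun j _ => by ring
    rw [h1, ← w.sum_inner_mul_inner]
    refine Finset.sum_congr rfl fun j _ => ?_
    have h2 : inner ℝ (w j) AV = hA.eigenvalues j * inner ℝ (w j) (V k) := by
      rw [inn, inn, Finset.mul_sum]
      change ∑ i, w j i * ∑ l, A i l * v k l = ∑ i, hA.eigenvalues j * (w j i * v k i)
      have e1 : ∀ i, w j i * ∑ l, A i l * v k l = ∑ l, w j i * (A i l * v k l) :=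
        fun i => Finset.mul_sum _ _ _
      rw [Finset.sum_congr rfl fun i _ => e1 i, Finset.sum_comm]
      refine Finset.sum_congr rfl fun l _ => ?_
      rw [← mul_assoc, ← eig j l, Finset.sum_mul]
      refine Finset.sum_congr rfl fun i _ => ?_
      rw [sym i l]; ring
    rw [h2, real_inner_comm]
    ring
  have key := lp_lemma hA.eigenvalues (fun j => ∑ k, (inner ℝ (w j) (V k)) ^ 2) 4 (by norm_num) h
    (fun j => Finset.sum_nonneg fun k _ => sq_nonneg _) ?_ ?_
  · have e : ∑ k, ∑ i, ∑ j, A i j * v k i * v k j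
        = ∑ j, (∑ k, (inner ℝ (w j) (V k)) ^ 2) * hA.eigenvalues j := by
      rw [Finset.sum_congr rfl fun k _ => quad k, Finset.sum_comm]
      exact Finset.sum_congr rfl fun j _ => (Finset.sum_mul _ _ _).symm
    rw [e]; exact key
  · intro j
    have h3 := hV.sum_inner_products_le (x := w j) (s := Finset.univ)
    have h4 : ‖w j‖ = 1 := w.orthonormal.1 j
    rw [h4] at h3
    have h5 : ∑ k, (inner ℝ (w j) (V k)) ^ 2 = ∑ k, ‖inner ℝ (V k) (w j)‖ ^ 2 := by
      refine Finset.sum_congr rfl fun k _ => ?_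
      rw [real_inner_comm, Real.norm_eq_abs, sq_abs]
    change ∑ k, (inner ℝ (w j) (V k)) ^ 2 ≤ 4 / 4
    rw [h5]
    norm_num at h3 ⊢
    exact h3
  · rw [Finset.sum_comm]
    have h6 : ∀ k, ∑ j, (inner ℝ (w j) (V k)) ^ 2 = 1 := by
      intro k
      have h7 : inner ℝ (V k) (V k) = (1 : ℝ) := by
        rw [inn]; simpa [hVi] using hv k k
      rw [← h7, ← w.sum_inner_mul_inner]
      refine Finset.sum_congr rfl fun j _ => ?_
      rw [real_inner_comm (V k) (w j)]
      ring
    rw [Finset.sum_congr rfl fun k _ => h6 k]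
    simp

end FPA
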