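import Pool.Agent.Helper427.FPA.Defs
import Pool.Agent.Helper427.FPA.P_kyfan



namespace FPA



theorem pair_sum (F : Fin 6 → Fin 6 → ℝ) (h1 : ∀ a b, F a b = F b a) (h0 : ∀ a, F a a = 0) :
    ∑ a, ∑ b, F a b = 2 * ∑ p : {p : Fin 6 × Fin 6 // p.1 < p.2}, F p.1.1 p.1.2 := by
  have e : ∑ p : {p : Fin 6 × Fin 6 // p.1 < p.2}, F p.1.1 p.1.2
      = ∑ a : Fin 6, ∑ b : Fin 6, if a < b then F a b else 0 := by
    rw [← Fintype.sum_prod_type' (f := fun a b : Fin 6 => if a < b then F a b else 0),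
      ← Finset.sum_filter]
    exact (Finset.sum_subtype (Finset.univ.filter (fun p : Fin 6 × Fin 6 => p.1 < p.2))
      (fun p => by simp) (fun p => F p.1 p.2)).symm
  rw [e]
  have s1 : ∑ a : Fin 6, ∑ b : Fin 6, F a b
      = ∑ a : Fin 6, ∑ b : Fin 6, (if a < b then F a b else 0)
        + ∑ a : Fin 6, ∑ b : Fin 6, (if b < a then F a b else 0) := by
    rw [← Finset.sum_add_distrib]
    refine Finset.sum_congr rfl fun a _ => ?_
    rw [← Finset.sum_add_distrib]
    refine Finset.sum_congr rfl fun b _ => ?_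
    rcases lt_trichotomy a b with h | h | h
    · simp [h, not_lt.mpr h.le]
    · subst h; simp [h0]
    · simp [h, not_lt.mpr h.le]
  have s2 : ∑ a : Fin 6, ∑ b : Fin 6, (if b < a then F a b else 0)
      = ∑ a : Fin 6, ∑ b : Fin 6, (if a < b then F a b else 0) := by
    rw [Finset.sum_comm]
    refine Finset.sum_congr rfl fun a _ => Finset.sum_congr rfl fun b _ => ?_
    rw [h1]
  rw [s1, s2]; ring

/-- 4-positivity in terms of eigenvalues of the curvature operator matrix -/
theorem fourpos_of_eig (K : T4) (hK : CurvT K)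
    (hA : (Matrix.of fun p q : {p : Fin 6 × Fin 6 // p.1 < p.2} =>
      K p.1.1 p.1.2 q.1.1 q.1.2).IsHermitian)
    (h : ∀ t : Finset {p : Fin 6 × Fin 6 // p.1 < p.2}, t.card = 4 →
      0 < ∑ i ∈ t, hA.eigenvalues i) : FourPos K := by
  intro ξ halt hon
  have hz : ∀ k a, ξ k a a = 0 := fun k a => by linarith [halt k a a]
  have key := kyfan _ hA h (fun k p => ξ k p.1.1 p.1.2) (by
    intro k l
    have := hon k l
    unfold ip2 at this
    rw [pair_sum (fun a b => ξ k a b * ξ l a b) (fun a b => by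
      rw [halt k a b, halt l a b]; ring) (fun a => by simp [hz])] at this
    rw [← this]; ring)
  refine lt_of_lt_of_eq key (Finset.sum_congr rfl fun k _ => ?_)
  unfold Kq
  rw [pair_sum (fun a b => ∑ c, ∑ d, K a b c d * ξ k a b * ξ k c d) (fun a b => by
      refine Finset.sum_congr rfl fun c _ => Finset.sum_congr rfl fun d _ => ?_
      rw [halt k a b, hK.anti1 a b]; ring) (fun a => by simp [hz])]
  have e2 : ∀ p : {p : Fin 6 × Fin 6 // p.1 < p.2},
      ∑ c, ∑ d, K p.1.1 p.1.2 c d * ξ k p.1.1 p.1.2 * ξ k c d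
      = 2 * ∑ q : {p : Fin 6 × Fin 6 // p.1 < p.2},
        K p.1.1 p.1.2 q.1.1 q.1.2 * ξ k p.1.1 p.1.2 * ξ k q.1.1 q.1.2 := by
    intro p
    exact pair_sum (fun c d => K p.1.1 p.1.2 c d * ξ k p.1.1 p.1.2 * ξ k c d) (fun c d => by
      rw [halt k c d, hK.anti2 _ _ c d]; ring) (fun a => by simp [hz])
  simp only [e2]
  rw [← Finset.mul_sum]
  simp only [Matrix.of_apply]
  ring

end FPA
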